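import Pool.Agent.Helper41.PP.Basic

/-!
# A form of Menger's theorem, from Hall's theorem
-/

namespace Pool.Agent.Helper41.PP

variable {V : Type}

/-- A one-to-one function along which one can walk from `A` to `B`. -/
theorem exists_step [Fintype V] (G : SimpleGraph V) (U A B : Finset V)
    (hAU : A ⊆ U) (hAB : Disjoint A B)
    (hsep : ∀ Y : Finset V, Y.card < A.card → ∃ l : List V, l.IsChain G.Adj ∧
      (∀ v ∈ l, v ∈ U ∧ v ∉ Y) ∧ (∃ a ∈ l.head?, a ∈ A) ∧ (∃ b ∈ l, b ∈ B)) :
    ∃ f : V → V, (∀ v, v ∉ B → f v ∉ A ∧ (f v = v ∨ (G.Adj v (f v) ∧ f v ∈ U))) ∧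
      ∀ v w, v ∉ B → w ∉ B → f v = f w → v = w := by
  classical
  let t : {v // v ∉ B} → Finset V := fun v =>
    Finset.univ.filter fun w => w ∉ A ∧ (w = v.1 ∨ (G.Adj v.1 w ∧ w ∈ U))
  have hall : ∀ s : Finset {v // v ∉ B}, s.card ≤ (s.biUnion t).card := by
    intro s
    by_contra hcon
    have hcon' : (s.biUnion t).card < s.card := not_le.1 hcon
    set S : Finset V := s.image Subtype.val with hS
    have hScard : S.card = s.card := Finset.card_image_of_injective _ Subtype.val_injective
    set N : Finset V := s.biUnion t with hN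
    have hNmem : ∀ v ∈ S, ∀ w, w ∉ A → (w = v ∨ (G.Adj v w ∧ w ∈ U)) → w ∈ N := by
      intro v hv w hwA hw
      obtain ⟨v', hv', rfl⟩ := Finset.mem_image.1 hv
      exact Finset.mem_biUnion.2 ⟨v', hv', Finset.mem_filter.2 ⟨Finset.mem_univ _, hwA, hw⟩⟩
    have hNA : Disjoint N A := by
      rw [Finset.disjoint_left]
      intro w hw
      obtain ⟨v, _, hv2⟩ := Finset.mem_biUnion.1 hw
      exact (Finset.mem_filter.1 hv2).2.1
    have hSB : ∀ v ∈ S, v ∉ B := by
      intro v hv
      obtain ⟨v', _, rfl⟩ := Finset.mem_image.1 hv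
      exact v'.2
    have hSA : S \ A ⊆ N := by
      intro v hv
      have h1 := Finset.mem_sdiff.1 hv
      exact hNmem v h1.1 v h1.2 (Or.inl rfl)
    set Y : Finset V := (A \ S) ∪ (N \ S) with hY
    have hYcard : Y.card < A.card := by
      have h1 := Finset.card_union_le (A \ S) (N \ S)
      have h2 : (A \ S).card + (A ∩ S).card = A.card := Finset.card_sdiff_add_card_inter A S
      have h3 : (N \ S).card + (N ∩ S).card = N.card := Finset.card_sdiff_add_card_inter N S
      have h4 : (S \ A).card + (S ∩ A).card = S.card := Finset.card_sdiff_add_card_inter S A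
      have h5 : (S \ A).card ≤ (N ∩ S).card := by
        refine Finset.card_le_card ?_
        intro v hv
        exact Finset.mem_inter.2 ⟨hSA hv, (Finset.mem_sdiff.1 hv).1⟩
      have h6 : (S ∩ A).card = (A ∩ S).card := by rw [Finset.inter_comm]
      have h7 : Y.card = (A \ S ∪ N \ S).card := rfl
      rw [hScard] at h4
      omega
    obtain ⟨l, hl1, hl2, ⟨a, ha1, ha2⟩, ⟨b, hb1, hb2⟩⟩ := hsep Y hYcard
    -- all elements of `l` are in `S`
    have key : ∀ (l : List V), l.IsChain G.Adj → (∀ v ∈ l, v ∈ U ∧ v ∉ Y) →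
        (∀ a ∈ l.head?, a ∈ S) → ∀ v ∈ l, v ∈ S := by
      intro l
      induction l with
      | nil => intro _ _ _ v hv; exact absurd hv (List.not_mem_nil)
      | cons a l ih =>
          intro h1 h2 h3 v hv
          have haS : a ∈ S := h3 a (by simp)
          rcases List.mem_cons.1 hv with h4 | h4
          · rw [h4]; exact haS
          · refine ih ((List.isChain_cons.1 h1).2)
              (fun w hw => h2 w (List.mem_cons_of_mem _ hw)) ?_ v h4
            intro w hw
            have hadj := (List.isChain_cons.1 h1).1 w hw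
            have hwl : w ∈ l := List.mem_of_mem_head? hw
            have hwU := h2 w (List.mem_cons_of_mem _ hwl)
            by_contra hwS
            apply hwU.2
            by_cases hwA : w ∈ A
            · exact Finset.mem_union_left _ (Finset.mem_sdiff.2 ⟨hwA, hwS⟩)
            · exact Finset.mem_union_right _ (Finset.mem_sdiff.2
                ⟨hNmem a haS w hwA (Or.inr ⟨hadj, hwU.1⟩), hwS⟩)
    have hall' := key l hl1 hl2 (fun a' ha' => by
      have h1 : a' = a := by
        have h2 : l.head? = some a := ha1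
        have h3 : l.head? = some a' := ha'
        rw [h2] at h3
        exact (Option.some.inj h3).symm
      rw [h1]
      by_contra haS
      have h4 : a ∈ l := List.mem_of_mem_head? ha1
      exact (hl2 a h4).2 (Finset.mem_union_left _ (Finset.mem_sdiff.2 ⟨ha2, haS⟩))) b hb1
    exact hSB b hall' hb2
  obtain ⟨f, hf1, hf2⟩ := (Finset.all_card_le_biUnion_card_iff_exists_injective t).1 hall
  refine ⟨fun v => if h : v ∉ B then f ⟨v, h⟩ else v, ?_, ?_⟩
  · intro v hv
    have h1 := (Finset.mem_filter.1 (hf2 ⟨v, hv⟩)).2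
    simp only [dif_pos hv]
    exact h1
  · intro v w hv hw hvw
    simp only [dif_pos hv, dif_pos hw] at hvw
    have h1 := hf1 hvw
    exact congrArg Subtype.val h1

/-- Walking along `f`: the iterates of `a` before the first visit of `B`. -/
theorem walk [Fintype V] (G : SimpleGraph V) (U A B : Finset V) (hAU : A ⊆ U)
    (hAB : Disjoint A B) (f : V → V)
    (hf : ∀ v, v ∉ B → f v ∉ A ∧ (f v = v ∨ (G.Adj v (f v) ∧ f v ∈ U)))
    (hinj : ∀ v w, v ∉ B → w ∉ B → f v = f w → v = w) :
    ∃ m : V → ℕ, ∀ a ∈ A, 0 < m a ∧ f^[m a] a ∈ B ∧ (∀ i < m a, f^[i] a ∉ B) ∧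
      (∀ i, 0 < i → i ≤ m a → f^[i] a ∉ A ∧ f^[i] a ∈ U) ∧
      (∀ i < m a, G.Adj (f^[i] a) (f^[i + 1] a)) ∧
      (∀ i ≤ m a, ∀ a' ∈ A, ∀ j ≤ m a', f^[i] a = f^[j] a' → a = a' ∧ i = j) := by
  classical
  have aB : ∀ a ∈ A, a ∉ B := fun a ha hb => (Finset.disjoint_left.1 hAB) ha hb
  -- cancellation
  have cancel : ∀ (n : ℕ) (a a' : V) (j : ℕ), a ∈ A → (∀ i < n, f^[i] a ∉ B) →
      (∀ i < n + j, f^[i] a' ∉ B) → f^[n] a = f^[n + j] a' → a = f^[j] a' := by
    intro n
    induction n with
    | zero =>
        intro a a' j _ _ _ h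
        rwa [Function.iterate_zero, id_eq, Nat.zero_add] at h
    | succ n ih =>
        intro a a' j ha h1 h2 h
        refine ih a a' j ha (fun i hi => h1 i (by omega)) (fun i hi => h2 i (by omega)) ?_
        rw [Function.iterate_succ_apply', show n + 1 + j = (n + j) + 1 by ring,
          Function.iterate_succ_apply'] at h
        exact hinj _ _ (h1 n (by omega)) (h2 (n + j) (by omega)) h
  have notA : ∀ (a : V) (i : ℕ), 0 < i → (∀ k < i, f^[k] a ∉ B) → f^[i] a ∉ A := by
    intro a i hi h
    obtain ⟨k, rfl⟩ : ∃ k, i = k + 1 := ⟨i - 1, by omega⟩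
    rw [Function.iterate_succ_apply']
    exact (hf _ (h k (by omega))).1
  have ex : ∀ a ∈ A, ∃ n, f^[n] a ∈ B := by
    intro a ha
    by_contra hcon
    push Not at hcon
    have hinj' : Function.Injective fun n : ℕ => f^[n] a := by
      intro i j hij
      have hij' : f^[i] a = f^[j] a := hij
      rcases lt_trichotomy i j with h | h | h
      · exfalso
        obtain ⟨d, rfl⟩ : ∃ d, j = i + d := ⟨j - i, by omega⟩
        have h1 := cancel i a a d ha (fun k _ => hcon k) (fun k _ => hcon k) hij'
        exact notA a d (by omega) (fun k _ => hcon k) (h1 ▸ ha)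
      · exact h
      · exfalso
        obtain ⟨d, rfl⟩ : ∃ d, i = j + d := ⟨i - j, by omega⟩
        have h1 := cancel j a a d ha (fun k _ => hcon k) (fun k _ => hcon k) hij'.symm
        exact notA a d (by omega) (fun k _ => hcon k) (h1 ▸ ha)
    exact not_injective_infinite_finite _ hinj'
  refine ⟨fun a => if h : ∃ n, f^[n] a ∈ B then Nat.find h else 0, ?_⟩
  intro a ha
  have hm : ∀ a' (ha' : a' ∈ A), (if h : ∃ n, f^[n] a' ∈ B then Nat.find h else 0) =
      Nat.find (ex a' ha') := fun a' ha' => dif_pos (ex a' ha')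
  have hmin : ∀ a' (ha' : a' ∈ A), ∀ i < Nat.find (ex a' ha'), f^[i] a' ∉ B :=
    fun a' ha' i hi => Nat.find_min (ex a' ha') hi
  beta_reduce
  rw [hm a ha]
  have hpos : 0 < Nat.find (ex a ha) := by
    rw [Nat.find_pos]
    exact aB a ha
  -- different indices give different vertices
  have hdist : ∀ i ≤ Nat.find (ex a ha), ∀ a' (ha' : a' ∈ A), ∀ j ≤ Nat.find (ex a' ha'),
      f^[i] a = f^[j] a' → a = a' ∧ i = j := by
    intro i hi a' ha' j hj hij
    rcases le_total i j with h | h
    · obtain ⟨d, rfl⟩ : ∃ d, j = i + d := ⟨j - i, by omega⟩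
      have h1 := cancel i a a' d ha (fun k hk => hmin a ha k (by omega))
        (fun k hk => hmin a' ha' k (by omega)) hij
      by_cases hd : d = 0
      · subst hd
        exact ⟨h1, rfl⟩
      · exfalso
        exact notA a' d (by omega) (fun k hk => hmin a' ha' k (by omega)) (h1 ▸ ha)
    · obtain ⟨d, rfl⟩ : ∃ d, i = j + d := ⟨i - j, by omega⟩
      have h1 := cancel j a' a d ha' (fun k hk => hmin a' ha' k (by omega))
        (fun k hk => hmin a ha k (by omega)) hij.symm
      by_cases hd : d = 0
      · subst hd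
        exact ⟨h1.symm, rfl⟩
      · exfalso
        exact notA a d (by omega) (fun k hk => hmin a ha k (by omega)) (h1 ▸ ha')
  have hadj : ∀ i < Nat.find (ex a ha), G.Adj (f^[i] a) (f^[i + 1] a) ∧ f^[i + 1] a ∈ U := by
    intro i hi
    have h1 := (hf _ (hmin a ha i hi)).2
    rw [← Function.iterate_succ_apply' f i a] at h1
    rcases h1 with h1 | h1
    · exfalso
      have h2 := hdist (i + 1) (by omega) a ha i (by omega) h1
      omega
    · exact h1
  refine ⟨hpos, Nat.find_spec (ex a ha), hmin a ha, ?_, fun i hi => (hadj i hi).1, ?_⟩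
  · intro i hi0 hi
    refine ⟨notA a i hi0 (fun k hk => hmin a ha k (by omega)), ?_⟩
    obtain ⟨k, rfl⟩ : ∃ k, i = k + 1 := ⟨i - 1, by omega⟩
    exact (hadj k (by omega)).2
  · intro i hi a' ha' j hj hij
    rw [hm a' ha'] at hj
    exact hdist i hi a' ha' j hj hij

/-- Disjoint paths from all elements of `A` to `B`, if fewer than `|A|` vertices never separate `A`
from `B`. -/
theorem link [Fintype V] (G : SimpleGraph V) (U A B : Finset V) (hAU : A ⊆ U)
    (hAB : Disjoint A B)
    (hsep : ∀ Y : Finset V, Y.card < A.card → ∃ l : List V, l.IsChain G.Adj ∧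
      (∀ v ∈ l, v ∈ U ∧ v ∉ Y) ∧ (∃ a ∈ l.head?, a ∈ A) ∧ (∃ b ∈ l, b ∈ B)) :
    ∃ (mid : V → List V) (e : V → V), ∀ a ∈ A, IsP G (a :: (mid a ++ [e a])) ∧ e a ∈ B ∧
      (∀ v ∈ mid a, v ∈ U ∧ v ∉ A ∧ v ∉ B) ∧
      ∀ a' ∈ A, a ≠ a' → e a ≠ e a' ∧ ∀ v ∈ mid a, v ∉ mid a' := by
  obtain ⟨f, hf, hinj⟩ := exists_step G U A B hAU hAB hsep
  obtain ⟨m, hm⟩ := walk G U A B hAU hAB f hf hinj
  refine ⟨fun a => (List.range (m a - 1)).map (fun i => f^[i + 1] a), fun a => f^[m a] a, ?_⟩
  intro a ha
  obtain ⟨h0, h1, h2, h3, h4, h5⟩ := hm a ha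
  have hlist : a :: (((List.range (m a - 1)).map (fun i => f^[i + 1] a)) ++ [f^[m a] a]) =
      (List.range (m a + 1)).map (fun i => f^[i] a) := by
    have e1 : m a + 1 = (m a - 1 + 1) + 1 := by omega
    rw [e1, List.range_succ_eq_map, List.map_cons, List.map_map]
    congr 1
    rw [List.range_succ, List.map_append]
    congr 1
    simp only [List.map_cons, List.map_nil, Function.comp_apply]
    congr 2
    congr 1
    omega
  refine ⟨?_, h1, ?_, ?_⟩
  · rw [hlist]
    refine ⟨?_, ?_⟩
    · rw [List.isChain_map]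
      have h6 : ∀ k, k ≤ m a + 1 → List.IsChain (fun i j => G.Adj (f^[i] a) (f^[j] a))
          (List.range k) := by
        intro k
        induction k with
        | zero => intro _; exact List.isChain_nil
        | succ k ih =>
            intro hk
            rw [List.range_succ, List.isChain_append]
            refine ⟨ih (by omega), List.isChain_singleton _, ?_⟩
            intro x hx y hy
            cases k with
            | zero => simp at hx
            | succ k =>
                rw [List.range_succ, List.getLast?_append] at hx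
                simp only [List.getLast?_singleton, Option.some_or, Option.mem_def,
                  Option.some.injEq, List.head?_cons] at hx hy
                subst hy
                subst hx
                exact h4 _ (by omega)
      exact h6 _ le_rfl
    · rw [List.nodup_map_iff_inj_on List.nodup_range]
      intro i hi j hj hij
      have hi' := List.mem_range.1 hi
      have hj' := List.mem_range.1 hj
      exact (h5 i (by omega) a ha j (by omega) hij).2
  · intro v hv
    obtain ⟨i, hi, rfl⟩ := List.mem_map.1 hv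
    have hi' := List.mem_range.1 hi
    have h6 := h3 (i + 1) (by omega) (by omega)
    exact ⟨h6.2, h6.1, h2 (i + 1) (by omega)⟩
  · intro a' ha' hne
    refine ⟨fun h => hne (h5 (m a) le_rfl a' ha' (m a') le_rfl h).1, ?_⟩
    intro v hv hv'
    obtain ⟨i, hi, rfl⟩ := List.mem_map.1 hv
    obtain ⟨j, hj, hj2⟩ := List.mem_map.1 hv'
    have hi' := List.mem_range.1 hi
    have hj' := List.mem_range.1 hj
    exact hne (h5 (i + 1) (by omega) a' ha' (j + 1) (by omega) hj2.symm).1

end Pool.Agent.Helper41.PP
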