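import Pool.Agent.Helper41.PP.Blk

/-!
# The exact path partition theorem when one of the two numbers is large
-/

namespace Pool.Agent.Helper41.PP

variable {V : Type}

/-- Descending induction on `b - c`. -/
theorem exact_claim {G : SimpleGraph V} [DecidableEq V] {a b : ℕ}
    (ht : ∀ l, IsP G l → l.length ≤ a + b) {X : Finset V} (hX : MinHit G b X) :
    ∀ (m c : ℕ) (W B : List V), b - c ≤ m → IsC G (B ++ W) → (∀ v ∈ B, v ∈ X) →
      ((B ++ W).toFinset \ X).card ≤ c → a + 1 + c ≤ (B ++ W).length →
      2 * 2 ^ (3 * b) * (b - c) ≤ B.length → False := by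
  intro m
  induction m with
  | zero =>
      intro c W B hm hC _ _ hlen _
      have h1 := ht _ hC.1
      omega
  | succ m ih =>
      intro c W B hm hC hBX hK hlen hB
      by_cases hbc : b ≤ c
      · have h1 := ht _ hC.1
        omega
      have hcb : c < b := not_le.1 hbc
      set N : ℕ := 2 ^ (3 * b) with hN
      obtain ⟨k, hk⟩ : ∃ k, b - c = k + 1 := ⟨b - c - 1, by omega⟩
      have hB' : 2 * N * k + 2 * N ≤ B.length := by
        rw [hk] at hB
        calc 2 * N * k + 2 * N = 2 * N * (k + 1) := by ring
          _ ≤ B.length := hB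
      obtain ⟨L, hL, hfl⟩ := exists_fl N (B.take (2 * N)) (by
        rw [List.length_take]; exact min_eq_left (by omega))
      set F : List V := B.drop (2 * N) with hF
      have hBe : B = fl L ++ F := by rw [hfl, hF, List.take_append_drop]
      have hFl : 2 * N * k ≤ F.length := by
        rw [hF, List.length_drop]; omega
      have e0 : B ++ W = fl L ++ (F ++ W) := by rw [hBe, List.append_assoc]
      rw [e0] at hC hK hlen
      have hFX : ∀ v ∈ F, v ∈ X := fun v hv => hBX v (by
        rw [hBe]; exact List.mem_append_right _ hv)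
      have hLX : ∀ v ∈ fl L, v ∈ X := fun v hv => hBX v (by
        rw [hBe]; exact List.mem_append_left _ hv)
      -- larger cycles are impossible
      have big : ∀ (Q : List V) (d : ℕ) (E : List V), 0 < d → IsC G (Q ++ (F ++ W)) →
          (∀ v ∈ Q, v ∈ fl L ∨ v ∈ E) → E.length = d →
          Q.length = (fl L).length + d → False := by
        intro Q d E hd hQ hQm hE hQl
        refine ih (c + d) (W ++ Q) F (by omega) ?_ hFX ?_ ?_ ?_
        · have h1 := hQ.rotate
          rwa [List.append_assoc] at h1
        · have h1 : (F ++ (W ++ Q)).toFinset \ X ⊆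
              ((fl L ++ (F ++ W)).toFinset \ X) ∪ E.toFinset := by
            intro v hv
            rw [Finset.mem_sdiff, List.mem_toFinset] at hv
            rw [Finset.mem_union, Finset.mem_sdiff, List.mem_toFinset, List.mem_toFinset]
            by_cases hvE : v ∈ E
            · exact Or.inr hvE
            · left
              refine ⟨?_, hv.2⟩
              have h2 := hv.1
              simp only [List.mem_append] at h2 ⊢
              rcases h2 with h2 | h2 | h2
              · exact Or.inr (Or.inl h2)
              · exact Or.inr (Or.inr h2)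
              · rcases hQm v h2 with h3 | h3
                · exact Or.inl h3
                · exact absurd h3 hvE
          have h2 := Finset.card_le_card h1
          have h3 := Finset.card_union_le ((fl L ++ (F ++ W)).toFinset \ X) E.toFinset
          have h4 := List.toFinset_card_le E
          omega
        · simp only [List.length_append] at hlen ⊢
          omega
        · refine le_trans (Nat.mul_le_mul_left _ ?_) hFl
          omega
      refine block ht hX hC hLX hK hlen hcb (by rw [hL]) ?_ ?_
      · intro L₁ p L₂ hLe J hJ hJA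
        by_contra hJ0
        have e1 : fl L ++ (F ++ W) = fl L₁ ++ p.1 :: p.2 :: (fl L₂ ++ (F ++ W)) := by
          rw [hLe, fl_append, fl_cons]; simp
        have hC' := hC
        rw [e1] at hC'
        have h1 := hC'.detour hJ (by rw [← e1]; exact fun v hv => (hJA v hv).2)
        have e2 : fl L₁ ++ p.1 :: (J ++ p.2 :: (fl L₂ ++ (F ++ W))) =
            (fl L₁ ++ p.1 :: (J ++ p.2 :: fl L₂)) ++ (F ++ W) := by simp
        rw [e2] at h1
        refine big _ J.length J (List.length_pos_iff.2 hJ0) h1 ?_ rfl ?_
        · intro v hv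
          rw [hLe, fl_append, fl_cons]
          simp only [List.mem_append, List.mem_cons] at hv ⊢
          tauto
        · rw [hLe, fl_append, fl_cons]
          simp only [List.length_append, List.length_cons]
          omega
      · intro L₁ p L₂ q L₃ hLe J J' hJ hJA hJ' hJA' hJJ
        by_contra hcon
        have e1 : fl L ++ (F ++ W) = fl L₁ ++ p.1 :: p.2 :: (fl L₂ ++ q.1 :: q.2 ::
            (fl L₃ ++ (F ++ W))) := by
          rw [hLe, fl_append, fl_cons, fl_append, fl_cons]; simp
        have hC' := hC
        rw [e1] at hC'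
        have h1 := hC'.double hJ hJ' (by rw [← e1]; exact fun v hv => (hJA v hv).2)
          (by rw [← e1]; exact fun v hv => (hJA' v hv).2) hJJ
        have e2 : fl L₁ ++ p.1 :: (J ++ q.1 :: ((fl L₂).reverse ++ p.2 :: (J' ++ q.2 ::
            (fl L₃ ++ (F ++ W))))) = (fl L₁ ++ p.1 :: (J ++ q.1 :: ((fl L₂).reverse ++
              p.2 :: (J' ++ q.2 :: fl L₃)))) ++ (F ++ W) := by simp
        rw [e2] at h1
        refine big _ (J ++ J').length (J ++ J') ?_ h1 ?_ rfl ?_
        · rw [List.length_append]
          rcases Nat.eq_zero_or_pos J.length with h2 | h2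
          · rcases Nat.eq_zero_or_pos J'.length with h3 | h3
            · exact absurd ⟨List.length_eq_zero_iff.1 h2, List.length_eq_zero_iff.1 h3⟩ hcon
            · omega
          · omega
        · intro v hv
          rw [hLe, fl_append, fl_cons, fl_append, fl_cons]
          simp only [List.mem_append, List.mem_cons, List.mem_reverse] at hv ⊢
          tauto
        · rw [hLe, fl_append, fl_cons, fl_append, fl_cons]
          simp only [List.length_append, List.length_cons, List.length_reverse]
          omega

/-- The piece of a path from one of its vertices towards another one. -/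
theorem piece_to {G : SimpleGraph V} {P : List V} (hP : IsP G P) {x v : V} (hx : x ∈ P)
    (hv : v ∈ P) (hvx : v ≠ x) :
    ∃ J : List V, IsP G (x :: J) ∧ v ∈ J ∧ ∀ w ∈ J, w ∈ P ∧ w ≠ x := by
  obtain ⟨A, B, rfl⟩ := List.append_of_mem hx
  have hnd := List.nodup_append'.1 hP.2
  rcases List.mem_append.1 hv with h | h
  · refine ⟨A.reverse, ?_, List.mem_reverse.2 h, ?_⟩
    · have e1 : A ++ x :: B = [] ++ ((A ++ [x]) ++ B) := by simp
      rw [e1] at hP
      have h1 := hP.inner.reverse
      simpa using h1
    · intro w hw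
      have hw' := List.mem_reverse.1 hw
      refine ⟨List.mem_append_left _ hw', ?_⟩
      intro h1
      rw [h1] at hw'
      exact hnd.2.2 hw' List.mem_cons_self
  · rcases List.mem_cons.1 h with h | h
    · exact absurd h hvx
    · refine ⟨B, ?_, h, ?_⟩
      · have e1 : A ++ x :: B = A ++ ((x :: B) ++ []) := by simp
        rw [e1] at hP
        exact hP.inner
      · intro w hw
        refine ⟨List.mem_append_right _ (List.mem_cons_of_mem _ hw), ?_⟩
        intro h1
        rw [h1] at hw
        exact (List.nodup_cons.1 hnd.2.1).1 hw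

/-- The exact theorem for lists. -/
theorem exact_list {G : SimpleGraph V} {a b : ℕ} (hab : 2 * (b - 1) * 8 ^ b ≤ a + 1)
    (ht : ∀ l, IsP G l → l.length ≤ a + b) {X : Finset V} (hX : MinHit G b X)
    (R : List V) (hR : IsP G R) (hRX : ∀ v ∈ R, v ∈ X) : R.length ≤ a := by
  classical
  by_contra hcon
  -- a path with `a + 1` vertices
  have hR' : IsP G (R.take (a + 1)) := by
    refine ⟨?_, hR.2.sublist (List.take_sublist _ _)⟩
    have h1 := hR.1
    rw [← List.take_append_drop (a + 1) R] at h1
    exact h1.left_of_append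
  have hl' : (R.take (a + 1)).length = a + 1 := by
    rw [List.length_take]
    omega
  have hX' : ∀ v ∈ R.take (a + 1), v ∈ X := fun v hv => hRX v (List.mem_of_mem_take hv)
  generalize R.take (a + 1) = Q at hR' hl' hX'
  have ex1 : ∀ x ∈ X, ∃ P, Long G b P ∧ (∀ v ∈ P, v ∈ X → v = x) ∧ x ∈ P := by
    intro x hx
    obtain ⟨P, hP, hPx, _⟩ := hX.exch (I := {x}) (Y := ∅) (by simpa using hx) (by simp)
    obtain ⟨v, hv, hvX⟩ := hX.1 P hP
    have h1 : ∀ v ∈ P, v ∈ X → v = x := fun v hv hvX => by simpa using hPx v hv hvX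
    exact ⟨P, hP, h1, h1 v hv hvX ▸ hv⟩
  -- the two ends
  obtain ⟨x, Q₁, rfl⟩ : ∃ x Q₁, Q = x :: Q₁ := by
    cases Q with
    | nil => simp at hl'
    | cons x Q₁ => exact ⟨x, Q₁, rfl⟩
  obtain ⟨P, hP, hPX, hxP⟩ := ex1 x (hX' x List.mem_cons_self)
  rcases List.eq_nil_or_concat Q₁ with h0 | ⟨M, z, h0⟩
  · -- `a = 0`
    rw [h0] at hl'
    have h1 := ht P hP.1
    have h2 := hP.2
    simp only [List.length_cons, List.length_nil] at hl'
    omega
  rw [List.concat_eq_append] at h0
  subst h0
  have hz : z ∈ X := hX' z (by simp)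
  obtain ⟨P', hP', hPX', hzP'⟩ := ex1 z hz
  have hxz : x ≠ z := by
    intro h
    have h1 := (List.nodup_cons.1 hR'.2).1
    rw [h] at h1
    exact h1 (by simp)
  have hmeet : ∃ v ∈ P, v ∈ P' := by
    by_contra h
    push Not at h
    have e1 : x :: (M ++ [z]) = [] ++ ([x] ++ (M ++ ([z] ++ []))) := by simp
    rw [e1] at hR' hX'
    obtain ⟨l, h1, h2⟩ := cross hX.1 hR' hX' hP hP'
      (fun v hv hvX => List.mem_singleton.2 (hPX v hv hvX))
      (fun v hv hvX => List.mem_singleton.2 (hPX' v hv hvX)) h
    have h3 := ht l h1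
    simp only [List.length_cons, List.length_append, List.length_nil] at hl'
    omega
  obtain ⟨v, hv, hv'⟩ := hmeet
  have hvx : v ≠ x := by
    intro h
    rw [h] at hv'
    exact hxz (hPX' x hv' (hX' x List.mem_cons_self))
  have hvz : v ≠ z := by
    intro h
    rw [h] at hv
    exact hxz (hPX z hv hz).symm
  obtain ⟨J₁, hJ₁, hvJ₁, hJ₁m⟩ := piece_to hP.1 hxP hv hvx
  obtain ⟨J₂, hJ₂, hvJ₂, hJ₂m⟩ := piece_to hP'.1 hzP' hv' hvz
  obtain ⟨J, hJ0, hJ, hJm⟩ := join_pieces hxz hJ₁ hJ₂
    (fun h => hxz (hPX' x (hJ₂m x h).1 (hX' x List.mem_cons_self)))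
    (fun h => hxz (hPX z (hJ₁m z h).1 hz).symm) ⟨v, hvJ₁, hvJ₂⟩
  have hJX : ∀ w ∈ J, w ∉ X := by
    intro w hw hwX
    rcases hJm w hw with h | h
    · exact (hJ₁m w h).2 (hPX w (hJ₁m w h).1 hwX)
    · exact (hJ₂m w h).2 (hPX' w (hJ₂m w h).1 hwX)
  -- the cycle
  have hJr : IsP G (z :: (J.reverse ++ [x])) := by simpa using hJ.reverse
  have hC : IsC G ((x :: (M ++ [z])) ++ J.reverse) := by
    refine ⟨⟨?_, ?_⟩, ?_⟩
    · have e1 : (x :: (M ++ [z])) ++ J.reverse = (x :: M) ++ z :: J.reverse := by simp
      rw [e1, List.isChain_split]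
      refine ⟨by simpa using hR'.1, ?_⟩
      have h1 := hJr.1
      rw [← List.cons_append] at h1
      exact h1.left_of_append
    · rw [List.nodup_append']
      refine ⟨hR'.2, List.nodup_reverse.2 (List.nodup_append'.1 (List.nodup_cons.1 hJ.2).2).1, ?_⟩
      intro w hw hw'
      exact hJX w (List.mem_reverse.1 hw') (hX' w hw)
    · intro u hu w hw
      have hJr0 : J.reverse ≠ [] := by simpa using hJ0
      rw [List.getLast?_append_of_ne_nil _ hJr0] at hu
      have hw' : w = x := by simpa using hw.symm
      rw [hw']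
      have h1 := hJr.1
      rw [← List.cons_append, List.isChain_append] at h1
      refine h1.2.2 u ?_ x (by simp)
      have e2 : z :: J.reverse = [z] ++ J.reverse := rfl
      rw [e2, List.getLast?_append_of_ne_nil _ hJr0]
      exact hu
  refine exact_claim ht hX (b - J.length) J.length J.reverse (x :: (M ++ [z])) le_rfl hC hX' ?_
    ?_ ?_
  · have h1 : ((x :: (M ++ [z])) ++ J.reverse).toFinset \ X ⊆ J.toFinset := by
      intro w hw
      rw [Finset.mem_sdiff, List.mem_toFinset, List.mem_append] at hw
      rcases hw.1 with h | h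
      · exact absurd (hX' w h) hw.2
      · exact List.mem_toFinset.2 (List.mem_reverse.1 h)
    exact le_trans (Finset.card_le_card h1) (List.toFinset_card_le J)
  · rw [List.length_append, List.length_reverse, hl']
  · rw [hl']
    have h1 : 0 < J.length := List.length_pos_iff.2 hJ0
    have h2 : b - J.length ≤ b - 1 := by omega
    calc 2 * 2 ^ (3 * b) * (b - J.length) ≤ 2 * 2 ^ (3 * b) * (b - 1) :=
          Nat.mul_le_mul_left _ h2
      _ = 2 * (b - 1) * 8 ^ b := by rw [pow_mul]; norm_num; ring
      _ ≤ a + 1 := hab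

end Pool.Agent.Helper41.PP
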