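import Pool.Agent.Helper41.PP.Sets
import Pool.Agent.Helper41.PP.Exact

/-!
# The longest cycle which contains many vertices of a minimum hitting set
-/

namespace Pool.Agent.Helper41.PP

variable {V : Type}

/-- A cycle through a long path of a minimum hitting set. -/
theorem exists_cycle [DecidableEq V] {G : SimpleGraph V} {a b : ℕ}
    (ht : ∀ l, IsP G l → l.length ≤ a + b) {X : Finset V} (hX : MinHit G b X)
    (R : List V) (hR : IsP G R) (hRX : ∀ v ∈ R, v ∈ X) (hRl : a + 1 ≤ R.length) :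
    ∃ C : List V, IsC G C ∧ a + 1 ≤ (C.toFinset ∩ X).card := by
  -- a path with `a + 1` vertices
  have hR' : IsP G (R.take (a + 1)) := by
    refine ⟨?_, hR.2.sublist (List.take_sublist _ _)⟩
    have h1 := hR.1
    rw [← List.take_append_drop (a + 1) R] at h1
    exact h1.left_of_append
  have hl' : (R.take (a + 1)).length = a + 1 := by
    rw [List.length_take]
    omega
  have hX' : ∀ v ∈ R.take (a + 1), v ∈ X := fun v hv => hRX v (List.mem_of_mem_take hv)
  generalize R.take (a + 1) = Q at hR' hl' hX'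
  have ex1 : ∀ x ∈ X, ∃ P, Long G b P ∧ (∀ v ∈ P, v ∈ X → v = x) ∧ x ∈ P := by
    intro x hx
    obtain ⟨P, hP, hPx, _⟩ := hX.exch (I := {x}) (Y := ∅) (by simpa using hx) (by simp)
    obtain ⟨v, hv, hvX⟩ := hX.1 P hP
    have h1 : ∀ v ∈ P, v ∈ X → v = x := fun v hv hvX => by simpa using hPx v hv hvX
    exact ⟨P, hP, h1, h1 v hv hvX ▸ hv⟩
  -- the two ends
  obtain ⟨x, Q₁, rfl⟩ : ∃ x Q₁, Q = x :: Q₁ := by
    cases Q with
    | nil => simp at hl'
    | cons x Q₁ => exact ⟨x, Q₁, rfl⟩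
  obtain ⟨P, hP, hPX, hxP⟩ := ex1 x (hX' x List.mem_cons_self)
  rcases List.eq_nil_or_concat Q₁ with h0 | ⟨M, z, h0⟩
  · -- `a = 0`
    rw [h0] at hl'
    have h1 := ht P hP.1
    have h2 := hP.2
    simp only [List.length_cons, List.length_nil] at hl'
    omega
  rw [List.concat_eq_append] at h0
  subst h0
  have hz : z ∈ X := hX' z (by simp)
  obtain ⟨P', hP', hPX', hzP'⟩ := ex1 z hz
  have hxz : x ≠ z := by
    intro h
    have h1 := (List.nodup_cons.1 hR'.2).1
    rw [h] at h1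
    exact h1 (by simp)
  have hmeet : ∃ v ∈ P, v ∈ P' := by
    by_contra h
    push Not at h
    have e1 : x :: (M ++ [z]) = [] ++ ([x] ++ (M ++ ([z] ++ []))) := by simp
    rw [e1] at hR' hX'
    obtain ⟨l, h1, h2⟩ := cross hX.1 hR' hX' hP hP'
      (fun v hv hvX => List.mem_singleton.2 (hPX v hv hvX))
      (fun v hv hvX => List.mem_singleton.2 (hPX' v hv hvX)) h
    have h3 := ht l h1
    simp only [List.length_cons, List.length_append, List.length_nil] at hl'
    omega
  obtain ⟨v, hv, hv'⟩ := hmeet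
  have hvx : v ≠ x := by
    intro h
    rw [h] at hv'
    exact hxz (hPX' x hv' (hX' x List.mem_cons_self))
  have hvz : v ≠ z := by
    intro h
    rw [h] at hv
    exact hxz (hPX z hv hz).symm
  obtain ⟨J₁, hJ₁, hvJ₁, hJ₁m⟩ := piece_to hP.1 hxP hv hvx
  obtain ⟨J₂, hJ₂, hvJ₂, hJ₂m⟩ := piece_to hP'.1 hzP' hv' hvz
  obtain ⟨J, hJ0, hJ, hJm⟩ := join_pieces hxz hJ₁ hJ₂
    (fun h => hxz (hPX' x (hJ₂m x h).1 (hX' x List.mem_cons_self)))
    (fun h => hxz (hPX z (hJ₁m z h).1 hz).symm) ⟨v, hvJ₁, hvJ₂⟩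
  have hJX : ∀ w ∈ J, w ∉ X := by
    intro w hw hwX
    rcases hJm w hw with h | h
    · exact (hJ₁m w h).2 (hPX w (hJ₁m w h).1 hwX)
    · exact (hJ₂m w h).2 (hPX' w (hJ₂m w h).1 hwX)
  -- the cycle
  have hJr : IsP G (z :: (J.reverse ++ [x])) := by simpa using hJ.reverse
  have hC : IsC G ((x :: (M ++ [z])) ++ J.reverse) := by
    refine ⟨⟨?_, ?_⟩, ?_⟩
    · have e1 : (x :: (M ++ [z])) ++ J.reverse = (x :: M) ++ z :: J.reverse := by simp
      rw [e1, List.isChain_split]
      refine ⟨by simpa using hR'.1, ?_⟩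
      have h1 := hJr.1
      rw [← List.cons_append] at h1
      exact h1.left_of_append
    · rw [List.nodup_append']
      refine ⟨hR'.2, List.nodup_reverse.2 (List.nodup_append'.1 (List.nodup_cons.1 hJ.2).2).1, ?_⟩
      intro w hw hw'
      exact hJX w (List.mem_reverse.1 hw') (hX' w hw)
    · intro u hu w hw
      have hJr0 : J.reverse ≠ [] := by simpa using hJ0
      rw [List.getLast?_append_of_ne_nil _ hJr0] at hu
      have hw' : w = x := by simpa using hw.symm
      rw [hw']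
      have h1 := hJr.1
      rw [← List.cons_append, List.isChain_append] at h1
      refine h1.2.2 u ?_ x (by simp)
      have e2 : z :: J.reverse = [z] ++ J.reverse := rfl
      rw [e2, List.getLast?_append_of_ne_nil _ hJr0]
      exact hu
  refine ⟨_, hC, ?_⟩
  rw [← hl', ← List.toFinset_card_of_nodup hR'.2]
  refine Finset.card_le_card ?_
  intro w hw
  rw [List.mem_toFinset] at hw
  rw [Finset.mem_inter, List.mem_toFinset]
  exact ⟨List.mem_append_left _ hw, hX' w hw⟩

/-- The longest cycle with many vertices in a minimum hitting set. -/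
theorem exists_big [DecidableEq V] {G : SimpleGraph V} {a b : ℕ}
    (ht : ∀ l, IsP G l → l.length ≤ a + b) {X : Finset V} (hX : MinHit G b X)
    (R : List V) (hR : IsP G R) (hRX : ∀ v ∈ R, v ∈ X) (hRl : a + 1 ≤ R.length) :
    ∃ (f : ℕ → V) (N : ℕ) (D : V → Prop) (β c : ℕ), Big G f N D β ∧ Exc G f N D β c ∧
      a + 1 + c ≤ N ∧ N + β = a + b := by
  -- a longest cycle
  have hex : ∃ C : List V, (IsC G C ∧ a + 1 ≤ (C.toFinset ∩ X).card) ∧
      ∀ C', IsC G C' → a + 1 ≤ (C'.toFinset ∩ X).card → C'.length ≤ C.length := by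
    by_contra hcon
    push Not at hcon
    obtain ⟨C₀, hC₀, hC₀X⟩ := exists_cycle ht hX R hR hRX hRl
    have h1 : ∀ n : ℕ, ∃ C, IsC G C ∧ a + 1 ≤ (C.toFinset ∩ X).card ∧ n ≤ C.length := by
      intro n
      induction n with
      | zero => exact ⟨C₀, hC₀, hC₀X, Nat.zero_le _⟩
      | succ n ih =>
          obtain ⟨C, hC, hCX, hn⟩ := ih
          obtain ⟨C', hC', hCX', hl⟩ := hcon C ⟨hC, hCX⟩
          exact ⟨C', hC', hCX', by omega⟩
    obtain ⟨C, hC, _, hn⟩ := h1 (a + b + 1)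
    have h2 := ht C hC.1
    omega
  obtain ⟨C, ⟨hC, hCX⟩, hmax⟩ := hex
  have hC0 : C ≠ [] := by
    intro h0
    rw [h0] at hCX
    simp at hCX
  obtain ⟨f, hf, hfC⟩ := exists_per hC hC0
  have hfm : ∀ i, f i ∈ C := by
    intro i
    rw [hfC, ← hf.mod i]
    exact ⟨i % C.length, Nat.mod_lt _ (List.length_pos_iff.2 hC0), rfl⟩
  have hN := ht C hC.1
  have hcard : (C.toFinset ∩ X).card + (C.toFinset \ X).card = C.length := by
    rw [Finset.card_inter_add_card_sdiff, List.toFinset_card_of_nodup hC.1.2]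
  refine ⟨f, C.length, fun v => v ∉ X ∧ v ∉ C, a + b - C.length, (C.toFinset \ X).card,
    ⟨hf, ?_, ?_, ?_⟩, ?_, by omega, by omega⟩
  · intro i h1
    exact h1.2 (hfm i)
  · intro C' hC' hfC'
    refine hmax C' hC' (le_trans hCX (Finset.card_le_card ?_))
    intro v hv
    rw [Finset.mem_inter, List.mem_toFinset] at hv ⊢
    refine ⟨?_, hv.2⟩
    obtain ⟨i, _, rfl⟩ := (hfC v).1 hv.1
    exact hfC' i
  · intro l hl
    have := ht l hl
    omega
  · intro I hI hIc
    set Z : Finset V := I.image f with hZ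
    have hZc : Z.card = I.card := by
      refine Finset.card_image_of_injOn ?_
      intro i hi j hj hij
      exact hf.inj i j (hI i hi) (hI j hj) hij
    have hZC : Z ⊆ C.toFinset := by
      intro v hv
      obtain ⟨i, _, rfl⟩ := Finset.mem_image.1 hv
      exact List.mem_toFinset.2 (hfm i)
    have h1 : (Z \ X) ⊆ C.toFinset \ X := Finset.sdiff_subset_sdiff hZC (Finset.Subset.refl _)
    have h2 := Finset.card_sdiff_add_card_eq_card h1
    have h3 : (C.toFinset \ X) \ Z ⊆ (C.toFinset \ X) \ (Z \ X) := by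
      intro v hv
      rw [Finset.mem_sdiff] at hv ⊢
      exact ⟨hv.1, fun h4 => hv.2 (Finset.mem_sdiff.1 h4).1⟩
    have h4 := Finset.card_le_card h3
    have h5 := Finset.card_inter_add_card_sdiff Z X
    obtain ⟨P, hP, hPX, hPY⟩ := hX.exch (I := Z ∩ X) (Y := (C.toFinset \ X) \ Z)
      Finset.inter_subset_right (by omega)
    have hmemZ : ∀ v ∈ Z, ∃ i ∈ I, f i = v := fun v hv => Finset.mem_image.1 hv
    refine ⟨P, hP.1, ?_, ?_, ?_⟩
    · have := hP.2
      omega
    · intro v hv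
      by_cases hvX : v ∈ X
      · exact Or.inl (hmemZ v (Finset.mem_inter.1 (hPX v hv hvX)).1)
      · by_cases hvC : v ∈ C
        · left
          refine hmemZ v ?_
          by_contra hvZ
          exact hPY v hv (Finset.mem_sdiff.2 ⟨Finset.mem_sdiff.2
            ⟨List.mem_toFinset.2 hvC, hvX⟩, hvZ⟩)
        · exact Or.inr ⟨hvX, hvC⟩
    · obtain ⟨v, hv, hvX⟩ := hX.1 P hP
      exact ⟨v, hv, hmemZ v (Finset.mem_inter.1 (hPX v hv hvX)).1⟩

end Pool.Agent.Helper41.PP
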