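import Mathlib

/-!
# Asymptotic path partition theorem: paths as lists, the exchange lemma, the crossing lemma
-/

namespace Pool.Agent.Helper41.PP

variable {V : Type}

/-- A path, as the list of its vertices. -/
def IsP (G : SimpleGraph V) (l : List V) : Prop := l.IsChain G.Adj ∧ l.Nodup

theorem isChain_reverse' (G : SimpleGraph V) {l : List V} (h : l.IsChain G.Adj) :
    l.reverse.IsChain G.Adj := by
  rw [List.isChain_reverse]
  exact h.imp fun a b hab => hab.symm

theorem IsP.reverse {G : SimpleGraph V} {l : List V} (h : IsP G l) : IsP G l.reverse :=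
  ⟨isChain_reverse' G h.1, List.nodup_reverse.2 h.2⟩

/-- The longer half of a path up to one of its vertices. -/
theorem IsP.half {G : SimpleGraph V} {l : List V} (h : IsP G l) {x : V} (hx : x ∈ l) :
    ∃ t : List V, IsP G (x :: t) ∧ (∀ v ∈ x :: t, v ∈ l) ∧
      l.length + 1 ≤ 2 * (x :: t).length := by
  obtain ⟨s, t, rfl⟩ := List.append_of_mem hx
  by_cases hst : s.length ≤ t.length
  · refine ⟨t, ⟨(List.isChain_split.1 h.1).2, ?_⟩, ?_, ?_⟩
    · exact (List.nodup_append.1 h.2).2.1
    · intro v hv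
      exact List.mem_append_right _ hv
    · simp only [List.length_append, List.length_cons]
      omega
  · have h1 : IsP G (s ++ [x]) := by
      refine ⟨(List.isChain_split.1 h.1).1, ?_⟩
      have h2 : s ++ x :: t = (s ++ [x]) ++ t := by simp
      rw [h2] at h
      exact (List.nodup_append.1 h.2).1
    have h3 := h1.reverse
    rw [List.reverse_append, List.reverse_singleton, List.singleton_append] at h3
    refine ⟨s.reverse, h3, ?_, ?_⟩
    · intro v hv
      rcases List.mem_cons.1 hv with h4 | h4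
      · rw [h4]
        exact List.mem_append_right _ (List.mem_cons_self)
      · exact List.mem_append_left _ (List.mem_reverse.1 h4)
    · simp only [List.length_append, List.length_cons, List.length_reverse]
      omega

/-- A long path. -/
def Long (G : SimpleGraph V) (b : ℕ) (l : List V) : Prop := IsP G l ∧ b < l.length

/-- `X` meets every long path. -/
def Hit (G : SimpleGraph V) (b : ℕ) (X : Finset V) : Prop := ∀ l, Long G b l → ∃ v ∈ l, v ∈ X

/-- `X` has the minimum number of elements among the sets which meet every long path. -/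
def MinHit (G : SimpleGraph V) (b : ℕ) (X : Finset V) : Prop :=
  Hit G b X ∧ ∀ Y : Finset V, Hit G b Y → X.card ≤ Y.card

theorem exists_minHit [Fintype V] (G : SimpleGraph V) (b : ℕ) :
    ∃ X : Finset V, MinHit G b X := by
  classical
  have h : ∃ n : ℕ, ∃ X : Finset V, Hit G b X ∧ X.card = n := by
    refine ⟨_, Finset.univ, ?_, rfl⟩
    intro l hl
    have : l ≠ [] := by
      intro h0
      have := hl.2
      rw [h0] at this
      exact absurd this (Nat.not_lt_zero _)
    obtain ⟨v, hv⟩ := List.exists_mem_of_ne_nil l this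
    exact ⟨v, hv, Finset.mem_univ v⟩
  obtain ⟨X, hX, hc⟩ := Nat.find_spec h
  refine ⟨X, hX, fun Y hY => ?_⟩
  rw [hc]
  exact Nat.find_min' h ⟨Y, hY, rfl⟩

/-- The exchange property. -/
theorem MinHit.exch {G : SimpleGraph V} {b : ℕ} {X : Finset V} (hX : MinHit G b X)
    {I Y : Finset V} (hI : I ⊆ X) (hY : Y.card < I.card) :
    ∃ l, Long G b l ∧ (∀ v ∈ l, v ∈ X → v ∈ I) ∧ (∀ v ∈ l, v ∉ Y) := by
  classical
  by_contra hcon
  push Not at hcon
  have h1 : Hit G b ((X \ I) ∪ Y) := by
    intro l hl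
    by_contra h2
    push Not at h2
    obtain ⟨v, hv, hvY⟩ := hcon l hl (fun v hv hvX => by
      by_contra hvI
      exact h2 v hv (Finset.mem_union_left _ (Finset.mem_sdiff.2 ⟨hvX, hvI⟩)))
    exact h2 v hv (Finset.mem_union_right _ hvY)
  have h3 := hX.2 _ h1
  have h4 := Finset.card_union_le (X \ I) Y
  have h5 := Finset.card_sdiff_add_card_eq_card hI
  omega

/-- First element of a list with a property. -/
theorem exists_first {p : V → Prop} {l : List V} (h : ∃ v ∈ l, p v) :
    ∃ l₁ x l₂, l = l₁ ++ x :: l₂ ∧ p x ∧ ∀ v ∈ l₁, ¬ p v := by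
  classical
  induction l with
  | nil =>
      obtain ⟨v, hv, _⟩ := h
      exact absurd hv (List.not_mem_nil)
  | cons a l ih =>
      by_cases ha : p a
      · exact ⟨[], a, l, rfl, ha, fun v hv => absurd hv (List.not_mem_nil)⟩
      · obtain ⟨v, hv, hpv⟩ := h
        rcases List.mem_cons.1 hv with h1 | h1
        · rw [h1] at hpv
          exact absurd hpv ha
        · obtain ⟨l₁, x, l₂, h2, h3, h4⟩ := ih ⟨v, h1, hpv⟩
          refine ⟨a :: l₁, x, l₂, by rw [h2]; rfl, h3, ?_⟩
          intro w hw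
          rcases List.mem_cons.1 hw with h5 | h5
          · rw [h5]; exact ha
          · exact h4 w h5

/-- Last element of a list with a property. -/
theorem exists_last {p : V → Prop} {l : List V} (h : ∃ v ∈ l, p v) :
    ∃ l₁ x l₂, l = l₁ ++ x :: l₂ ∧ p x ∧ ∀ v ∈ l₂, ¬ p v := by
  obtain ⟨v, hv, hpv⟩ := h
  obtain ⟨l₁, x, l₂, h1, h2, h3⟩ := exists_first (p := p) (l := l.reverse)
    ⟨v, List.mem_reverse.2 hv, hpv⟩
  refine ⟨l₂.reverse, x, l₁.reverse, ?_, h2, fun w hw => h3 w (List.mem_reverse.1 hw)⟩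
  have h4 := congrArg List.reverse h1
  rw [List.reverse_reverse] at h4
  rw [h4]
  simp

/-- The crossing lemma. -/
theorem cross {G : SimpleGraph V} {b : ℕ} {X : Finset V} (hX : Hit G b X)
    {pre I M J post : List V} (hR : IsP G (pre ++ (I ++ (M ++ (J ++ post)))))
    (hRX : ∀ v ∈ pre ++ (I ++ (M ++ (J ++ post))), v ∈ X)
    {P Q : List V} (hP : Long G b P) (hQ : Long G b Q)
    (hPI : ∀ v ∈ P, v ∈ X → v ∈ I) (hQJ : ∀ v ∈ Q, v ∈ X → v ∈ J)
    (hPQ : ∀ v ∈ P, v ∉ Q) : ∃ l, IsP G l ∧ b + 2 + M.length ≤ l.length := by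
  obtain ⟨v, hv, hvX⟩ := hX P hP
  obtain ⟨I₁, x, I₂, hI, hx, hI₂⟩ := exists_last (p := fun v => v ∈ P) (l := I)
    ⟨v, hPI v hv hvX, hv⟩
  obtain ⟨w, hw, hwX⟩ := hX Q hQ
  obtain ⟨J₁, y, J₂, hJ, hy, hJ₁⟩ := exists_first (p := fun v => v ∈ Q) (l := J)
    ⟨w, hQJ w hw hwX, hw⟩
  obtain ⟨p, hp1, hp2, hp3⟩ := hP.1.half hx
  obtain ⟨q, hq1, hq2, hq3⟩ := hQ.1.half hy
  subst hI
  subst hJ
  -- the middle part of R
  have hRm : IsP G (x :: (I₂ ++ (M ++ (J₁ ++ [y])))) := by
    have h1 : pre ++ ((I₁ ++ x :: I₂) ++ (M ++ ((J₁ ++ y :: J₂) ++ post))) =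
        (pre ++ I₁) ++ ((x :: (I₂ ++ (M ++ (J₁ ++ [y])))) ++ (J₂ ++ post)) := by simp
    rw [h1] at hR
    refine ⟨?_, ?_⟩
    · have h2 := hR.1.right_of_append
      exact h2.left_of_append
    · have h2 := (List.nodup_append.1 hR.2).2.1
      exact (List.nodup_append.1 h2).1
  have hmemX : ∀ v ∈ I₂ ++ (M ++ J₁), v ∈ X := by
    intro v hv
    apply hRX
    simp only [List.mem_append, List.mem_cons] at hv ⊢
    tauto
  have hnd := hR.2
  -- elements of the middle part are not in P or Q
  have hmP : ∀ v ∈ I₂ ++ (M ++ J₁), v ∉ P := by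
    intro v hv hvP
    have h1 := hPI v hvP (hmemX v hv)
    simp only [List.mem_append, List.mem_cons] at hv h1
    rcases hv with hv | hv | hv
    · exact hI₂ v hv hvP
    · have h2 : List.Disjoint (I₁ ++ x :: I₂) (M ++ ((J₁ ++ y :: J₂) ++ post)) := by
        have h3 := (List.nodup_append'.1 hnd).2.1
        exact (List.nodup_append'.1 h3).2.2
      refine h2 (a := v) ?_ ?_
      · simp only [List.mem_append, List.mem_cons]; tauto
      · simp only [List.mem_append, List.mem_cons]; tauto
    · have h2 : List.Disjoint (I₁ ++ x :: I₂) (M ++ ((J₁ ++ y :: J₂) ++ post)) := by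
        have h3 := (List.nodup_append'.1 hnd).2.1
        exact (List.nodup_append'.1 h3).2.2
      refine h2 (a := v) ?_ ?_
      · simp only [List.mem_append, List.mem_cons]; tauto
      · simp only [List.mem_append, List.mem_cons]; tauto
  have hmQ : ∀ v ∈ I₂ ++ (M ++ J₁), v ∉ Q := by
    intro v hv hvQ
    have h1 := hQJ v hvQ (hmemX v hv)
    have h5 : List.Disjoint (I₁ ++ x :: I₂) (M ++ ((J₁ ++ y :: J₂) ++ post)) := by
      have h3 := (List.nodup_append'.1 hnd).2.1
      exact (List.nodup_append'.1 h3).2.2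
    have h6 : List.Disjoint M ((J₁ ++ y :: J₂) ++ post) := by
      have h3 := (List.nodup_append'.1 hnd).2.1
      have h4 := (List.nodup_append'.1 h3).2.1
      exact (List.nodup_append'.1 h4).2.2
    simp only [List.mem_append, List.mem_cons] at hv h1
    rcases hv with hv | hv | hv
    · refine h5 (a := v) ?_ ?_
      · simp only [List.mem_append, List.mem_cons]; tauto
      · simp only [List.mem_append, List.mem_cons]; tauto
    · refine h6 (a := v) hv ?_
      simp only [List.mem_append, List.mem_cons]; tauto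
    · exact hJ₁ v hv hvQ
  refine ⟨p.reverse ++ ((x :: (I₂ ++ (M ++ (J₁ ++ [y])))) ++ q), ⟨?_, ?_⟩, ?_⟩
  · -- chain
    have h1 := isChain_reverse' G hp1.1
    rw [List.reverse_cons] at h1
    have h2 : p.reverse ++ ((x :: (I₂ ++ (M ++ (J₁ ++ [y])))) ++ q) =
        p.reverse ++ x :: ((I₂ ++ (M ++ (J₁ ++ [y]))) ++ q) := by simp
    rw [h2, List.isChain_split]
    refine ⟨h1, ?_⟩
    have h3 : x :: ((I₂ ++ (M ++ (J₁ ++ [y]))) ++ q) =
        (x :: (I₂ ++ (M ++ J₁))) ++ y :: q := by simp
    rw [h3, List.isChain_split]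
    refine ⟨?_, hq1.1⟩
    have h4 : (x :: (I₂ ++ (M ++ J₁))) ++ [y] = x :: (I₂ ++ (M ++ (J₁ ++ [y]))) := by simp
    rw [h4]
    exact hRm.1
  · -- nodup
    have hp4 : ∀ v ∈ p, v ∈ P := fun v hv => hp2 v (List.mem_cons_of_mem _ hv)
    have hq4 : ∀ v ∈ q, v ∈ Q := fun v hv => hq2 v (List.mem_cons_of_mem _ hv)
    have hxp : x ∉ p := (List.nodup_cons.1 hp1.2).1
    have hyq : y ∉ q := (List.nodup_cons.1 hq1.2).1
    rw [List.nodup_append']
    refine ⟨List.nodup_reverse.2 (List.nodup_cons.1 hp1.2).2, ?_, ?_⟩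
    · rw [List.nodup_append']
      refine ⟨hRm.2, (List.nodup_cons.1 hq1.2).2, ?_⟩
      intro v hv hvq
      simp only [List.mem_append, List.mem_cons, List.not_mem_nil, or_false] at hv
      rcases hv with hv | hv | hv | hv | hv
      · rw [hv] at hvq
        exact hPQ x hx (hq4 x hvq)
      · exact hmQ v (by simp only [List.mem_append]; tauto) (hq4 v hvq)
      · exact hmQ v (by simp only [List.mem_append]; tauto) (hq4 v hvq)
      · exact hmQ v (by simp only [List.mem_append]; tauto) (hq4 v hvq)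
      · rw [hv] at hvq
        exact hyq hvq
    · intro v hv hv2
      have hvp := List.mem_reverse.1 hv
      simp only [List.mem_append, List.mem_cons, List.not_mem_nil, or_false] at hv2
      rcases hv2 with (hv | hv | hv | hv | hv) | hv
      · rw [hv] at hvp
        exact hxp hvp
      · exact hmP v (by simp only [List.mem_append]; tauto) (hp4 v hvp)
      · exact hmP v (by simp only [List.mem_append]; tauto) (hp4 v hvp)
      · exact hmP v (by simp only [List.mem_append]; tauto) (hp4 v hvp)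
      · rw [hv] at hvp
        exact hPQ y (hp4 y hvp) hy
      · exact hPQ v (hp4 v hvp) (hq4 v hv)
  · have h5 := hP.2
    have h6 := hQ.2
    simp only [List.length_append, List.length_cons, List.length_reverse,
      List.length_nil] at hp3 hq3 ⊢
    omega

end Pool.Agent.Helper41.PP
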