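import Pool.Agent.Helper41.PP.Cyc

/-!
# The block lemma for the exact path partition theorem
-/

namespace Pool.Agent.Helper41.PP

variable {V : Type}

/-- Decomposition of a path by a set. -/
theorem pieces {P : List V} {S : Finset V} (h : ∃ v ∈ P, v ∈ S) :
    (∃ (A₀ : List V) (x : V) (A₁ : List V), P = A₀ ++ x :: A₁ ∧ x ∈ S ∧ (∀ v ∈ A₀, v ∉ S) ∧
      ∀ v ∈ A₁, v ∉ S) ∨
    (∃ (A₀ : List V) (x : V) (M : List V) (z : V) (A₁ : List V),
      P = A₀ ++ x :: (M ++ z :: A₁) ∧ x ∈ S ∧ z ∈ S ∧ (∀ v ∈ A₀, v ∉ S) ∧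
      ∀ v ∈ A₁, v ∉ S) := by
  obtain ⟨A₀, x, Q, hP, hx, hA₀⟩ := exists_first (p := fun v => v ∈ S) h
  by_cases hQ : ∃ v ∈ Q, v ∈ S
  · right
    obtain ⟨M, z, A₁, hQ', hz, hA₁⟩ := exists_last (p := fun v => v ∈ S) hQ
    exact ⟨A₀, x, M, z, A₁, by rw [hP, hQ'], hx, hz, hA₀, hA₁⟩
  · left
    push Not at hQ
    exact ⟨A₀, x, Q, hP, hx, hA₀, hQ⟩

theorem IsP.inner {G : SimpleGraph V} {l₁ l₂ l₃ : List V} (h : IsP G (l₁ ++ (l₂ ++ l₃))) :
    IsP G l₂ :=
  ⟨h.1.right_of_append.left_of_append,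
    (List.nodup_append'.1 (List.nodup_append'.1 h.2).2.1).1⟩

/-- The first jump. -/
theorem jump0 {G : SimpleGraph V} {A₀ M A₁ : List V} {x z : V} {S : Finset V}
    (hP : IsP G (A₀ ++ x :: (M ++ z :: A₁))) (hz : z ∈ S) :
    ∃ (w : V) (J : List V), w ∈ S ∧ x ≠ w ∧ IsP G (x :: (J ++ [w])) ∧
      ∀ v ∈ J, v ∈ A₀ ++ x :: (M ++ z :: A₁) ∧ v ∉ S := by
  obtain ⟨J, w, R, hJ, hw, hJS⟩ := exists_first (p := fun v => v ∈ S) (l := M ++ z :: A₁)
    ⟨z, by simp, hz⟩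
  rw [hJ] at hP ⊢
  have e1 : A₀ ++ x :: (J ++ w :: R) = A₀ ++ ((x :: (J ++ [w])) ++ R) := by simp
  rw [e1] at hP
  have h1 := hP.inner
  refine ⟨w, J, hw, ?_, h1, ?_⟩
  · intro h2
    have h3 := (List.nodup_cons.1 h1.2).1
    rw [h2] at h3
    exact h3 (by simp)
  · intro v hv
    refine ⟨?_, hJS v hv⟩
    simp only [List.mem_append, List.mem_cons]
    tauto

/-- A jump through a vertex outside `S`. -/
theorem jump {G : SimpleGraph V} {A₀ M A₁ : List V} {x z : V} {S : Finset V}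
    (hP : IsP G (A₀ ++ x :: (M ++ z :: A₁))) (hx : x ∈ S) (hz : z ∈ S)
    (hM : ∃ v ∈ M, v ∉ S) :
    ∃ (y w : V) (J : List V), y ∈ S ∧ w ∈ S ∧ y ≠ w ∧ J ≠ [] ∧ IsP G (y :: (J ++ [w])) ∧
      ∀ v ∈ J, v ∈ A₀ ++ x :: (M ++ z :: A₁) ∧ v ∉ S := by
  obtain ⟨M₁, v, M₂, hM', hv, hM₁⟩ := exists_first (p := fun v => v ∉ S) hM
  obtain ⟨J₂, w, R, hJ, hw, hJS⟩ := exists_first (p := fun v => v ∈ S) (l := M₂ ++ z :: A₁)
    ⟨z, by simp, hz⟩
  obtain ⟨Y₁, y, Y₂, hY, hy, hYS⟩ := exists_last (p := fun v => v ∈ S) (l := x :: M₁)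
    ⟨x, List.mem_cons_self, hx⟩
  have hY₂ : Y₂ = [] := by
    rw [List.eq_nil_iff_forall_not_mem]
    intro u hu
    have h1 : u ∈ x :: M₁ := by
      rw [hY]
      simp only [List.mem_append, List.mem_cons]
      tauto
    rcases List.mem_cons.1 h1 with h2 | h2
    · exact hYS u hu (h2 ▸ hx)
    · exact hM₁ u h2 (hYS u hu)
  subst hY₂
  have e1 : A₀ ++ x :: (M ++ z :: A₁) = (A₀ ++ Y₁) ++ ((y :: ((v :: J₂) ++ [w])) ++ R) := by
    calc A₀ ++ x :: (M ++ z :: A₁) = A₀ ++ ((x :: M₁) ++ v :: (M₂ ++ z :: A₁)) := by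
          rw [hM']; simp
      _ = _ := by rw [hY, hJ]; simp
  rw [e1] at hP ⊢
  have h1 := hP.inner
  refine ⟨y, w, v :: J₂, hy, hw, ?_, by simp, h1, ?_⟩
  · intro h2
    have h3 := (List.nodup_cons.1 h1.2).1
    rw [h2] at h3
    exact h3 (by simp)
  · intro u hu
    refine ⟨?_, ?_⟩
    · simp only [List.mem_append, List.mem_cons] at hu ⊢
      tauto
    · rcases List.mem_cons.1 hu with h2 | h2
      · rw [h2]; exact hv
      · exact hJS u h2

/-- The longer piece. -/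
theorem longer_piece {G : SimpleGraph V} {A₀ A₁ : List V} {x : V} {b : ℕ}
    (hP : IsP G (A₀ ++ x :: A₁)) (hb : b + 1 ≤ (A₀ ++ x :: A₁).length) :
    ∃ A : List V, IsP G (x :: A) ∧ b ≤ 2 * A.length ∧ ∀ v ∈ A, v ∈ A₀ ∨ v ∈ A₁ := by
  simp only [List.length_append, List.length_cons] at hb
  by_cases h : A₀.length ≤ A₁.length
  · refine ⟨A₁, ⟨(List.isChain_split.1 hP.1).2, (List.nodup_append'.1 hP.2).2.1⟩, by omega, ?_⟩
    intro v hv; exact Or.inr hv
  · refine ⟨A₀.reverse, ?_, ?_, ?_⟩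
    · have e1 : A₀ ++ x :: A₁ = [] ++ ((A₀ ++ [x]) ++ A₁) := by simp
      rw [e1] at hP
      have h1 := hP.inner.reverse
      simpa using h1
    · rw [List.length_reverse]; omega
    · intro v hv; exact Or.inl (List.mem_reverse.1 hv)

/-- The list of the elements of a list of pairs. -/
def fl (L : List (V × V)) : List V := L.flatMap fun p => [p.1, p.2]

theorem fl_append (L₁ L₂ : List (V × V)) : fl (L₁ ++ L₂) = fl L₁ ++ fl L₂ := by
  simp [fl]

theorem fl_cons (p : V × V) (L : List (V × V)) : fl (p :: L) = p.1 :: p.2 :: fl L := by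
  simp [fl]

theorem fl_length (L : List (V × V)) : (fl L).length = 2 * L.length := by
  induction L with
  | nil => rfl
  | cons p L ih => rw [fl_cons, List.length_cons, List.length_cons, List.length_cons, ih]; ring

theorem exists_fl : ∀ (N : ℕ) (D : List V), D.length = 2 * N → ∃ L : List (V × V),
    L.length = N ∧ fl L = D := by
  intro N
  induction N with
  | zero =>
      intro D hD
      refine ⟨[], rfl, ?_⟩
      rw [List.length_eq_zero_iff.1 (by omega : D.length = 0)]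
      rfl
  | succ N ih =>
      intro D hD
      match D, hD with
      | [], hD => simp only [List.length_nil] at hD; omega
      | [x], hD => simp only [List.length_cons, List.length_nil] at hD; omega
      | x :: y :: D, hD =>
          obtain ⟨L, h1, h2⟩ := ih D (by simp only [List.length_cons] at hD; omega)
          refine ⟨(x, y) :: L, by rw [List.length_cons, h1], ?_⟩
          rw [fl_cons, h2]

theorem mem_fl {L : List (V × V)} {p : V × V} (hp : p ∈ L) : p.1 ∈ fl L ∧ p.2 ∈ fl L := by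
  obtain ⟨L₁, L₂, rfl⟩ := List.append_of_mem hp
  rw [fl_append, fl_cons]
  simp

/-- Two different elements of a list come in one of the two orders. -/
theorem order_two {α : Type} {L : List α} {p q : α} (hp : p ∈ L) (hq : q ∈ L) (hpq : p ≠ q) :
    (∃ L₁ L₂ L₃, L = L₁ ++ p :: (L₂ ++ q :: L₃)) ∨
      (∃ L₁ L₂ L₃, L = L₁ ++ q :: (L₂ ++ p :: L₃)) := by
  classical
  rcases lt_trichotomy (L.idxOf p) (L.idxOf q) with h | h | h
  · obtain ⟨L₁, L₂, L₃, h1, _⟩ := split_two hp hq h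
    exact Or.inl ⟨L₁, L₂, L₃, h1⟩
  · exact absurd ((List.idxOf_inj hp).1 h) hpq
  · obtain ⟨L₁, L₂, L₃, h1, _⟩ := split_two hq hp h
    exact Or.inr ⟨L₁, L₂, L₃, h1⟩

/-- The block lemma. -/
theorem block [DecidableEq V] {G : SimpleGraph V} {a b c : ℕ}
    (ht : ∀ l, IsP G l → l.length ≤ a + b) {X : Finset V} (hX : MinHit G b X)
    {L : List (V × V)} {W : List V} (hC : IsC G (fl L ++ W)) (hLX : ∀ v ∈ fl L, v ∈ X)
    (hK : ((fl L ++ W).toFinset \ X).card ≤ c) (hlen : a + 1 + c ≤ (fl L ++ W).length)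
    (hcb : c < b) (hL : 2 ^ (3 * b) ≤ L.length)
    (hN1 : ∀ L₁ p L₂, L = L₁ ++ p :: L₂ → ∀ J : List V, IsP G (p.1 :: (J ++ [p.2])) →
      (∀ v ∈ J, v ∉ X ∧ v ∉ fl L ++ W) → J = [])
    (hN2 : ∀ L₁ p L₂ q L₃, L = L₁ ++ p :: (L₂ ++ q :: L₃) → ∀ J J' : List V,
      IsP G (p.1 :: (J ++ [q.1])) → (∀ v ∈ J, v ∉ X ∧ v ∉ fl L ++ W) →
      IsP G (p.2 :: (J' ++ [q.2])) → (∀ v ∈ J', v ∉ X ∧ v ∉ fl L ++ W) →
      (∀ v ∈ J, v ∉ J') → J = [] ∧ J' = []) : False := by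
  classical
  set CC : List V := fl L ++ W with hCC
  have hfl : ∀ v ∈ fl L, v ∈ CC := fun v hv => List.mem_append_left _ hv
  have hflnd : (fl L).Nodup := (List.nodup_append'.1 hC.1.2).1
  -- distinctness
  have dist1 : ∀ p ∈ L, p.1 ≠ p.2 := by
    intro p hp
    obtain ⟨L₁, L₂, rfl⟩ := List.append_of_mem hp
    rw [fl_append, fl_cons] at hflnd
    have h1 := (List.nodup_append'.1 hflnd).2.1
    intro h2
    exact (List.nodup_cons.1 h1).1 (by rw [h2]; exact List.mem_cons_self)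
  have order : ∀ p ∈ L, ∀ q ∈ L, p ≠ q →
      (∃ L₁ L₂ L₃, L = L₁ ++ p :: (L₂ ++ q :: L₃)) ∨
      (∃ L₁ L₂ L₃, L = L₁ ++ q :: (L₂ ++ p :: L₃)) := by
    intro p hp q hq hpq
    exact order_two hp hq hpq
  have dist2' : ∀ (p q : V × V) (L₁ L₂ L₃ : List (V × V)), L = L₁ ++ p :: (L₂ ++ q :: L₃) →
      p.1 ≠ q.1 ∧ p.2 ≠ q.2 := by
    intro p q L₁ L₂ L₃ h
    rw [h, fl_append, fl_cons, fl_append, fl_cons] at hflnd
    have h1 := (List.nodup_append'.1 hflnd).2.1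
    have h2 := (List.nodup_cons.1 h1).1
    have h3 := (List.nodup_cons.1 (List.nodup_cons.1 h1).2).1
    simp only [List.mem_cons, List.mem_append, not_or] at h2 h3
    exact ⟨h2.2.2.1, h3.2.2.1⟩
  have dist2 : ∀ p ∈ L, ∀ q ∈ L, p ≠ q → p.1 ≠ q.1 ∧ p.2 ≠ q.2 := by
    intro p hp q hq hpq
    rcases order p hp q hq hpq with ⟨L₁, L₂, L₃, h⟩ | ⟨L₁, L₂, L₃, h⟩
    · exact dist2' p q L₁ L₂ L₃ h
    · have h1 := dist2' q p L₁ L₂ L₃ h
      exact ⟨h1.1.symm, h1.2.symm⟩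
  have m1 : ∀ p ∈ L, p.1 ∈ CC := fun p hp => hfl _ (mem_fl hp).1
  have m2 : ∀ p ∈ L, p.2 ∈ CC := fun p hp => hfl _ (mem_fl hp).2
  have pre : ∀ (x z : V) (J : List V), IsP G (x :: (J ++ [z])) → IsP G (x :: J) := by
    intro x z J h
    have e1 : x :: (J ++ [z]) = [] ++ ((x :: J) ++ [z]) := by simp
    rw [e1] at h
    exact h.inner
  -- pieces at the two vertices of a pair are disjoint
  have n1 : ∀ p ∈ L, ∀ J₁ J₂ : List V, IsP G (p.1 :: J₁) → (∀ v ∈ J₁, v ∉ X ∧ v ∉ CC) →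
      IsP G (p.2 :: J₂) → (∀ v ∈ J₂, v ∉ X ∧ v ∉ CC) → ∀ v ∈ J₁, v ∉ J₂ := by
    intro p hp J₁ J₂ h1 h1A h2 h2A v hv hv'
    obtain ⟨J, hJ0, hJ, hJm⟩ := join_pieces (dist1 p hp) h1 h2
      (fun h => (h2A _ h).2 (m1 p hp)) (fun h => (h1A _ h).2 (m2 p hp)) ⟨v, hv, hv'⟩
    obtain ⟨L₁, L₂, hL'⟩ := List.append_of_mem hp
    exact hJ0 (hN1 L₁ p L₂ hL' J hJ (fun w hw => (hJm w hw).elim (h1A w) (h2A w)))
  have n2 : ∀ p ∈ L, ∀ q ∈ L, p ≠ q → ∀ J J' : List V,
      IsP G (p.1 :: (J ++ [q.1])) → (∀ v ∈ J, v ∉ X ∧ v ∉ CC) →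
      IsP G (p.2 :: (J' ++ [q.2])) → (∀ v ∈ J', v ∉ X ∧ v ∉ CC) → J = [] ∧ J' = [] := by
    intro p hp q hq hpq J J' h1 h1A h2 h2A
    have hd : ∀ v ∈ J, v ∉ J' := n1 p hp J J' (pre _ _ _ h1) h1A (pre _ _ _ h2) h2A
    rcases order p hp q hq hpq with ⟨L₁, L₂, L₃, h⟩ | ⟨L₁, L₂, L₃, h⟩
    · exact hN2 L₁ p L₂ q L₃ h J J' h1 h1A h2 h2A hd
    · have h3 := hN2 L₁ q L₂ p L₃ h J.reverse J'.reverse (by simpa using h1.reverse)
        (fun v hv => h1A v (List.mem_reverse.1 hv)) (by simpa using h2.reverse)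
        (fun v hv => h2A v (List.mem_reverse.1 hv))
        (fun v hv hv' => hd v (List.mem_reverse.1 hv) (List.mem_reverse.1 hv'))
      exact ⟨List.reverse_eq_nil_iff.1 h3.1, List.reverse_eq_nil_iff.1 h3.2⟩
  -- a path through the cycle, and its length
  have n3o : ∀ (p q : V × V) (L₁ L₂ L₃ : List (V × V)), L = L₁ ++ p :: (L₂ ++ q :: L₃) →
      ∀ J : List V, IsP G (p.2 :: (J ++ [q.2])) → (∀ v ∈ J, v ∉ X ∧ v ∉ CC) →
      ∀ A₁ A₂ : List V, IsP G (p.1 :: A₁) → (∀ v ∈ A₁, v ∉ X ∧ v ∉ CC) →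
      IsP G (q.1 :: A₂) → (∀ v ∈ A₂, v ∉ X ∧ v ∉ CC) → (∀ v ∈ A₁, v ∉ A₂) →
      CC.length + A₁.length + A₂.length ≤ a + b := by
    intro p q L₁ L₂ L₃ h J hJ hJA A₁ A₂ h1 h1A h2 h2A h12
    have hp : p ∈ L := by rw [h]; simp
    have hq : q ∈ L := by rw [h]; simp
    have e1 : CC = fl L₁ ++ p.1 :: p.2 :: (fl L₂ ++ q.1 :: q.2 :: (fl L₃ ++ W)) := by
      rw [hCC, h, fl_append, fl_cons, fl_append, fl_cons]
      simp
    have hC' := hC
    rw [e1] at hC'
    obtain ⟨l, hl1, hl2⟩ := hC'.through hJ h1 h2 (by rw [← e1]; exact fun v hv => (hJA v hv).2)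
      (by rw [← e1]; exact fun v hv => (h1A v hv).2)
      (by rw [← e1]; exact fun v hv => (h2A v hv).2)
      (n1 p hp A₁ J h1 h1A (pre _ _ _ hJ) hJA)
      (fun v hv hv' => n1 q hq A₂ J.reverse h2 h2A
        (pre _ _ _ (by simpa using hJ.reverse : IsP G (q.2 :: (J.reverse ++ [p.2]))))
        (fun w hw => hJA w (List.mem_reverse.1 hw)) v hv (List.mem_reverse.2 hv'))
      h12
    have h3 := ht l hl1
    rw [← e1] at hl2
    omega
  have n3 : ∀ p ∈ L, ∀ q ∈ L, p ≠ q →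
      ∀ J : List V, IsP G (p.2 :: (J ++ [q.2])) → (∀ v ∈ J, v ∉ X ∧ v ∉ CC) →
      ∀ A₁ A₂ : List V, IsP G (p.1 :: A₁) → (∀ v ∈ A₁, v ∉ X ∧ v ∉ CC) →
      IsP G (q.1 :: A₂) → (∀ v ∈ A₂, v ∉ X ∧ v ∉ CC) → (∀ v ∈ A₁, v ∉ A₂) →
      CC.length + A₁.length + A₂.length ≤ a + b := by
    intro p hp q hq hpq J hJ hJA A₁ A₂ h1 h1A h2 h2A h12
    rcases order p hp q hq hpq with ⟨L₁, L₂, L₃, h⟩ | ⟨L₁, L₂, L₃, h⟩
    · exact n3o p q L₁ L₂ L₃ h J hJ hJA A₁ A₂ h1 h1A h2 h2A h12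
    · have h3 := n3o q p L₁ L₂ L₃ h J.reverse (by simpa using hJ.reverse)
        (fun v hv => hJA v (List.mem_reverse.1 hv)) A₂ A₁ h2 h2A h1 h1A
        (fun v hv hv' => h12 v hv' hv)
      omega
  -- the same with the two vertices of the pairs exchanged
  have n3o' : ∀ (p q : V × V) (L₁ L₂ L₃ : List (V × V)), L = L₁ ++ p :: (L₂ ++ q :: L₃) →
      ∀ J : List V, IsP G (p.1 :: (J ++ [q.1])) → (∀ v ∈ J, v ∉ X ∧ v ∉ CC) →
      ∀ A₁ A₂ : List V, IsP G (p.2 :: A₁) → (∀ v ∈ A₁, v ∉ X ∧ v ∉ CC) →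
      IsP G (q.2 :: A₂) → (∀ v ∈ A₂, v ∉ X ∧ v ∉ CC) → (∀ v ∈ A₁, v ∉ A₂) →
      CC.length + A₁.length + A₂.length ≤ a + b := by
    intro p q L₁ L₂ L₃ h J hJ hJA A₁ A₂ h1 h1A h2 h2A h12
    have hp : p ∈ L := by rw [h]; simp
    have hq : q ∈ L := by rw [h]; simp
    have e1 : CC.reverse = (fl L₃ ++ W).reverse ++ q.2 :: q.1 :: ((fl L₂).reverse ++
        p.2 :: p.1 :: (fl L₁).reverse) := by
      rw [hCC, h, fl_append, fl_cons, fl_append, fl_cons]
      simp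
    have mr : ∀ v, v ∈ CC.reverse → v ∈ CC := fun v hv => List.mem_reverse.1 hv
    have hC' := hC.reverse
    rw [e1] at hC'
    obtain ⟨l, hl1, hl2⟩ := hC'.through (J := J.reverse) (A₁ := A₂) (A₂ := A₁)
      (by simpa using hJ.reverse) h2 h1
      (by rw [← e1]; exact fun v hv hv' => (hJA v (List.mem_reverse.1 hv)).2 (mr v hv'))
      (by rw [← e1]; exact fun v hv hv' => (h2A v hv).2 (mr v hv'))
      (by rw [← e1]; exact fun v hv hv' => (h1A v hv).2 (mr v hv'))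
      (fun v hv hv' => n1 q hq J.reverse A₂
        (pre _ _ _ (by simpa using hJ.reverse : IsP G (q.1 :: (J.reverse ++ [p.1]))))
        (fun w hw => hJA w (List.mem_reverse.1 hw)) h2 h2A v hv' hv)
      (fun v hv hv' => n1 p hp J A₁ (pre _ _ _ hJ) hJA h1 h1A v (List.mem_reverse.1 hv') hv)
      (fun v hv hv' => h12 v hv' hv)
    have h3 := ht l hl1
    rw [← e1, List.length_reverse] at hl2
    omega
  have n3' : ∀ p ∈ L, ∀ q ∈ L, p ≠ q →
      ∀ J : List V, IsP G (p.1 :: (J ++ [q.1])) → (∀ v ∈ J, v ∉ X ∧ v ∉ CC) →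
      ∀ A₁ A₂ : List V, IsP G (p.2 :: A₁) → (∀ v ∈ A₁, v ∉ X ∧ v ∉ CC) →
      IsP G (q.2 :: A₂) → (∀ v ∈ A₂, v ∉ X ∧ v ∉ CC) → (∀ v ∈ A₁, v ∉ A₂) →
      CC.length + A₁.length + A₂.length ≤ a + b := by
    intro p hp q hq hpq J hJ hJA A₁ A₂ h1 h1A h2 h2A h12
    rcases order p hp q hq hpq with ⟨L₁, L₂, L₃, h⟩ | ⟨L₁, L₂, L₃, h⟩
    · exact n3o' p q L₁ L₂ L₃ h J hJ hJA A₁ A₂ h1 h1A h2 h2A h12
    · have h3 := n3o' q p L₁ L₂ L₃ h J.reverse (by simpa using hJ.reverse)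
        (fun v hv => hJA v (List.mem_reverse.1 hv)) A₂ A₁ h2 h2A h1 h1A
        (fun v hv hv' => h12 v hv' hv)
      omega
  have n4 : ∀ p ∈ L, ∀ A₁ A₂ : List V, IsP G (p.1 :: A₁) → (∀ v ∈ A₁, v ∉ X ∧ v ∉ CC) →
      IsP G (p.2 :: A₂) → (∀ v ∈ A₂, v ∉ X ∧ v ∉ CC) →
      CC.length + A₁.length + A₂.length ≤ a + b := by
    intro p hp A₁ A₂ h1 h1A h2 h2A
    obtain ⟨L₁, L₂, h⟩ := List.append_of_mem hp
    have e1 : CC = fl L₁ ++ p.1 :: p.2 :: (fl L₂ ++ W) := by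
      rw [hCC, h, fl_append, fl_cons]
      simp
    have hC' := hC
    rw [e1] at hC'
    obtain ⟨l, hl1, hl2⟩ := hC'.open' h1 h2
      (by rw [← e1]; exact fun v hv => (h1A v hv).2)
      (by rw [← e1]; exact fun v hv => (h2A v hv).2) (n1 p hp A₁ A₂ h1 h1A h2 h2A)
    have h3 := ht l hl1
    rw [← e1] at hl2
    omega
  -- exchange
  have hE : ∀ S : Finset V, S ⊆ X → c < S.card → ∃ P, IsP G P ∧ P.length = b + 1 ∧
      (∀ v ∈ P, v ∉ S → v ∉ X ∧ v ∉ CC) ∧ ∃ v ∈ P, v ∈ S := by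
    intro S hS hc
    obtain ⟨P, hP, hPS, hPY⟩ := hX.exch (I := S) (Y := CC.toFinset \ X) hS
      (lt_of_le_of_lt hK hc)
    have hPP : IsP G (P.take (b + 1)) := by
      refine ⟨?_, hP.1.2.sublist (List.take_sublist _ _)⟩
      have h1 := hP.1.1
      rw [← List.take_append_drop (b + 1) P] at h1
      exact h1.left_of_append
    have hlen' : (P.take (b + 1)).length = b + 1 := by
      rw [List.length_take]
      have := hP.2
      omega
    have hmem : ∀ v ∈ P.take (b + 1), v ∈ P := fun v hv => List.mem_of_mem_take hv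
    refine ⟨P.take (b + 1), hPP, hlen', ?_, ?_⟩
    · intro v hv hvS
      have hvX : v ∉ X := fun h => hvS (hPS v (hmem v hv) h)
      refine ⟨hvX, ?_⟩
      intro hvC
      exact hPY v (hmem v hv) (Finset.mem_sdiff.2 ⟨List.mem_toFinset.2 hvC, hvX⟩)
    · obtain ⟨v, hv, hvX⟩ := hX.1 (P.take (b + 1)) ⟨hPP, by omega⟩
      exact ⟨v, hv, hPS v (hmem v hv) hvX⟩
  -- images
  have im1 : ∀ S : Finset (V × V), (∀ p ∈ S, p ∈ L) → (S.image Prod.fst).card = S.card ∧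
      S.image Prod.fst ⊆ X := by
    intro S hS
    refine ⟨Finset.card_image_of_injOn ?_, ?_⟩
    · intro p hp q hq hpq
      by_contra hne
      exact (dist2 p (hS p hp) q (hS q hq) hne).1 hpq
    · intro v hv
      obtain ⟨p, hp, rfl⟩ := Finset.mem_image.1 hv
      exact hLX _ (mem_fl (hS p hp)).1
  have im2 : ∀ S : Finset (V × V), (∀ p ∈ S, p ∈ L) → (S.image Prod.snd).card = S.card ∧
      S.image Prod.snd ⊆ X := by
    intro S hS
    refine ⟨Finset.card_image_of_injOn ?_, ?_⟩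
    · intro p hp q hq hpq
      by_contra hne
      exact (dist2 p (hS p hp) q (hS q hq) hne).2 hpq
    · intro v hv
      obtain ⟨p, hp, rfl⟩ := Finset.mem_image.1 hv
      exact hLX _ (mem_fl (hS p hp)).2
  -- Ramsey
  have hcard : L.toFinset.card = L.length := by
    refine List.toFinset_card_of_nodup ?_
    rw [List.nodup_iff_injective_get]
    intro i j hij
    by_contra hne
    have key : ∀ i j : Fin L.length, i < j → L.get i ≠ L.get j := by
      intro i j hlt heq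
      have h1 : L = L.take i ++ L.get i :: L.drop (i + 1) := by
        rw [List.get_eq_getElem, List.cons_getElem_drop_succ, List.take_append_drop]
      have h2 : L.get j ∈ L.drop (i + 1) := by
        rw [List.mem_iff_getElem]
        refine ⟨j - (i + 1), ?_, ?_⟩
        · rw [List.length_drop]
          have := j.2
          have h5 : (i : ℕ) < j := hlt
          omega
        · rw [List.getElem_drop, List.get_eq_getElem]
          congr 1
          have h5 : (i : ℕ) < j := hlt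
          omega
      obtain ⟨D₁, D₂, hD⟩ := List.append_of_mem h2
      rw [hD, ← heq] at h1
      exact (dist2' (L.get i) (L.get i) _ _ _ h1).1 rfl
    rcases lt_trichotomy i j with h | h | h
    · exact key i j h hij
    · exact hne h
    · exact key j i h hij.symm
  rcases ramsey (fun p q : V × V => ∃ J : List V, IsP G (p.2 :: (J ++ [q.2])) ∧
      ∀ v ∈ J, v ∉ X ∧ v ∉ CC)
      (by
        rintro p q ⟨J, h1, h2⟩
        exact ⟨J.reverse, by simpa using h1.reverse, fun v hv => h2 v (List.mem_reverse.1 hv)⟩)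
      (3 * c + 3) (c + 2) (2 * c + 1) L.toFinset (by ring)
      (by
        rw [hcard]
        exact le_trans (Nat.pow_le_pow_right (by norm_num) (by omega)) hL) with
    ⟨T, hT, hTc, hTr⟩ | ⟨T, hT, hTc, hTr⟩
  · -- all chords exist
    have hTL : ∀ p ∈ T, p ∈ L := fun p hp => List.mem_toFinset.1 (hT hp)
    have free : ∀ S ⊆ T, S.card = c + 1 → ∃ p ∈ S, ∃ A : List V, IsP G (p.1 :: A) ∧
        b ≤ 2 * A.length ∧ ∀ v ∈ A, v ∉ X ∧ v ∉ CC := by
      intro S hS hSc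
      have hSL : ∀ p ∈ S, p ∈ L := fun p hp => hTL p (hS hp)
      obtain ⟨hi1, hi2⟩ := im1 S hSL
      obtain ⟨P, hP, hPl, hPA, hPS⟩ := hE (S.image Prod.fst) hi2 (by omega)
      rcases pieces hPS with ⟨A₀, x, A₁, h1, hx, hA₀, hA₁⟩ | ⟨A₀, x, M, z, A₁, h1, hx, hz, hA₀, hA₁⟩
      · obtain ⟨p, hp, rfl⟩ := Finset.mem_image.1 hx
        rw [h1] at hP hPl hPA
        obtain ⟨A, hA1, hA2, hA3⟩ := longer_piece hP hPl.ge
        refine ⟨p, hp, A, hA1, hA2, ?_⟩
        intro v hv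
        rcases hA3 v hv with h2 | h2
        · exact hPA v (by simp only [List.mem_append, List.mem_cons]; tauto) (hA₀ v h2)
        · exact hPA v (by simp only [List.mem_append, List.mem_cons]; tauto) (hA₁ v h2)
      · exfalso
        rw [h1] at hP hPl hPA
        have hMS : ∀ v ∈ M, v ∈ S.image Prod.fst := by
          by_contra hcon
          push Not at hcon
          obtain ⟨y, w, J, hy, hw, hyw, hJ0, hJ, hJm⟩ := jump hP hx hz hcon
          obtain ⟨p, hp, rfl⟩ := Finset.mem_image.1 hy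
          obtain ⟨q, hq, rfl⟩ := Finset.mem_image.1 hw
          have hpq : p ≠ q := fun h => hyw (by rw [h])
          obtain ⟨J', hJ', hJ'A⟩ := hTr p (hS hp) q (hS hq) hpq
          exact hJ0 (n2 p (hSL p hp) q (hSL q hq) hpq J J' hJ
            (fun v hv => hPA v (hJm v hv).1 (hJm v hv).2) hJ' hJ'A).1
        have hnd := hP.2
        have hMc : M.length + 2 ≤ c + 1 := by
          have h2 : (x :: (M ++ [z])).toFinset ⊆ S.image Prod.fst := by
            intro v hv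
            simp only [List.mem_toFinset, List.mem_cons, List.mem_append, List.not_mem_nil,
              or_false] at hv
            rcases hv with h3 | h3 | h3
            · rw [h3]; exact hx
            · exact hMS v h3
            · rw [h3]; exact hz
          have h3 := Finset.card_le_card h2
          have h4 : (x :: (M ++ [z])).Nodup := by
            have e1 : A₀ ++ x :: (M ++ z :: A₁) = A₀ ++ ((x :: (M ++ [z])) ++ A₁) := by simp
            rw [e1] at hnd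
            exact (List.nodup_append'.1 (List.nodup_append'.1 hnd).2.1).1
          rw [List.toFinset_card_of_nodup h4, hi1, hSc] at h3
          simp only [List.length_cons, List.length_append, List.length_nil] at h3
          omega
        obtain ⟨p, hp, rfl⟩ := Finset.mem_image.1 hx
        obtain ⟨q, hq, rfl⟩ := Finset.mem_image.1 hz
        have hpq : p ≠ q := by
          intro h
          rw [h] at hnd
          have h2 := (List.nodup_append'.1 hnd).2.1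
          exact (List.nodup_cons.1 h2).1 (by simp)
        obtain ⟨J', hJ', hJ'A⟩ := hTr p (hS hp) q (hS hq) hpq
        have hA₀' : IsP G (p.1 :: A₀.reverse) := by
          have e1 : A₀ ++ p.1 :: (M ++ q.1 :: A₁) = [] ++ ((A₀ ++ [p.1]) ++ (M ++ q.1 :: A₁)) := by
            simp
          rw [e1] at hP
          have h2 := hP.inner.reverse
          simpa using h2
        have hA₁' : IsP G (q.1 :: A₁) := by
          have e1 : A₀ ++ p.1 :: (M ++ q.1 :: A₁) = (A₀ ++ p.1 :: M) ++ ((q.1 :: A₁) ++ []) := by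
            simp
          rw [e1] at hP
          exact hP.inner
        have h5 := n3 p (hSL p hp) q (hSL q hq) hpq J' hJ' hJ'A A₀.reverse A₁ hA₀'
          (fun v hv => hPA v (by
            have := List.mem_reverse.1 hv
            simp only [List.mem_append, List.mem_cons]; tauto) (hA₀ v (List.mem_reverse.1 hv)))
          hA₁' (fun v hv => hPA v (by simp only [List.mem_append, List.mem_cons]; tauto)
            (hA₁ v hv))
          (fun v hv hv' => (List.nodup_append'.1 hnd).2.2 (List.mem_reverse.1 hv)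
            (by simp only [List.mem_append, List.mem_cons]; tauto))
        simp only [List.length_append, List.length_cons] at hPl
        rw [List.length_reverse] at h5
        omega
    obtain ⟨S, hS, hSc⟩ := Finset.exists_subset_card_eq (s := T) (n := c + 1) (by omega)
    obtain ⟨p, hp, A, hA1, hA2, hA3⟩ := free S hS hSc
    have hpT := hS hp
    obtain ⟨q, hq, B, hB1, hB2, hB3⟩ := free (T.erase p) (Finset.erase_subset _ _) (by
      rw [Finset.card_erase_of_mem hpT, hTc]; omega)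
    obtain ⟨hqp, hqT⟩ := Finset.mem_erase.1 hq
    obtain ⟨J', hJ', hJ'A⟩ := hTr p hpT q hqT hqp.symm
    by_cases hm : ∃ v ∈ A, v ∈ B
    · obtain ⟨J, hJ0, hJ, hJm⟩ := join_pieces (dist2 p (hTL p hpT) q (hTL q hqT) hqp.symm).1
        hA1 hB1 (fun h => (hB3 _ h).2 (m1 p (hTL p hpT)))
        (fun h => (hA3 _ h).2 (m1 q (hTL q hqT))) hm
      exact hJ0 (n2 p (hTL p hpT) q (hTL q hqT) hqp.symm J J' hJ
        (fun v hv => (hJm v hv).elim (hA3 v) (hB3 v)) hJ' hJ'A).1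
    · push Not at hm
      have h5 := n3 p (hTL p hpT) q (hTL q hqT) hqp.symm J' hJ' hJ'A A B hA1 hA3 hB1 hB3 hm
      omega
  · -- no chord exists
    have hTL : ∀ p ∈ T, p ∈ L := fun p hp => List.mem_toFinset.1 (hT hp)
    have free2 : ∀ S ⊆ T, S.card = c + 1 → ∃ p ∈ S, ∃ A : List V, IsP G (p.2 :: A) ∧
        b ≤ 2 * A.length ∧ ∀ v ∈ A, v ∉ X ∧ v ∉ CC := by
      intro S hS hSc
      have hSL : ∀ p ∈ S, p ∈ L := fun p hp => hTL p (hS hp)
      obtain ⟨hi1, hi2⟩ := im2 S hSL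
      obtain ⟨P, hP, hPl, hPA, hPS⟩ := hE (S.image Prod.snd) hi2 (by omega)
      rcases pieces hPS with ⟨A₀, x, A₁, h1, hx, hA₀, hA₁⟩ | ⟨A₀, x, M, z, A₁, h1, hx, hz, hA₀, hA₁⟩
      · obtain ⟨p, hp, rfl⟩ := Finset.mem_image.1 hx
        rw [h1] at hP hPl hPA
        obtain ⟨A, hA1, hA2, hA3⟩ := longer_piece hP hPl.ge
        refine ⟨p, hp, A, hA1, hA2, ?_⟩
        intro v hv
        rcases hA3 v hv with h2 | h2
        · exact hPA v (by simp only [List.mem_append, List.mem_cons]; tauto) (hA₀ v h2)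
        · exact hPA v (by simp only [List.mem_append, List.mem_cons]; tauto) (hA₁ v h2)
      · exfalso
        rw [h1] at hP hPl hPA
        obtain ⟨w, J, hw, hxw, hJ, hJm⟩ := jump0 hP hz
        obtain ⟨p, hp, rfl⟩ := Finset.mem_image.1 hx
        obtain ⟨q, hq, rfl⟩ := Finset.mem_image.1 hw
        have hpq : p ≠ q := fun h => hxw (by rw [h])
        exact hTr p (hS hp) q (hS hq) hpq ⟨J, hJ, fun v hv => hPA v (hJm v hv).1 (hJm v hv).2⟩
    -- many elements of `T` are free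
    set T' : Finset (V × V) := T.filter (fun p => ∃ A : List V, IsP G (p.2 :: A) ∧
        b ≤ 2 * A.length ∧ ∀ v ∈ A, v ∉ X ∧ v ∉ CC) with hT'
    have hT'c : c + 1 ≤ T'.card := by
      by_contra hcon
      have h1 := Finset.card_filter_add_card_filter_not (s := T)
        (fun p : V × V => ∃ A : List V, IsP G (p.2 :: A) ∧
        b ≤ 2 * A.length ∧ ∀ v ∈ A, v ∉ X ∧ v ∉ CC)
      obtain ⟨S, hS, hSc⟩ := Finset.exists_subset_card_eq (s := T.filter (fun p : V × V =>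
        ¬ ∃ A : List V, IsP G (p.2 :: A) ∧ b ≤ 2 * A.length ∧ ∀ v ∈ A, v ∉ X ∧ v ∉ CC))
        (n := c + 1) (by
          have h2 : T'.card = (T.filter (fun p => ∃ A : List V, IsP G (p.2 :: A) ∧
            b ≤ 2 * A.length ∧ ∀ v ∈ A, v ∉ X ∧ v ∉ CC)).card := rfl
          omega)
      obtain ⟨p, hp, hA⟩ := free2 S (hS.trans (Finset.filter_subset _ _)) hSc
      exact (Finset.mem_filter.1 (hS hp)).2 hA
    obtain ⟨T₃, hT₃, hT₃c⟩ := Finset.exists_subset_card_eq hT'c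
    have hT₃L : ∀ p ∈ T₃, p ∈ L := fun p hp => hTL p (Finset.mem_filter.1 (hT₃ hp)).1
    have hno : ∀ p ∈ T₃, ∀ q ∈ T₃, p ≠ q → ∀ J : List V, IsP G (p.1 :: (J ++ [q.1])) →
        (∀ v ∈ J, v ∉ X ∧ v ∉ CC) → False := by
      intro p hp q hq hpq J hJ hJA
      obtain ⟨hpT, A, hA1, hA2, hA3⟩ := Finset.mem_filter.1 (hT₃ hp)
      obtain ⟨hqT, B, hB1, hB2, hB3⟩ := Finset.mem_filter.1 (hT₃ hq)
      by_cases hm : ∃ v ∈ A, v ∈ B
      · obtain ⟨J', hJ0, hJ', hJm⟩ := join_pieces (dist2 p (hTL p hpT) q (hTL q hqT) hpq).2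
          hA1 hB1 (fun h => (hB3 _ h).2 (m2 p (hTL p hpT)))
          (fun h => (hA3 _ h).2 (m2 q (hTL q hqT))) hm
        exact hTr p hpT q hqT hpq ⟨J', hJ', fun v hv => (hJm v hv).elim (hA3 v) (hB3 v)⟩
      · push Not at hm
        have h5 := n3' p (hTL p hpT) q (hTL q hqT) hpq J hJ hJA A B hA1 hA3 hB1 hB3 hm
        omega
    obtain ⟨hi1, hi2⟩ := im1 T₃ hT₃L
    obtain ⟨P, hP, hPl, hPA, hPS⟩ := hE (T₃.image Prod.fst) hi2 (by omega)
    rcases pieces hPS with ⟨A₀, x, A₁, h1, hx, hA₀, hA₁⟩ | ⟨A₀, x, M, z, A₁, h1, hx, hz, hA₀, hA₁⟩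
    · obtain ⟨p, hp, rfl⟩ := Finset.mem_image.1 hx
      rw [h1] at hP hPl hPA
      obtain ⟨A, hA1, hA2, hA3⟩ := longer_piece hP hPl.ge
      obtain ⟨hpT, B, hB1, hB2, hB3⟩ := Finset.mem_filter.1 (hT₃ hp)
      have h5 := n4 p (hT₃L p hp) A B hA1 (by
        intro v hv
        rcases hA3 v hv with h2 | h2
        · exact hPA v (by simp only [List.mem_append, List.mem_cons]; tauto) (hA₀ v h2)
        · exact hPA v (by simp only [List.mem_append, List.mem_cons]; tauto) (hA₁ v h2)) hB1 hB3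
      omega
    · rw [h1] at hP hPl hPA
      obtain ⟨w, J, hw, hxw, hJ, hJm⟩ := jump0 hP hz
      obtain ⟨p, hp, rfl⟩ := Finset.mem_image.1 hx
      obtain ⟨q, hq, rfl⟩ := Finset.mem_image.1 hw
      have hpq : p ≠ q := fun h => hxw (by rw [h])
      exact hno p hp q hq hpq J hJ (fun v hv => hPA v (hJm v hv).1 (hJm v hv).2)

end Pool.Agent.Helper41.PP
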