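import Pool.Agent.Helper41.PP.Ins
import Pool.Agent.Helper41.PP.Link

/-!
# The asymptotic path partition theorem, in terms of lists
-/

namespace Pool.Agent.Helper41.PP

variable {V : Type}

/-- The insertion for links from one segment of `R`, with the two links in any order. -/
theorem use_insertion {G : SimpleGraph V} {P R₁ R₁' R₀ R₂ R₂' sm : List V} {α ω : V}
    (hP : IsP G P) (hR : IsP G (R₁ ++ (R₁' ++ (R₀ ++ (R₂ ++ R₂')))))
    (hPR : ∀ v ∈ P, v ∉ R₁' ++ (R₀ ++ (R₂ ++ R₂')))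
    (hα : α ∈ R₁') (hω : ω ∈ R₂') (hs : IsP G (α :: (sm ++ [ω])))
    (hsm : ∀ v ∈ sm, v ∉ P ∧ v ∉ R₁' ++ (R₀ ++ (R₂ ++ R₂')))
    (mid : V → List V) (e : V → V) {y y' : V} (hy : y ∈ R₂) (hy' : y' ∈ R₂) (hne : y ≠ y')
    (hm : ∀ a ∈ R₂, IsP G (a :: (mid a ++ [e a])) ∧
      (∀ v ∈ mid a, v ∉ P ∧ v ∉ R₁' ++ (R₀ ++ (R₂ ++ R₂'))) ∧
      ∀ a' ∈ R₂, a ≠ a' → ∀ v ∈ mid a, v ∉ mid a')
    (hys : ∀ v ∈ mid y, v ∉ sm) (hys' : ∀ v ∈ mid y', v ∉ sm)
    {P₁ M P₂ : List V} (hPeq : P = P₁ ++ e y :: (M ++ e y' :: P₂)) :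
    ∃ l, IsP G l ∧ P₁.length + P₂.length + R₀.length + 6 ≤ l.length := by
  classical
  -- the case in which `y` comes first, for all paths
  have main : ∀ (P P₁ M P₂ : List V) (y y' : V), IsP G P →
      (∀ v ∈ P, v ∉ R₁' ++ (R₀ ++ (R₂ ++ R₂'))) →
      (∀ v ∈ sm, v ∉ P ∧ v ∉ R₁' ++ (R₀ ++ (R₂ ++ R₂'))) →
      (∀ a ∈ R₂, ∀ v ∈ mid a, v ∉ P) → y ∈ R₂ → y' ∈ R₂ → y ≠ y' →
      (∀ v ∈ mid y, v ∉ sm) → (∀ v ∈ mid y', v ∉ sm) → R₂.idxOf y < R₂.idxOf y' →
      P = P₁ ++ e y :: (M ++ e y' :: P₂) →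
      ∃ l, IsP G l ∧ P₁.length + P₂.length + R₀.length + 6 ≤ l.length := by
    intro P P₁ M P₂ y y' hP hPR hsm hmP hy hy' hne hys hys' hlt hPeq
    obtain ⟨A₁, A₂, A₃, hA, _⟩ := split_two hy hy' hlt
    obtain ⟨C₁, C₂, hC⟩ := List.append_of_mem hα
    obtain ⟨D₁, D₂, hD⟩ := List.append_of_mem hω
    have hsub : ∀ v, v ∈ α :: (C₂ ++ (R₀ ++ (A₁ ++ y :: (A₂ ++ y' :: (A₃ ++ (D₁ ++ ω :: D₂)))))) →
        v ∈ R₁' ++ (R₀ ++ (R₂ ++ R₂')) := by
      intro v hv
      rw [hC, hA, hD]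
      simp only [List.mem_append, List.mem_cons] at hv ⊢
      tauto
    subst hPeq
    refine insertion (C₁ := R₁ ++ C₁) (C₂ := C₂) (A₁ := A₁) (A₂ := A₂) (A₃ := A₃) (D₁ := D₁)
      (D₂ := D₂) (m₁ := mid y) (m₂ := mid y') (sm := sm) hP ?_ ?_
      (hm y hy).1 (hm y' hy').1 hs ?_ ?_ ?_
    · have h1 : R₁ ++ (R₁' ++ (R₀ ++ (R₂ ++ R₂'))) = (R₁ ++ C₁) ++ α :: (C₂ ++ (R₀ ++ (A₁ ++
          y :: (A₂ ++ y' :: (A₃ ++ (D₁ ++ ω :: D₂)))))) := by
        rw [hC, hA, hD]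
        simp
      rw [← h1]
      exact hR
    · intro v hv hv'
      exact hPR v hv (hsub v hv')
    · intro v hv
      exact ⟨hmP y hy v hv, fun h => ((hm y hy).2.1 v hv).2 (hsub v h), hys v hv,
        (hm y hy).2.2 y' hy' hne v hv⟩
    · intro v hv
      exact ⟨hmP y' hy' v hv, fun h => ((hm y' hy').2.1 v hv).2 (hsub v h), hys' v hv⟩
    · intro v hv
      exact ⟨(hsm v hv).1, fun h => (hsm v hv).2 (hsub v h)⟩
  rcases lt_trichotomy (R₂.idxOf y) (R₂.idxOf y') with h | h | h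
  · exact main P P₁ M P₂ y y' hP hPR hsm (fun a ha v hv => ((hm a ha).2.1 v hv).1) hy hy' hne
      hys hys' h hPeq
  · exact absurd ((List.idxOf_inj hy).1 h) hne
  · have h1 : P.reverse = P₂.reverse ++ e y' :: (M.reverse ++ e y :: P₁.reverse) := by
      rw [hPeq]
      simp
    obtain ⟨l, hl1, hl2⟩ := main P.reverse P₂.reverse M.reverse P₁.reverse y' y hP.reverse
      (fun v hv => hPR v (List.mem_reverse.1 hv))
      (fun v hv => ⟨fun h2 => (hsm v hv).1 (List.mem_reverse.1 h2), (hsm v hv).2⟩)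
      (fun a ha v hv h2 => ((hm a ha).2.1 v hv).1 (List.mem_reverse.1 h2)) hy' hy hne.symm
      hys' hys h h1
    refine ⟨l, hl1, ?_⟩
    rw [List.length_reverse, List.length_reverse] at hl2
    omega

/-- The main step. -/
theorem core [Fintype V] {G : SimpleGraph V} {a b n : ℕ} (hn : 2 ≤ n) (hab : a + b ≤ n ^ 3)
    (ht : ∀ l, IsP G l → l.length ≤ a + b) {X : Finset V} (hX : MinHit G b X)
    (R : List V) (hR : IsP G R) (hRX : ∀ v ∈ R, v ∈ X) : R.length ≤ a + 6 * n ^ 2 := by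
  classical
  by_contra hcon
  push Not at hcon
  have hn2 : n + 1 ≤ n ^ 2 := by nlinarith
  -- cut `R`
  obtain ⟨R₁, R₁', R₀, R₂, R₂', hRe, l1, l1', l0, l2, l2'⟩ : ∃ R₁ R₁' R₀ R₂ R₂' : List V,
      R = R₁ ++ (R₁' ++ (R₀ ++ (R₂ ++ R₂'))) ∧ R₁.length = n ^ 2 + 1 ∧ R₁'.length = n ^ 2 ∧
      a + n ≤ R₀.length ∧ R₂.length = 2 * n ^ 2 + 1 ∧ R₂'.length = n ^ 2 := by
    refine ⟨R.take (n ^ 2 + 1), (R.drop (n ^ 2 + 1)).take (n ^ 2),
      ((R.drop (n ^ 2 + 1)).drop (n ^ 2)).take (R.length - (5 * n ^ 2 + 2)),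
      (((R.drop (n ^ 2 + 1)).drop (n ^ 2)).drop (R.length - (5 * n ^ 2 + 2))).take (2 * n ^ 2 + 1),
      (((R.drop (n ^ 2 + 1)).drop (n ^ 2)).drop (R.length - (5 * n ^ 2 + 2))).drop (2 * n ^ 2 + 1),
      ?_, ?_, ?_, ?_, ?_, ?_⟩
    · simp only [List.take_append_drop]
    · rw [List.length_take]; omega
    · rw [List.length_take, List.length_drop]; omega
    · rw [List.length_take, List.length_drop, List.length_drop]; omega
    · rw [List.length_take, List.length_drop, List.length_drop, List.length_drop]; omega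
    · rw [List.length_drop, List.length_drop, List.length_drop, List.length_drop]; omega
  subst hRe
  have hnd := hR.2
  rw [List.nodup_append', List.nodup_append', List.nodup_append', List.nodup_append'] at hnd
  obtain ⟨nd1, ⟨nd1', ⟨nd0, ⟨nd2, nd2', dj2⟩, dj0⟩, dj1'⟩, dj1⟩ := hnd
  have ip1' : IsP G R₁' := ⟨hR.1.right_of_append.left_of_append, nd1'⟩
  have ip2' : IsP G R₂' :=
    ⟨hR.1.right_of_append.right_of_append.right_of_append.right_of_append, nd2'⟩
  -- crossing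
  have cr1 : ∀ P Q, Long G b P → Long G b Q → (∀ v ∈ P, v ∈ X → v ∈ R₁') →
      (∀ v ∈ Q, v ∈ X → v ∈ R₂') → ∃ v ∈ P, v ∈ Q := by
    intro P Q hP hQ hPI hQJ
    by_contra h
    push Not at h
    have e1 : R₁ ++ (R₁' ++ (R₀ ++ (R₂ ++ R₂'))) =
        R₁ ++ (R₁' ++ ((R₀ ++ R₂) ++ (R₂' ++ []))) := by simp
    rw [e1] at hR hRX
    obtain ⟨l, h1, h2⟩ := cross hX.1 hR hRX hP hQ hPI hQJ h
    have h3 := ht l h1
    rw [List.length_append] at h2
    omega
  have cr2 : ∀ P Q, Long G b P → Long G b Q → (∀ v ∈ P, v ∈ X → v ∈ R₁) →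
      (∀ v ∈ Q, v ∈ X → v ∈ R₂) → ∃ v ∈ P, v ∈ Q := by
    intro P Q hP hQ hPI hQJ
    by_contra h
    push Not at h
    have e1 : R₁ ++ (R₁' ++ (R₀ ++ (R₂ ++ R₂'))) =
        [] ++ (R₁ ++ ((R₁' ++ R₀) ++ (R₂ ++ R₂'))) := by simp
    rw [e1] at hR hRX
    obtain ⟨l, h1, h2⟩ := cross hX.1 hR hRX hP hQ hPI hQJ h
    have h3 := ht l h1
    rw [List.length_append] at h2
    omega
  have in1 : ∀ v ∈ R₁, v ∈ X := fun v hv => hRX v (by simp only [List.mem_append]; tauto)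
  have in1' : ∀ v ∈ R₁', v ∈ X := fun v hv => hRX v (by simp only [List.mem_append]; tauto)
  have in2 : ∀ v ∈ R₂, v ∈ X := fun v hv => hRX v (by simp only [List.mem_append]; tauto)
  have in2' : ∀ v ∈ R₂', v ∈ X := fun v hv => hRX v (by simp only [List.mem_append]; tauto)
  have card_of : ∀ L : List V, L.Nodup → L.toFinset.card = L.length := fun L hL =>
    List.toFinset_card_of_nodup hL
  -- exchange for lists
  have exch : ∀ (L : List V), L.Nodup → (∀ v ∈ L, v ∈ X) → ∀ Y : Finset V, Y.card < L.length →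
      ∃ l, Long G b l ∧ (∀ v ∈ l, v ∈ X → v ∈ L) ∧ (∀ v ∈ l, v ∉ Y) := by
    intro L hL hLX Y hY
    obtain ⟨l, h1, h2, h3⟩ := hX.exch (I := L.toFinset) (Y := Y)
      (fun v hv => hLX v (List.mem_toFinset.1 hv)) (by rw [card_of L hL]; exact hY)
    exact ⟨l, h1, fun v hv hvX => List.mem_toFinset.1 (h2 v hv hvX), h3⟩
  -- bridges
  set U₁ : Finset V := (Finset.univ \ X) ∪ (R₁'.toFinset ∪ R₂'.toFinset) with hU₁
  obtain ⟨bm, be, hb⟩ := link G U₁ R₁'.toFinset R₂'.toFinset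
    (fun v hv => Finset.mem_union_right _ (Finset.mem_union_left _ hv))
    (by
      rw [Finset.disjoint_left]
      intro v hv hv'
      exact dj1' (List.mem_toFinset.1 hv)
        (by simp only [List.mem_append]; right; right; exact List.mem_toFinset.1 hv'))
    (by
      intro Y hY
      rw [card_of _ nd1'] at hY
      obtain ⟨P, hP, hPI, hPY⟩ := exch R₁' nd1' in1' Y hY
      obtain ⟨Q, hQ, hQJ, hQY⟩ := exch R₂' nd2' in2' Y (by omega)
      obtain ⟨v, hvP, hvQ⟩ := cr1 P Q hP hQ hPI hQJ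
      obtain ⟨x, hx, hxX⟩ := hX.1 P hP
      obtain ⟨y, hy, hyX⟩ := hX.1 Q hQ
      obtain ⟨s, hs1, hs2, hs3⟩ := join hP.1.1 hQ.1.1 hx hvP hvQ hy
      refine ⟨x :: s, hs1, ?_, ⟨x, rfl, List.mem_toFinset.2 (hPI x hx hxX)⟩,
        ⟨y, hs2, List.mem_toFinset.2 (hQJ y hy hyX)⟩⟩
      intro w hw
      rcases hs3 w hw with h | h
      · refine ⟨?_, hPY w h⟩
        by_cases hwX : w ∈ X
        · exact Finset.mem_union_right _ (Finset.mem_union_left _
            (List.mem_toFinset.2 (hPI w h hwX)))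
        · exact Finset.mem_union_left _ (Finset.mem_sdiff.2 ⟨Finset.mem_univ _, hwX⟩)
      · refine ⟨?_, hQY w h⟩
        by_cases hwX : w ∈ X
        · exact Finset.mem_union_right _ (Finset.mem_union_right _
            (List.mem_toFinset.2 (hQJ w h hwX)))
        · exact Finset.mem_union_left _ (Finset.mem_sdiff.2 ⟨Finset.mem_univ _, hwX⟩))
  -- inner vertices of the bridges are outside `X`
  have hbX : ∀ a ∈ R₁', ∀ v ∈ bm a, v ∉ X := by
    intro a ha v hv hvX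
    obtain ⟨h1, h2, h3⟩ := (hb a (List.mem_toFinset.2 ha)).2.2.1 v hv
    rcases Finset.mem_union.1 h1 with h | h
    · exact (Finset.mem_sdiff.1 h).2 hvX
    · rcases Finset.mem_union.1 h with h | h
      · exact h2 h
      · exact h3 h
  -- a short bridge
  obtain ⟨α, hα, hαs⟩ := short (W := {v | v ∉ X}) (n := n) (t := a + b) ip1' ip2'
    (fun v hv hv' => dj1' hv (by simp only [List.mem_append]; right; right; exact hv'))
    (fun v hv h => h (in1' v hv)) (fun v hv h => h (in2' v hv)) (by omega) l1' bm be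
    (by
      intro a ha
      have h1 := hb a (List.mem_toFinset.2 ha)
      exact ⟨h1.1, List.mem_toFinset.1 h1.2.1, fun v hv => hbX a ha v hv,
        fun a' ha' hne => h1.2.2.2 a' (List.mem_toFinset.2 ha') hne⟩)
    ht (by nlinarith)
  have hαb := hb α (List.mem_toFinset.2 hα)
  have hω : be α ∈ R₂' := List.mem_toFinset.1 hαb.2.1
  -- a long path which avoids it
  obtain ⟨P, hP, hPI, hPY⟩ := exch R₁ nd1 in1 (bm α).toFinset (by
    have := List.toFinset_card_le (bm α)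
    omega)
  have hPR : ∀ v ∈ P, v ∉ R₁' ++ (R₀ ++ (R₂ ++ R₂')) := by
    intro v hv hv'
    exact dj1 (hPI v hv (hRX v (List.mem_append_right _ hv'))) hv'
  -- links
  set U₂ : Finset V := (Finset.univ \ X) ∪ (R₂.toFinset ∪ P.toFinset) with hU₂
  obtain ⟨lm, le, hl⟩ := link G U₂ R₂.toFinset P.toFinset
    (fun v hv => Finset.mem_union_right _ (Finset.mem_union_left _ hv))
    (by
      rw [Finset.disjoint_left]
      intro v hv hv'
      refine hPR v (List.mem_toFinset.1 hv') ?_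
      simp only [List.mem_append]
      right; right; left
      exact List.mem_toFinset.1 hv)
    (by
      intro Y hY
      rw [card_of _ nd2] at hY
      obtain ⟨Q, hQ, hQJ, hQY⟩ := exch R₂ nd2 in2 Y hY
      obtain ⟨v, hvP, hvQ⟩ := cr2 P Q hP hQ hPI hQJ
      obtain ⟨y, hy, hyX⟩ := hX.1 Q hQ
      obtain ⟨s, hs1, hs2, hs3⟩ := seg hQ.1.1 hy hvQ
      refine ⟨y :: s, hs1, ?_, ⟨y, rfl, List.mem_toFinset.2 (hQJ y hy hyX)⟩,
        ⟨v, List.mem_of_getLast? hs3, List.mem_toFinset.2 hvP⟩⟩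
      intro w hw
      refine ⟨?_, hQY w (hs2 w hw)⟩
      by_cases hwX : w ∈ X
      · exact Finset.mem_union_right _ (Finset.mem_union_left _
          (List.mem_toFinset.2 (hQJ w (hs2 w hw) hwX)))
      · exact Finset.mem_union_left _ (Finset.mem_sdiff.2 ⟨Finset.mem_univ _, hwX⟩))
  have hlX : ∀ y ∈ R₂, ∀ v ∈ lm y, v ∉ X ∧ v ∉ P := by
    intro y hy v hv
    obtain ⟨h1, h2, h3⟩ := (hl y (List.mem_toFinset.2 hy)).2.2.1 v hv
    refine ⟨?_, fun h => h3 (List.mem_toFinset.2 h)⟩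
    intro hvX
    rcases Finset.mem_union.1 h1 with h | h
    · exact (Finset.mem_sdiff.1 h).2 hvX
    · rcases Finset.mem_union.1 h with h | h
      · exact h2 h
      · exact h3 h
  -- good links
  set bad : Finset V := R₂.toFinset.filter (fun y => ∃ v ∈ lm y, v ∈ bm α) with hbad
  have hbadc : bad.card ≤ n ^ 2 := by
    have h1 : bad.card ≤ (bm α).toFinset.card := by
      have h2 : ∀ y ∈ bad, ∃ v ∈ lm y, v ∈ bm α := fun y hy => (Finset.mem_filter.1 hy).2
      choose! g hg1 hg2 using h2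
      refine Finset.card_le_card_of_injOn g ?_ ?_
      · intro y hy
        exact List.mem_toFinset.2 (hg2 y hy)
      · intro y hy y' hy' hyy
        by_contra hne
        have h3 := (hl y (Finset.mem_filter.1 hy).1).2.2.2 y' (Finset.mem_filter.1 hy').1 hne
        refine h3.2 (g y) (hg1 y hy) ?_
        rw [hyy]
        exact hg1 y' hy'
    have h2 := List.toFinset_card_le (bm α)
    omega
  set good : Finset V := R₂.toFinset \ bad with hgood
  have hgoodc : n ^ 2 < good.card := by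
    have h1 := Finset.card_le_card_sdiff_add_card (s := R₂.toFinset) (t := bad)
    rw [card_of _ nd2] at h1
    have h2 : good.card = (R₂.toFinset \ bad).card := rfl
    omega
  have hgm : ∀ y ∈ good, y ∈ R₂ ∧ ∀ v ∈ lm y, v ∉ bm α := by
    intro y hy
    have h1 := Finset.mem_sdiff.1 hy
    refine ⟨List.mem_toFinset.1 h1.1, ?_⟩
    intro v hv hv'
    exact h1.2 (Finset.mem_filter.2 ⟨h1.1, v, hv, hv'⟩)
  have hinj : Set.InjOn le good := by
    intro y hy y' hy' hyy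
    by_contra hne
    exact ((hl y (Finset.mem_sdiff.1 hy).1).2.2.2 y' (Finset.mem_sdiff.1 hy').1 hne).1 hyy
  obtain ⟨z, hz, z', hz', hne, P₁, M, P₂, hPe, hM⟩ := gap (P := P) (T := good.image le) (n := n)
    (by omega)
    (by
      intro v hv
      obtain ⟨y, hy, rfl⟩ := Finset.mem_image.1 hv
      exact List.mem_toFinset.1 (hl y (Finset.mem_sdiff.1 hy).1).2.1)
    (by rw [Finset.card_image_of_injOn hinj]; exact hgoodc)
    (le_trans (ht P hP.1) hab)
  obtain ⟨y, hy, rfl⟩ := Finset.mem_image.1 hz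
  obtain ⟨y', hy', rfl⟩ := Finset.mem_image.1 hz'
  have hyy : y ≠ y' := fun h => hne (by rw [h])
  have hXR : ∀ v, v ∉ X → v ∉ R₁' ++ (R₀ ++ (R₂ ++ R₂')) := fun v hv hv' =>
    hv (hRX v (List.mem_append_right _ hv'))
  obtain ⟨l, h1, h2⟩ := use_insertion (sm := bm α) (α := α) (ω := be α) hP.1 hR hPR hα hω
    hαb.1
    (fun v hv => ⟨fun h => hPY v h (List.mem_toFinset.2 hv), hXR v (hbX α hα v hv)⟩)
    lm le (hgm y hy).1 (hgm y' hy').1 hyy
    (by
      intro a ha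
      have h3 := hl a (List.mem_toFinset.2 ha)
      refine ⟨h3.1, ?_, ?_⟩
      · intro v hv
        exact ⟨(hlX a ha v hv).2, hXR v (hlX a ha v hv).1⟩
      · intro a' ha' hne'
        exact (h3.2.2.2 a' (List.mem_toFinset.2 ha') hne').2)
    (hgm y hy).2 (hgm y' hy').2 hPe
  have h3 := ht l h1
  have h4 := hP.2
  rw [hPe] at h4
  simp only [List.length_append, List.length_cons] at h4
  omega

end Pool.Agent.Helper41.PP
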