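import Pool.Agent.Helper41.PP.Core

/-!
# The asymptotic path partition theorem with an error depending only on `b`
-/

namespace Pool.Agent.Helper41.PP

variable {V : Type}

/-- Among many disjoint bridges between two disjoint paths there is a short one; a further path is
attached to the first of the two paths. -/
theorem short' {G : SimpleGraph V} {T L₁ L₂ : List V} {W : Set V} {n s t : ℕ}
    (h1 : IsP G (T ++ L₁)) (h2 : IsP G L₂) (h12 : ∀ v ∈ T ++ L₁, v ∉ L₂)
    (hW1 : ∀ v ∈ T ++ L₁, v ∉ W) (hW2 : ∀ v ∈ L₂, v ∉ W) (hn : 1 ≤ n)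
    (hlen : (n - 1) * (n - 1) < L₁.length) (mid : V → List V) (e : V → V)
    (hb : ∀ a ∈ L₁, IsP G (a :: (mid a ++ [e a])) ∧ e a ∈ L₂ ∧ (∀ v ∈ mid a, v ∈ W) ∧
      ∀ a' ∈ L₁, a ≠ a' → e a ≠ e a' ∧ ∀ v ∈ mid a, v ∉ mid a')
    (hlong : ∀ l, IsP G l → l.length ≤ t) (ht : t < T.length + n * s) :
    ∃ a ∈ L₁, (mid a).length + 2 < s := by
  classical
  by_contra hcon
  push Not at hcon
  have hL₁ : IsP G L₁ := ⟨h1.1.right_of_append, (List.nodup_append'.1 h1.2).2.1⟩
  have mL₁ : ∀ v ∈ L₁, v ∈ T ++ L₁ := fun v hv => List.mem_append_right _ hv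
  have hinj : ∀ x ∈ L₁, ∀ y ∈ L₁, L₂.idxOf (e x) = L₂.idxOf (e y) → x = y := by
    intro x hx y hy hxy
    by_contra hne
    exact ((hb x hx).2.2.2 y hy hne).1 ((List.idxOf_inj (hb x hx).2.1).1 hxy)
  have hn1 : n - 1 + 1 = n := by omega
  -- the conclusion from a monotone family of bridges
  have fin : ∀ (l B : List V), IsP G B → (∀ v ∈ T ++ L₁, v ∉ B) → (∀ v ∈ B, v ∉ W) →
      l.Sublist L₁ → l.length = n → (l.map e).Sublist B → False := by
    intro l B hB hAB hBW hl hln hle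
    have hlm : ∀ a ∈ l, a ∈ L₁ := fun a ha => hl.subset ha
    have hZ : ZZ G s n W L₁ B := by
      refine ZZ.of_sublist n (l.map fun a => (a, mid a, e a)) W L₁ B (by simpa using hln) ?_ ?_
        ?_ ?_
      · rw [List.map_map]
        have h4 : ((fun p : V × List V × V => p.1) ∘ fun a => (a, mid a, e a)) = id := rfl
        rw [h4, List.map_id]
        exact hl
      · rw [List.map_map]
        exact hle
      · intro p hp
        obtain ⟨a, ha, rfl⟩ := List.mem_map.1 hp
        have h5 := hb a (hlm a ha)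
        refine ⟨h5.1.1, ?_, ?_, h5.2.2.1⟩
        · exact (List.nodup_append'.1 (List.nodup_cons.1 h5.1.2).2).1
        · exact hcon a (hlm a ha)
      · rw [List.pairwise_map]
        refine List.Pairwise.imp_of_mem ?_ (hl.nodup hL₁.2)
        intro a b ha hb' hab
        exact ((hb a (hlm a ha)).2.2.2 b (hlm b hb') hab).2
    obtain ⟨Z, hZ1, hZ2, hZ3, hZ4⟩ := ZZ.path n W L₁ B hL₁ hB (fun v hv => hAB v (mL₁ v hv))
      (fun v hv => hW1 v (mL₁ v hv)) hBW hZ
    have hTZ : IsP G (T ++ Z) := by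
      refine ⟨?_, ?_⟩
      · have h3 := h1.1
        rw [List.isChain_append] at h3 ⊢
        exact ⟨h3.1, hZ1.1, fun x hx y hy => h3.2.2 x hx y (hZ2 y hy)⟩
      · have h3 := List.nodup_append'.1 h1.2
        rw [List.nodup_append']
        refine ⟨h3.1, hZ1.2, ?_⟩
        intro v hv hv'
        rcases hZ4 v hv' with h4 | h4 | h4
        · exact h3.2.2 hv h4
        · exact hAB v (List.mem_append_left _ hv) h4
        · exact hW1 v (List.mem_append_left _ hv) h4
    have h3 := hlong _ hTZ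
    rw [List.length_append] at h3
    omega
  rcases es (fun x => L₂.idxOf (e x)) (n - 1) (n - 1) L₁ hL₁.2 hinj hlen with
    ⟨l, hl1, hl2, hl3⟩ | ⟨l, hl1, hl2, hl3⟩
  · refine fin l L₂ h2 h12 hW2 hl1 (by omega) ?_
    refine sublist_of_idx L₂ _ ?_ ?_
    · intro x hx
      obtain ⟨a, ha, rfl⟩ := List.mem_map.1 hx
      exact (hb a (hl1.subset ha)).2.1
    · rw [List.pairwise_map]
      exact hl3
  · refine fin l L₂.reverse h2.reverse (fun v hv hv' => h12 v hv (List.mem_reverse.1 hv'))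
      (fun v hv => hW2 v (List.mem_reverse.1 hv)) hl1 (by omega) ?_
    refine sublist_of_idx_rev L₂ _ ?_ ?_
    · intro x hx
      obtain ⟨a, ha, rfl⟩ := List.mem_map.1 hx
      exact (hb a (hl1.subset ha)).2.1
    · rw [List.pairwise_map]
      exact hl3

/-- The main step. -/
theorem core2 [Fintype V] {G : SimpleGraph V} {a b n : ℕ} (hn : 2 ≤ n) (hab : b < n ^ 3)
    (ht : ∀ l, IsP G l → l.length ≤ a + b) {X : Finset V} (hX : MinHit G b X)
    (R : List V) (hR : IsP G R) (hRX : ∀ v ∈ R, v ∈ X) : R.length ≤ a + 5 * n ^ 2 := by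
  classical
  by_contra hcon
  push Not at hcon
  have hn2 : 2 * n ≤ n ^ 2 := by nlinarith
  -- cut `R`
  obtain ⟨R₁, R₁', R₀, R₂, R₂', hRe, l1, l1', l0, l2, l2'⟩ : ∃ R₁ R₁' R₀ R₂ R₂' : List V,
      R = R₁ ++ (R₁' ++ (R₀ ++ (R₂ ++ R₂'))) ∧ R₁.length = n ^ 2 - 2 ∧
      R₁'.length = n ^ 2 - n ∧
      a + n ≤ R₀.length ∧ R₂.length = 2 * n ^ 2 - 1 ∧ R₂'.length = n ^ 2 - n := by
    refine ⟨R.take (n ^ 2 - 2), (R.drop (n ^ 2 - 2)).take (n ^ 2 - n),
      ((R.drop (n ^ 2 - 2)).drop (n ^ 2 - n)).take (R.length - (5 * n ^ 2 - 2 * n - 3)),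
      (((R.drop (n ^ 2 - 2)).drop (n ^ 2 - n)).drop
        (R.length - (5 * n ^ 2 - 2 * n - 3))).take (2 * n ^ 2 - 1),
      (((R.drop (n ^ 2 - 2)).drop (n ^ 2 - n)).drop
        (R.length - (5 * n ^ 2 - 2 * n - 3))).drop (2 * n ^ 2 - 1),
      ?_, ?_, ?_, ?_, ?_, ?_⟩
    · simp only [List.take_append_drop]
    · rw [List.length_take]; omega
    · rw [List.length_take, List.length_drop]; omega
    · rw [List.length_take, List.length_drop, List.length_drop]; omega
    · rw [List.length_take, List.length_drop, List.length_drop, List.length_drop]; omega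
    · rw [List.length_drop, List.length_drop, List.length_drop, List.length_drop]; omega
  subst hRe
  have hnd := hR.2
  rw [List.nodup_append', List.nodup_append', List.nodup_append', List.nodup_append'] at hnd
  obtain ⟨nd1, ⟨nd1', ⟨nd0, ⟨nd2, nd2', dj2⟩, dj0⟩, dj1'⟩, dj1⟩ := hnd
  have ip1' : IsP G R₁' := ⟨hR.1.right_of_append.left_of_append, nd1'⟩
  have ip2' : IsP G R₂' :=
    ⟨hR.1.right_of_append.right_of_append.right_of_append.right_of_append, nd2'⟩
  -- crossing
  have cr1 : ∀ P Q, Long G b P → Long G b Q → (∀ v ∈ P, v ∈ X → v ∈ R₁') →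
      (∀ v ∈ Q, v ∈ X → v ∈ R₂') → ∃ v ∈ P, v ∈ Q := by
    intro P Q hP hQ hPI hQJ
    by_contra h
    push Not at h
    have e1 : R₁ ++ (R₁' ++ (R₀ ++ (R₂ ++ R₂'))) =
        R₁ ++ (R₁' ++ ((R₀ ++ R₂) ++ (R₂' ++ []))) := by simp
    rw [e1] at hR hRX
    obtain ⟨l, h1, h2⟩ := cross hX.1 hR hRX hP hQ hPI hQJ h
    have h3 := ht l h1
    rw [List.length_append] at h2
    omega
  have cr2 : ∀ P Q, Long G b P → Long G b Q → (∀ v ∈ P, v ∈ X → v ∈ R₁) →
      (∀ v ∈ Q, v ∈ X → v ∈ R₂) → ∃ v ∈ P, v ∈ Q := by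
    intro P Q hP hQ hPI hQJ
    by_contra h
    push Not at h
    have e1 : R₁ ++ (R₁' ++ (R₀ ++ (R₂ ++ R₂'))) =
        [] ++ (R₁ ++ ((R₁' ++ R₀) ++ (R₂ ++ R₂'))) := by simp
    rw [e1] at hR hRX
    obtain ⟨l, h1, h2⟩ := cross hX.1 hR hRX hP hQ hPI hQJ h
    have h3 := ht l h1
    rw [List.length_append] at h2
    omega
  have in1 : ∀ v ∈ R₁, v ∈ X := fun v hv => hRX v (by simp only [List.mem_append]; tauto)
  have in1' : ∀ v ∈ R₁', v ∈ X := fun v hv => hRX v (by simp only [List.mem_append]; tauto)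
  have in2 : ∀ v ∈ R₂, v ∈ X := fun v hv => hRX v (by simp only [List.mem_append]; tauto)
  have in2' : ∀ v ∈ R₂', v ∈ X := fun v hv => hRX v (by simp only [List.mem_append]; tauto)
  have card_of : ∀ L : List V, L.Nodup → L.toFinset.card = L.length := fun L hL =>
    List.toFinset_card_of_nodup hL
  -- exchange for lists
  have exch : ∀ (L : List V), L.Nodup → (∀ v ∈ L, v ∈ X) → ∀ Y : Finset V, Y.card < L.length →
      ∃ l, Long G b l ∧ (∀ v ∈ l, v ∈ X → v ∈ L) ∧ (∀ v ∈ l, v ∉ Y) := by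
    intro L hL hLX Y hY
    obtain ⟨l, h1, h2, h3⟩ := hX.exch (I := L.toFinset) (Y := Y)
      (fun v hv => hLX v (List.mem_toFinset.1 hv)) (by rw [card_of L hL]; exact hY)
    exact ⟨l, h1, fun v hv hvX => List.mem_toFinset.1 (h2 v hv hvX), h3⟩
  -- bridges
  set U₁ : Finset V := (Finset.univ \ X) ∪ (R₁'.toFinset ∪ R₂'.toFinset) with hU₁
  obtain ⟨bm, be, hb⟩ := link G U₁ R₁'.toFinset R₂'.toFinset
    (fun v hv => Finset.mem_union_right _ (Finset.mem_union_left _ hv))
    (by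
      rw [Finset.disjoint_left]
      intro v hv hv'
      exact dj1' (List.mem_toFinset.1 hv)
        (by simp only [List.mem_append]; right; right; exact List.mem_toFinset.1 hv'))
    (by
      intro Y hY
      rw [card_of _ nd1'] at hY
      obtain ⟨P, hP, hPI, hPY⟩ := exch R₁' nd1' in1' Y hY
      obtain ⟨Q, hQ, hQJ, hQY⟩ := exch R₂' nd2' in2' Y (by omega)
      obtain ⟨v, hvP, hvQ⟩ := cr1 P Q hP hQ hPI hQJ
      obtain ⟨x, hx, hxX⟩ := hX.1 P hP
      obtain ⟨y, hy, hyX⟩ := hX.1 Q hQ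
      obtain ⟨s, hs1, hs2, hs3⟩ := join hP.1.1 hQ.1.1 hx hvP hvQ hy
      refine ⟨x :: s, hs1, ?_, ⟨x, rfl, List.mem_toFinset.2 (hPI x hx hxX)⟩,
        ⟨y, hs2, List.mem_toFinset.2 (hQJ y hy hyX)⟩⟩
      intro w hw
      rcases hs3 w hw with h | h
      · refine ⟨?_, hPY w h⟩
        by_cases hwX : w ∈ X
        · exact Finset.mem_union_right _ (Finset.mem_union_left _
            (List.mem_toFinset.2 (hPI w h hwX)))
        · exact Finset.mem_union_left _ (Finset.mem_sdiff.2 ⟨Finset.mem_univ _, hwX⟩)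
      · refine ⟨?_, hQY w h⟩
        by_cases hwX : w ∈ X
        · exact Finset.mem_union_right _ (Finset.mem_union_right _
            (List.mem_toFinset.2 (hQJ w h hwX)))
        · exact Finset.mem_union_left _ (Finset.mem_sdiff.2 ⟨Finset.mem_univ _, hwX⟩))
  -- inner vertices of the bridges are outside `X`
  have hbX : ∀ a ∈ R₁', ∀ v ∈ bm a, v ∉ X := by
    intro a ha v hv hvX
    obtain ⟨h1, h2, h3⟩ := (hb a (List.mem_toFinset.2 ha)).2.2.1 v hv
    rcases Finset.mem_union.1 h1 with h | h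
    · exact (Finset.mem_sdiff.1 h).2 hvX
    · rcases Finset.mem_union.1 h with h | h
      · exact h2 h
      · exact h3 h
  -- a short bridge
  have hnn : (n - 1) * (n - 1) < n ^ 2 - n := by
    obtain ⟨m, rfl⟩ : ∃ m, n = m + 2 := ⟨n - 2, by omega⟩
    have e1 : (m + 2) ^ 2 - (m + 2) = (m + 2) * (m + 1) := by
      have : (m + 2) ^ 2 = (m + 2) * (m + 1) + (m + 2) := by ring
      omega
    rw [e1]
    have e2 : m + 2 - 1 = m + 1 := rfl
    rw [e2]
    nlinarith
  have ipT : IsP G ((R₀ ++ R₂).reverse ++ R₁'.reverse) := by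
    have e1 : R₁ ++ (R₁' ++ (R₀ ++ (R₂ ++ R₂'))) = R₁ ++ ((R₁' ++ (R₀ ++ R₂)) ++ R₂') := by simp
    rw [e1] at hR
    have h1 : IsP G (R₁' ++ (R₀ ++ R₂)) :=
      ⟨hR.1.right_of_append.left_of_append,
        (List.nodup_append'.1 (List.nodup_append'.1 hR.2).2.1).1⟩
    have h2 := h1.reverse
    rwa [List.reverse_append] at h2
  have mT : ∀ v, v ∈ (R₀ ++ R₂).reverse ++ R₁'.reverse → v ∈ R₀ ∨ v ∈ R₂ ∨ v ∈ R₁' := by
    intro v hv
    simp only [List.mem_append, List.mem_reverse] at hv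
    tauto
  obtain ⟨α, hα', hαs⟩ := short' (T := (R₀ ++ R₂).reverse) (L₁ := R₁'.reverse)
    (W := {v | v ∉ X}) (n := n) (s := n ^ 2) (t := a + b) ipT ip2'
    (by
      intro v hv hv'
      rcases mT v hv with h | h | h
      · exact dj0 h (by simp only [List.mem_append]; right; exact hv')
      · exact dj2 h hv'
      · exact dj1' h (by simp only [List.mem_append]; right; right; exact hv'))
    (by
      intro v hv h
      rcases mT v hv with h' | h' | h'
      · exact h (hRX v (by simp only [List.mem_append]; tauto))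
      · exact h (in2 v h')
      · exact h (in1' v h'))
    (fun v hv h => h (in2' v hv)) (by omega) (by rw [List.length_reverse, l1']; exact hnn) bm be
    (by
      intro a ha
      have ha' := List.mem_reverse.1 ha
      have h1 := hb a (List.mem_toFinset.2 ha')
      exact ⟨h1.1, List.mem_toFinset.1 h1.2.1, fun v hv => hbX a ha' v hv,
        fun a' ha'' hne => h1.2.2.2 a' (List.mem_toFinset.2 (List.mem_reverse.1 ha'')) hne⟩)
    ht (by
      have e1 : n * n ^ 2 = n ^ 3 := by ring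
      rw [e1, List.length_reverse, List.length_append]
      omega)
  have hα := List.mem_reverse.1 hα'
  have hαb := hb α (List.mem_toFinset.2 hα)
  have hω : be α ∈ R₂' := List.mem_toFinset.1 hαb.2.1
  -- a long path which avoids it
  obtain ⟨P₀, hP₀, hPI₀, hPY₀⟩ := exch R₁ nd1 in1 (bm α).toFinset (by
    have := List.toFinset_card_le (bm α)
    omega)
  have hP : Long G b (P₀.take (b + 1)) := by
    refine ⟨⟨?_, hP₀.1.2.sublist (List.take_sublist _ _)⟩, ?_⟩
    · have h1 := hP₀.1.1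
      rw [← List.take_append_drop (b + 1) P₀] at h1
      exact h1.left_of_append
    · have := hP₀.2
      rw [List.length_take]
      omega
  have hPl : (P₀.take (b + 1)).length ≤ n ^ 3 := by
    rw [List.length_take]
    omega
  have hPI : ∀ v ∈ P₀.take (b + 1), v ∈ X → v ∈ R₁ := fun v hv =>
    hPI₀ v (List.mem_of_mem_take hv)
  have hPY : ∀ v ∈ P₀.take (b + 1), v ∉ (bm α).toFinset := fun v hv =>
    hPY₀ v (List.mem_of_mem_take hv)
  generalize P₀.take (b + 1) = P at hP hPl hPI hPY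
  have hPR : ∀ v ∈ P, v ∉ R₁' ++ (R₀ ++ (R₂ ++ R₂')) := by
    intro v hv hv'
    exact dj1 (hPI v hv (hRX v (List.mem_append_right _ hv'))) hv'
  -- links
  set U₂ : Finset V := (Finset.univ \ X) ∪ (R₂.toFinset ∪ P.toFinset) with hU₂
  obtain ⟨lm, le, hl⟩ := link G U₂ R₂.toFinset P.toFinset
    (fun v hv => Finset.mem_union_right _ (Finset.mem_union_left _ hv))
    (by
      rw [Finset.disjoint_left]
      intro v hv hv'
      refine hPR v (List.mem_toFinset.1 hv') ?_
      simp only [List.mem_append]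
      right; right; left
      exact List.mem_toFinset.1 hv)
    (by
      intro Y hY
      rw [card_of _ nd2] at hY
      obtain ⟨Q, hQ, hQJ, hQY⟩ := exch R₂ nd2 in2 Y hY
      obtain ⟨v, hvP, hvQ⟩ := cr2 P Q hP hQ hPI hQJ
      obtain ⟨y, hy, hyX⟩ := hX.1 Q hQ
      obtain ⟨s, hs1, hs2, hs3⟩ := seg hQ.1.1 hy hvQ
      refine ⟨y :: s, hs1, ?_, ⟨y, rfl, List.mem_toFinset.2 (hQJ y hy hyX)⟩,
        ⟨v, List.mem_of_getLast? hs3, List.mem_toFinset.2 hvP⟩⟩
      intro w hw
      refine ⟨?_, hQY w (hs2 w hw)⟩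
      by_cases hwX : w ∈ X
      · exact Finset.mem_union_right _ (Finset.mem_union_left _
          (List.mem_toFinset.2 (hQJ w (hs2 w hw) hwX)))
      · exact Finset.mem_union_left _ (Finset.mem_sdiff.2 ⟨Finset.mem_univ _, hwX⟩))
  have hlX : ∀ y ∈ R₂, ∀ v ∈ lm y, v ∉ X ∧ v ∉ P := by
    intro y hy v hv
    obtain ⟨h1, h2, h3⟩ := (hl y (List.mem_toFinset.2 hy)).2.2.1 v hv
    refine ⟨?_, fun h => h3 (List.mem_toFinset.2 h)⟩
    intro hvX
    rcases Finset.mem_union.1 h1 with h | h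
    · exact (Finset.mem_sdiff.1 h).2 hvX
    · rcases Finset.mem_union.1 h with h | h
      · exact h2 h
      · exact h3 h
  -- good links
  set bad : Finset V := R₂.toFinset.filter (fun y => ∃ v ∈ lm y, v ∈ bm α) with hbad
  have hbadc : bad.card + 3 ≤ n ^ 2 := by
    have h1 : bad.card ≤ (bm α).toFinset.card := by
      have h2 : ∀ y ∈ bad, ∃ v ∈ lm y, v ∈ bm α := fun y hy => (Finset.mem_filter.1 hy).2
      choose! g hg1 hg2 using h2
      refine Finset.card_le_card_of_injOn g ?_ ?_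
      · intro y hy
        exact List.mem_toFinset.2 (hg2 y hy)
      · intro y hy y' hy' hyy
        by_contra hne
        have h3 := (hl y (Finset.mem_filter.1 hy).1).2.2.2 y' (Finset.mem_filter.1 hy').1 hne
        refine h3.2 (g y) (hg1 y hy) ?_
        rw [hyy]
        exact hg1 y' hy'
    have h2 := List.toFinset_card_le (bm α)
    omega
  set good : Finset V := R₂.toFinset \ bad with hgood
  have hgoodc : n ^ 2 < good.card := by
    have h1 := Finset.card_le_card_sdiff_add_card (s := R₂.toFinset) (t := bad)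
    rw [card_of _ nd2] at h1
    have h2 : good.card = (R₂.toFinset \ bad).card := rfl
    omega
  have hgm : ∀ y ∈ good, y ∈ R₂ ∧ ∀ v ∈ lm y, v ∉ bm α := by
    intro y hy
    have h1 := Finset.mem_sdiff.1 hy
    refine ⟨List.mem_toFinset.1 h1.1, ?_⟩
    intro v hv hv'
    exact h1.2 (Finset.mem_filter.2 ⟨h1.1, v, hv, hv'⟩)
  have hinj : Set.InjOn le good := by
    intro y hy y' hy' hyy
    by_contra hne
    exact ((hl y (Finset.mem_sdiff.1 hy).1).2.2.2 y' (Finset.mem_sdiff.1 hy').1 hne).1 hyy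
  obtain ⟨z, hz, z', hz', hne, P₁, M, P₂, hPe, hM⟩ := gap (P := P) (T := good.image le) (n := n)
    (by omega)
    (by
      intro v hv
      obtain ⟨y, hy, rfl⟩ := Finset.mem_image.1 hv
      exact List.mem_toFinset.1 (hl y (Finset.mem_sdiff.1 hy).1).2.1)
    (by rw [Finset.card_image_of_injOn hinj]; exact hgoodc)
    hPl
  obtain ⟨y, hy, rfl⟩ := Finset.mem_image.1 hz
  obtain ⟨y', hy', rfl⟩ := Finset.mem_image.1 hz'
  have hyy : y ≠ y' := fun h => hne (by rw [h])
  have hXR : ∀ v, v ∉ X → v ∉ R₁' ++ (R₀ ++ (R₂ ++ R₂')) := fun v hv hv' =>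
    hv (hRX v (List.mem_append_right _ hv'))
  obtain ⟨l, h1, h2⟩ := use_insertion (sm := bm α) (α := α) (ω := be α) hP.1 hR hPR hα hω
    hαb.1
    (fun v hv => ⟨fun h => hPY v h (List.mem_toFinset.2 hv), hXR v (hbX α hα v hv)⟩)
    lm le (hgm y hy).1 (hgm y' hy').1 hyy
    (by
      intro a ha
      have h3 := hl a (List.mem_toFinset.2 ha)
      refine ⟨h3.1, ?_, ?_⟩
      · intro v hv
        exact ⟨(hlX a ha v hv).2, hXR v (hlX a ha v hv).1⟩
      · intro a' ha' hne'
        exact (h3.2.2.2 a' (List.mem_toFinset.2 ha') hne').2)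
    (hgm y hy).2 (hgm y' hy').2 hPe
  have h3 := ht l h1
  have h4 := hP.2
  rw [hPe] at h4
  simp only [List.length_append, List.length_cons] at h4
  omega

end Pool.Agent.Helper41.PP
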