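import Mathlib

/-!
# Long decreasing chains with different labels
-/

namespace Pool.Agent.Helper41.PP

/-- Greedy independent sets. -/
theorem greedy {r : ℕ → ℕ → Prop} {d : ℕ} (hd : 1 ≤ d) :
    ∀ (n : ℕ) (T : Finset ℕ), T.card = n →
      (∀ q ∈ T, ∀ F : Finset ℕ, (∀ i ∈ F, i ∈ T ∧ i < q ∧ r i q) → F.card < d) →
      ∃ I ⊆ T, (∀ i ∈ I, ∀ j ∈ I, i < j → ¬ r i j) ∧ T.card ≤ d * I.card := by
  classical
  intro n
  induction n using Nat.strong_induction_on with
  | _ n ih =>
      intro T hT hdeg
      rcases T.eq_empty_or_nonempty with h0 | h0
      · refine ⟨∅, Finset.empty_subset _, ?_, by rw [h0]; simp⟩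
        intro i hi
        exact absurd hi (Finset.notMem_empty i)
      · set q := T.max' h0 with hq
        have hqT : q ∈ T := T.max'_mem h0
        set F : Finset ℕ := T.filter fun i => i < q ∧ r i q with hF
        have hFc : F.card < d := hdeg q hqT F (fun i hi => by
          rw [hF, Finset.mem_filter] at hi
          exact ⟨hi.1, hi.2⟩)
        set T' : Finset ℕ := (T.erase q) \ F with hT'
        have hsub : T' ⊆ T := fun i hi =>
          Finset.mem_of_mem_erase (Finset.mem_sdiff.1 hi).1
        have hqT' : q ∉ T' := by
          intro h1
          exact absurd rfl (Finset.mem_erase.1 (Finset.mem_sdiff.1 h1).1).1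
        have hlt : T'.card < T.card := by
          refine Finset.card_lt_card ⟨hsub, fun h1 => hqT' (h1 hqT)⟩
        obtain ⟨I, hI, hI2, hI3⟩ := ih T'.card (by omega) T' rfl (by
          intro p hp F' hF'
          refine hdeg p (hsub hp) F' ?_
          intro i hi
          obtain ⟨h1, h2⟩ := hF' i hi
          exact ⟨hsub h1, h2⟩)
        have hqI : q ∉ I := fun h1 => hqT' (hI h1)
        refine ⟨insert q I, ?_, ?_, ?_⟩
        · intro i hi
          rcases Finset.mem_insert.1 hi with h1 | h1
          · rw [h1]; exact hqT
          · exact hsub (hI h1)
        · intro i hi j hj hij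
          rcases Finset.mem_insert.1 hi with h1 | h1
          · rcases Finset.mem_insert.1 hj with h2 | h2
            · omega
            · have h3 := T.le_max' j (hsub (hI h2))
              omega
          · rcases Finset.mem_insert.1 hj with h2 | h2
            · rw [h2]
              intro h3
              have h4 := Finset.mem_sdiff.1 (hI h1)
              refine h4.2 ?_
              rw [hF, Finset.mem_filter]
              exact ⟨Finset.mem_of_mem_erase h4.1, by omega, h3⟩
            · exact hI2 i h1 j h2 hij
        · rw [Finset.card_insert_of_notMem hqI]
          have h1 : T.card ≤ T'.card + F.card + 1 := by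
            have h2 := Finset.card_erase_of_mem hqT
            have h3 : (T.erase q).card ≤ T'.card + F.card := by
              have h4 := Finset.card_le_card_sdiff_add_card (s := T.erase q) (t := F)
              omega
            have h5 : 0 < T.card := Finset.card_pos.2 h0
            omega
          calc T.card ≤ T'.card + F.card + 1 := h1
            _ ≤ d * I.card + d := by omega
            _ = d * (I.card + 1) := by ring

section

variable {κ : Type} (att : κ → ℕ → Prop) (c t : ℕ)

/-- Two numbers have a common label. -/
def Com (i j : ℕ) : Prop := ∃ k, att k i ∧ att k j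

open Classical in
/-- Good numbers: `Gd s q` allows `s` more steps. -/
def Gd : ℕ → ℕ → Prop
  | 0, _ => True
  | s + 1, q => (t - s - 1) * (c - 1) + 1 ≤
      ((Finset.range q).filter fun r => Com att r q ∧ Gd s (r + 1)).card

end

variable {κ : Type} {att : κ → ℕ → Prop} {c t N : ℕ} {High : ℕ → Prop}

open Classical in
theorem bad_card
    (h1 : ∀ I : Finset ℕ, (∀ i ∈ I, i < N) → (∀ i ∈ I, ¬ High i) →
      (∀ i ∈ I, ∀ j ∈ I, i ≠ j → ¬ Com att i j) → I.card ≤ c)
    (h2 : ∀ I : Finset ℕ, (∀ i ∈ I, i < N ∧ High i) → I.card ≤ c) (s : ℕ) :
    ((Finset.range N).filter fun q => ¬ Gd att c t s q).card ≤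
      ∑ j ∈ Finset.range s, (((t - j - 1) * (c - 1) + 1) * c + c) := by
  induction s with
  | zero =>
      rw [Finset.range_zero, Finset.sum_empty]
      rw [Nat.le_zero, Finset.card_eq_zero, Finset.filter_eq_empty_iff]
      intro q _ hq
      exact hq trivial
  | succ s ih =>
      rw [Finset.sum_range_succ]
      set d := (t - s - 1) * (c - 1) + 1 with hd
      set B' := (Finset.range N).filter fun q => ¬ Gd att c t (s + 1) q with hB'
      set B := (Finset.range N).filter fun q => ¬ Gd att c t s q with hB
      set U := B'.filter fun q => q + 1 ∈ B with hU
      set T := B'.filter fun q => q + 1 ∉ B with hT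
      set TL := T.filter fun q => ¬ High q with hTL
      set TH := T.filter fun q => High q with hTH
      have e1 : B'.card = U.card + T.card := by
        rw [hU, hT, Finset.card_filter_add_card_filter_not]
      have e2 : T.card = TH.card + TL.card := by
        rw [hTH, hTL, Finset.card_filter_add_card_filter_not]
      have hUc : U.card ≤ B.card := by
        have h3 : (U.image fun q => q + 1) ⊆ B := by
          intro q hq
          obtain ⟨p, hp, rfl⟩ := Finset.mem_image.1 hq
          exact (Finset.mem_filter.1 hp).2
        have h4 : (U.image fun q => q + 1).card = U.card :=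
          Finset.card_image_of_injective _ (fun a b hab => Nat.succ.inj hab)
        rw [← h4]
        exact Finset.card_le_card h3
      have hTN : ∀ q ∈ T, q < N := by
        intro q hq
        exact Finset.mem_range.1 (Finset.mem_filter.1 (Finset.mem_filter.1 hq).1).1
      have hTHc : TH.card ≤ c := h2 TH (fun q hq => by
        have := Finset.mem_filter.1 hq
        exact ⟨hTN q this.1, this.2⟩)
      have hTLc : TL.card ≤ d * c := by
        obtain ⟨I, hI, hI2, hI3⟩ := greedy (r := Com att) (d := d) (by omega) TL.card TL rfl (by
          intro q hq F hF
          have hqB : ¬ Gd att c t (s + 1) q :=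
            (Finset.mem_filter.1 (Finset.mem_filter.1 (Finset.mem_filter.1 hq).1).1).2
          have hqN : q < N := hTN q (Finset.mem_filter.1 hq).1
          have h3 : F ⊆ (Finset.range q).filter fun r => Com att r q ∧ Gd att c t s (r + 1) := by
            intro r hr
            obtain ⟨h4, h5, h6⟩ := hF r hr
            rw [Finset.mem_filter, Finset.mem_range]
            refine ⟨h5, h6, ?_⟩
            have h7 : r + 1 ∉ B := (Finset.mem_filter.1 (Finset.mem_filter.1 h4).1).2
            by_contra h8
            exact h7 (Finset.mem_filter.2 ⟨Finset.mem_range.2 (by omega), h8⟩)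
          have h4 := Finset.card_le_card h3
          have h5 : ¬ d ≤ ((Finset.range q).filter fun r =>
              Com att r q ∧ Gd att c t s (r + 1)).card := hqB
          omega)
        have h3 : I.card ≤ c := by
          refine h1 I (fun i hi => hTN i (Finset.mem_filter.1 (hI hi)).1)
            (fun i hi => (Finset.mem_filter.1 (hI hi)).2) ?_
          intro i hi j hj hij h4
          rcases lt_or_gt_of_ne hij with h5 | h5
          · exact hI2 i hi j hj h5 h4
          · obtain ⟨k, hk1, hk2⟩ := h4
            exact hI2 j hj i hi h5 ⟨k, hk2, hk1⟩
        exact le_trans hI3 (Nat.mul_le_mul_left _ h3)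
      omega

theorem sum_bound (c : ℕ) : ∀ t : ℕ,
    2 * ∑ j ∈ Finset.range t, (((t - j - 1) * (c - 1) + 1) * c + c) =
      c * ((c - 1) * (t * (t - 1)) + 4 * t) := by
  intro t
  have h1 : ∑ j ∈ Finset.range t, (((t - j - 1) * (c - 1) + 1) * c + c) =
      ∑ j ∈ Finset.range t, ((j * (c - 1) + 1) * c + c) := by
    rw [← Finset.sum_range_reflect]
    apply Finset.sum_congr rfl
    intro j hj
    have h2 := Finset.mem_range.1 hj
    have h3 : t - (t - 1 - j) - 1 = j := by omega
    rw [h3]
  rw [h1]
  induction t with
  | zero => simp
  | succ t ih =>
      have h2 : ∑ j ∈ Finset.range t, (((t - j - 1) * (c - 1) + 1) * c + c) =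
          ∑ j ∈ Finset.range t, ((j * (c - 1) + 1) * c + c) := by
        rw [← Finset.sum_range_reflect]
        apply Finset.sum_congr rfl
        intro j hj
        have h2 := Finset.mem_range.1 hj
        have h3 : t - (t - 1 - j) - 1 = j := by omega
        rw [h3]
      rw [Finset.sum_range_succ, mul_add, ih h2]
      cases t with
      | zero => simp; ring
      | succ t =>
          simp only [Nat.add_sub_cancel]
          ring

/-- Chains with different labels. -/
theorem count_chain (ht : 0 < t) (h0 : ∀ k i, att k i → att k (i + 1) → False)
    (h1 : ∀ I : Finset ℕ, (∀ i ∈ I, i < N) → (∀ i ∈ I, ¬ High i) →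
      (∀ i ∈ I, ∀ j ∈ I, i ≠ j → ¬ Com att i j) → I.card ≤ c)
    (h2 : ∀ I : Finset ℕ, (∀ i ∈ I, i < N ∧ High i) → I.card ≤ c)
    (h3 : ∀ (k : κ) (I : Finset ℕ), (∀ i ∈ I, i < N ∧ att k i) → I.card ≤ c + 1)
    (hN : c * ((c - 1) * (t * (t - 1)) + 4 * t) < 2 * N) :
    ∃ (y x : ℕ → ℕ) (k : ℕ → κ), y 0 < N ∧
      (∀ i < t, x i < y i ∧ y (i + 1) = x i + 1 ∧ att (k i) (y i) ∧ att (k i) (x i)) ∧
      ∀ i < t, ∀ j < t, k i = k j → i = j := by
  classical
  have hbad := bad_card (t := t) h1 h2 t
  have hsum := sum_bound c t
  -- the start
  obtain ⟨y₀, hy₀, hgd⟩ : ∃ q, q < N ∧ Gd att c t t q := by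
    by_contra hcon
    push Not at hcon
    have h4 : ((Finset.range N).filter fun q => ¬ Gd att c t t q) = Finset.range N := by
      rw [Finset.filter_eq_self]
      intro q hq
      exact hcon q (Finset.mem_range.1 hq)
    rw [h4, Finset.card_range] at hbad
    omega
  -- finite chains
  have key : ∀ m ≤ t, ∃ (y x : ℕ → ℕ) (k : ℕ → Option κ), y 0 < N ∧ Gd att c t (t - m) (y m) ∧
      (∀ i < m, x i < y i ∧ y (i + 1) = x i + 1 ∧ ∃ K, k i = some K ∧ att K (y i) ∧
        att K (x i)) ∧ ∀ i < m, ∀ j < m, k i = k j → i = j := by
    intro m
    induction m with
    | zero =>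
        intro _
        refine ⟨fun _ => y₀, fun _ => 0, fun _ => none, hy₀, by simpa using hgd, ?_, ?_⟩
        · intro i hi
          omega
        · intro i hi
          omega
    | succ m ih =>
        intro hm
        obtain ⟨y, x, k, hy0, hg, hs, hinj⟩ := ih (by omega)
        have hyle : ∀ i ≤ m, y m ≤ y i ∧ (i < m → y m < y i ∨ y m = y i) := by
          intro i hi
          have : ∀ n, i + n ≤ m → y (i + n) ≤ y i := by
            intro n
            induction n with
            | zero => intro _; exact le_rfl
            | succ n ihn =>
                intro hn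
                have h4 := ihn (by omega)
                obtain ⟨h5, h6, _⟩ := hs (i + n) (by omega)
                have h7 : i + (n + 1) = i + n + 1 := by ring
                rw [h7, h6]
                omega
          have h4 := this (m - i) (by omega)
          have h5 : i + (m - i) = m := by omega
          rw [h5] at h4
          exact ⟨h4, fun _ => by omega⟩
        have hyN : y m < N := lt_of_le_of_lt (hyle 0 (Nat.zero_le m)).1 hy0
        -- the candidates
        have e1 : t - m = (t - (m + 1)) + 1 := by omega
        rw [e1] at hg
        set s := t - (m + 1) with hs'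
        have hg' : (t - s - 1) * (c - 1) + 1 ≤ ((Finset.range (y m)).filter fun r =>
            Com att r (y m) ∧ Gd att c t s (r + 1)).card := hg
        have e2 : t - s - 1 = m := by omega
        rw [e2] at hg'
        set Cd := (Finset.range (y m)).filter fun r => Com att r (y m) ∧ Gd att c t s (r + 1)
          with hCd
        -- killed candidates
        set Kl : ℕ → Finset ℕ := fun j => (Finset.range (y m)).filter fun r =>
          ∃ K, k j = some K ∧ att K r ∧ att K (y m) with hKl
        have hKlc : ∀ j < m, (Kl j).card ≤ c - 1 := by
          intro j hj
          by_cases hne : (Kl j).Nonempty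
          · obtain ⟨r₀, hr₀⟩ := hne
            rw [hKl, Finset.mem_filter, Finset.mem_range] at hr₀
            obtain ⟨h5, K, h6, h7, h8⟩ := hr₀
            obtain ⟨h9, h10, K', h11, h12, h13⟩ := hs j hj
            have hKK : K = K' := Option.some.inj (h6.symm.trans h11)
            subst hKK
            have hyj : y m < y j := by
              have h14 := (hyle j hj.le).1
              rcases Nat.lt_or_ge (y m) (y j) with h15 | h15
              · exact h15
              · exfalso
                have h16 := (hyle (j + 1) hj).1
                have h17 : x j + 1 = y j := by omega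
                rw [← h17] at h12
                exact h0 K _ h13 h12
            have hyjN : y j < N := by
              have : ∀ n, n ≤ m → y n ≤ y 0 := by
                intro n
                induction n with
                | zero => intro _; exact le_rfl
                | succ n ihn =>
                    intro hn
                    have h14 := ihn (by omega)
                    obtain ⟨h15, h16, _⟩ := hs n (by omega)
                    omega
              have h14 := this j hj.le
              omega
            have hdisj1 : y m ∉ Kl j := by
              intro h14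
              rw [hKl, Finset.mem_filter, Finset.mem_range] at h14
              exact lt_irrefl _ h14.1
            have hdisj2 : y j ∉ insert (y m) (Kl j) := by
              intro h14
              rcases Finset.mem_insert.1 h14 with h15 | h15
              · omega
              · rw [hKl, Finset.mem_filter, Finset.mem_range] at h15
                omega
            have h14 := h3 K (insert (y j) (insert (y m) (Kl j))) (by
              intro i hi
              rcases Finset.mem_insert.1 hi with h15 | h15
              · rw [h15]; exact ⟨hyjN, h12⟩
              · rcases Finset.mem_insert.1 h15 with h16 | h16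
                · rw [h16]; exact ⟨hyN, h8⟩
                · rw [hKl, Finset.mem_filter, Finset.mem_range] at h16
                  obtain ⟨h17, K'', h18, h19, _⟩ := h16
                  have hKK : K'' = K := Option.some.inj (h18.symm.trans h6)
                  rw [hKK] at h19
                  exact ⟨by omega, h19⟩)
            rw [Finset.card_insert_of_notMem hdisj2, Finset.card_insert_of_notMem hdisj1] at h14
            omega
          · rw [Finset.not_nonempty_iff_eq_empty] at hne
            rw [hne, Finset.card_empty]
            exact Nat.zero_le _
        have hKU : ((Finset.range m).biUnion Kl).card ≤ m * (c - 1) := by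
          have h5 := Finset.card_biUnion_le_card_mul (Finset.range m) Kl (c - 1)
            (fun j hj => hKlc j (Finset.mem_range.1 hj))
          rwa [Finset.card_range] at h5
        obtain ⟨r, hr, hrK⟩ : ∃ r ∈ Cd, r ∉ (Finset.range m).biUnion Kl := by
          by_contra hcon
          push Not at hcon
          have h5 := Finset.card_le_card (show Cd ⊆ (Finset.range m).biUnion Kl from hcon)
          omega
        rw [hCd, Finset.mem_filter, Finset.mem_range] at hr
        obtain ⟨hr1, ⟨K, hK1, hK2⟩, hr2⟩ := hr
        refine ⟨fun i => if i ≤ m then y i else r + 1, fun i => if i < m then x i else r,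
          fun i => if i < m then k i else some K, ?_, ?_, ?_, ?_⟩
        · simpa using hy0
        · have h5 : ¬ (m + 1 ≤ m) := by omega
          simp only [h5, if_false]
          exact hr2
        · intro i hi
          rcases Nat.lt_or_ge i m with h5 | h5
          · have h6 : i ≤ m := h5.le
            have h7 : i + 1 ≤ m := h5
            simp only [h5, h6, h7, if_true]
            exact hs i h5
          · have h6 : i = m := by omega
            subst h6
            have h7 : ¬ (i + 1 ≤ i) := by omega
            simp only [le_refl, lt_irrefl, h7, if_true, if_false]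
            exact ⟨hr1, trivial, K, rfl, hK2, hK1⟩
        · have hnew : ∀ j < m, k j ≠ some K := by
            intro j hj h5
            refine hrK (Finset.mem_biUnion.2 ⟨j, Finset.mem_range.2 hj, ?_⟩)
            rw [hKl, Finset.mem_filter, Finset.mem_range]
            exact ⟨hr1, K, h5, hK1, hK2⟩
          intro i hi j hj hij
          rcases Nat.lt_or_ge i m with h5 | h5
          · rcases Nat.lt_or_ge j m with h6 | h6
            · simp only [h5, h6, if_true] at hij
              exact hinj i h5 j h6 hij
            · have h7 : ¬ j < m := by omega
              simp only [h5, h7, if_true, if_false] at hij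
              exact absurd hij (hnew i h5)
          · have h7 : ¬ i < m := by omega
            rcases Nat.lt_or_ge j m with h6 | h6
            · simp only [h6, h7, if_true, if_false] at hij
              exact absurd hij.symm (hnew j h6)
            · omega
  obtain ⟨y, x, k, hy0, _, hs, hinj⟩ := key t le_rfl
  obtain ⟨_, _, K₀, _, _⟩ := hs 0 ht
  refine ⟨y, x, fun i => (k i).getD K₀, hy0, ?_, ?_⟩
  · intro i hi
    obtain ⟨h5, h6, K, h7, h8, h9⟩ := hs i hi
    refine ⟨h5, h6, ?_, ?_⟩
    · simp only [h7, Option.getD_some]; exact h8
    · simp only [h7, Option.getD_some]; exact h9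
  · intro i hi j hj hij
    obtain ⟨_, _, K, h7, _, _⟩ := hs i hi
    obtain ⟨_, _, K', h7', _, _⟩ := hs j hj
    refine hinj i hi j hj ?_
    simp only [h7, h7', Option.getD_some] at hij
    rw [h7, h7', hij]

end Pool.Agent.Helper41.PP
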