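import Pool.Agent.Helper41.PP.Ins

/-!
# Cycles as lists, and three ways to use chords
-/

namespace Pool.Agent.Helper41.PP

variable {V : Type}

/-- A cycle, as the list of its vertices. -/
def IsC (G : SimpleGraph V) (l : List V) : Prop :=
  IsP G l ∧ ∀ x ∈ l.getLast?, ∀ y ∈ l.head?, G.Adj x y

theorem IsC.rotate {G : SimpleGraph V} {l₁ l₂ : List V} (h : IsC G (l₁ ++ l₂)) :
    IsC G (l₂ ++ l₁) := by
  obtain ⟨⟨h1, h2⟩, h3⟩ := h
  have hp : (l₂ ++ l₁).Perm (l₁ ++ l₂) := List.perm_append_comm
  by_cases e1 : l₁ = []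
  · subst e1
    refine ⟨⟨by simpa using h1, hp.nodup_iff.2 h2⟩, by simpa using h3⟩
  by_cases e2 : l₂ = []
  · subst e2
    refine ⟨⟨by simpa using h1, hp.nodup_iff.2 h2⟩, by simpa using h3⟩
  rw [List.isChain_append] at h1
  refine ⟨⟨?_, hp.nodup_iff.2 h2⟩, ?_⟩
  · rw [List.isChain_append]
    refine ⟨h1.2.1, h1.1, ?_⟩
    intro x hx y hy
    refine h3 x ?_ y ?_
    · rw [List.getLast?_append_of_ne_nil l₁ e2]
      exact hx
    · rw [List.head?_append_of_ne_nil l₁ e1]
      exact hy
  · intro x hx y hy
    rw [List.getLast?_append_of_ne_nil l₂ e1] at hx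
    rw [List.head?_append_of_ne_nil l₂ e2] at hy
    exact h1.2.2 x hx y hy

theorem IsC.reverse {G : SimpleGraph V} {l : List V} (h : IsC G l) : IsC G l.reverse := by
  refine ⟨h.1.reverse, ?_⟩
  intro x hx y hy
  rw [List.getLast?_reverse] at hx
  rw [List.head?_reverse] at hy
  exact (h.2 y hy x hx).symm

/-- The closing part of a cycle: from `x` back to the start, then from the end back to `z`. -/
theorem IsC.closing {G : SimpleGraph V} {s m t : List V} {x z : V}
    (h : IsC G ((s ++ [x]) ++ (m ++ z :: t))) :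
    (x :: (s.reverse ++ (t.reverse ++ [z]))).IsChain G.Adj := by
  have h1 : ((z :: t) ++ (s ++ [x])).IsChain G.Adj := by
    rw [List.isChain_append]
    refine ⟨?_, ?_, ?_⟩
    · have h2 := h.1.1.right_of_append
      exact h2.right_of_append
    · exact h.1.1.left_of_append
    · intro u hu v hv
      refine h.2 u ?_ v ?_
      · rw [List.getLast?_append_of_ne_nil _ (by simp), List.getLast?_append_of_ne_nil _ (by simp)]
        exact hu
      · rw [List.head?_append_of_ne_nil _ (by simp)]
        exact hv
  have h2 := isChain_reverse' G h1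
  simpa using h2

/-- Insertion of a detour in a cycle. -/
theorem IsC.detour {G : SimpleGraph V} {s t J : List V} {x x' : V}
    (h : IsC G (s ++ x :: x' :: t)) (hJ : IsP G (x :: (J ++ [x'])))
    (hd : ∀ v ∈ J, v ∉ s ++ x :: x' :: t) : IsC G (s ++ x :: (J ++ x' :: t)) := by
  have hc := h.1.1
  refine ⟨⟨?_, ?_⟩, ?_⟩
  · rw [List.isChain_split] at hc ⊢
    refine ⟨hc.1, ?_⟩
    rw [← List.cons_append, List.isChain_split]
    refine ⟨by simpa using hJ.1, ?_⟩
    exact (List.isChain_cons.1 hc.2).2
  · have hp : (s ++ x :: (J ++ x' :: t)).Perm ((s ++ x :: x' :: t) ++ J) := by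
      rw [← Multiset.coe_eq_coe]
      simp only [← Multiset.coe_add, ← Multiset.cons_coe, ← Multiset.singleton_add]
      abel
    rw [hp.nodup_iff, List.nodup_append']
    refine ⟨h.1.2, (List.nodup_append'.1 (List.nodup_cons.1 hJ.2).2).1, ?_⟩
    intro v hv hv'
    exact hd v hv' hv
  · intro u hu v hv
    refine h.2 u ?_ v ?_
    · have e1 : s ++ x :: (J ++ x' :: t) = (s ++ x :: J) ++ x' :: t := by simp
      have e2 : s ++ x :: x' :: t = (s ++ [x]) ++ x' :: t := by simp
      rw [e1, List.getLast?_append_of_ne_nil _ (by simp)] at hu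
      rw [e2, List.getLast?_append_of_ne_nil _ (by simp)]
      exact hu
    · cases s with
      | nil => simpa using hv
      | cons w s => simpa using hv

/-- Two parallel chords in a cycle. -/
theorem IsC.double {G : SimpleGraph V} {s u t J J' : List V} {x x' z z' : V}
    (h : IsC G (s ++ x :: x' :: (u ++ z :: z' :: t))) (hJ : IsP G (x :: (J ++ [z])))
    (hJ' : IsP G (x' :: (J' ++ [z'])))
    (hd : ∀ v ∈ J, v ∉ s ++ x :: x' :: (u ++ z :: z' :: t))
    (hd' : ∀ v ∈ J', v ∉ s ++ x :: x' :: (u ++ z :: z' :: t)) (hJJ : ∀ v ∈ J, v ∉ J') :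
    IsC G (s ++ x :: (J ++ z :: (u.reverse ++ x' :: (J' ++ z' :: t)))) := by
  have hc := h.1.1
  refine ⟨⟨?_, ?_⟩, ?_⟩
  · rw [List.isChain_split] at hc ⊢
    refine ⟨hc.1, ?_⟩
    rw [← List.cons_append, List.isChain_split]
    refine ⟨by simpa using hJ.1, ?_⟩
    have h1 := (List.isChain_cons.1 hc.2).2
    rw [← List.cons_append, List.isChain_split] at h1
    rw [← List.cons_append, List.isChain_split]
    refine ⟨?_, ?_⟩
    · have h2 := isChain_reverse' G h1.1
      simpa using h2
    · rw [← List.cons_append, List.isChain_split]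
      refine ⟨by simpa using hJ'.1, ?_⟩
      exact (List.isChain_cons.1 h1.2).2
  · have hp : (s ++ x :: (J ++ z :: (u.reverse ++ x' :: (J' ++ z' :: t)))).Perm
        ((s ++ x :: x' :: (u ++ z :: z' :: t)) ++ (J ++ J')) := by
      rw [← Multiset.coe_eq_coe]
      simp only [← Multiset.coe_add, ← Multiset.cons_coe, Multiset.coe_reverse,
        ← Multiset.singleton_add]
      abel
    rw [hp.nodup_iff, List.nodup_append']
    refine ⟨h.1.2, ?_, ?_⟩
    · rw [List.nodup_append']
      exact ⟨(List.nodup_append'.1 (List.nodup_cons.1 hJ.2).2).1,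
        (List.nodup_append'.1 (List.nodup_cons.1 hJ'.2).2).1, fun v hv hv' => hJJ v hv hv'⟩
    · intro v hv hv'
      rcases List.mem_append.1 hv' with h1 | h1
      · exact hd v h1 hv
      · exact hd' v h1 hv
  · intro p hp q hq
    refine h.2 p ?_ q ?_
    · have e1 : s ++ x :: (J ++ z :: (u.reverse ++ x' :: (J' ++ z' :: t))) =
          (s ++ x :: (J ++ z :: (u.reverse ++ x' :: J'))) ++ z' :: t := by simp
      have e2 : s ++ x :: x' :: (u ++ z :: z' :: t) =
          (s ++ x :: x' :: (u ++ [z])) ++ z' :: t := by simp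
      rw [e1, List.getLast?_append_of_ne_nil _ (by simp)] at hp
      rw [e2, List.getLast?_append_of_ne_nil _ (by simp)]
      exact hp
    · cases s with
      | nil => simpa using hq
      | cons w s => simpa using hq

/-- A path which covers a cycle and one chord, with two more pieces at its ends. -/
theorem IsC.through {G : SimpleGraph V} {s u t J A₁ A₂ : List V} {x x' z z' : V}
    (h : IsC G (s ++ x :: x' :: (u ++ z :: z' :: t)))
    (hJ : IsP G (x' :: (J ++ [z']))) (h1 : IsP G (x :: A₁)) (h2 : IsP G (z :: A₂))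
    (hd : ∀ v ∈ J, v ∉ s ++ x :: x' :: (u ++ z :: z' :: t))
    (hd1 : ∀ v ∈ A₁, v ∉ s ++ x :: x' :: (u ++ z :: z' :: t))
    (hd2 : ∀ v ∈ A₂, v ∉ s ++ x :: x' :: (u ++ z :: z' :: t))
    (hJ1 : ∀ v ∈ A₁, v ∉ J) (hJ2 : ∀ v ∈ A₂, v ∉ J) (h12 : ∀ v ∈ A₁, v ∉ A₂) :
    ∃ l, IsP G l ∧ l.length = (s ++ x :: x' :: (u ++ z :: z' :: t)).length + J.length +
      A₁.length + A₂.length := by
  refine ⟨A₁.reverse ++ x :: ((s.reverse ++ t.reverse) ++ z' :: (J.reverse ++
    x' :: (u ++ z :: A₂))), ⟨?_, ?_⟩, ?_⟩
  · rw [List.isChain_split]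
    refine ⟨?_, ?_⟩
    · have h3 := isChain_reverse' G h1.1
      simpa using h3
    · rw [← List.cons_append, List.isChain_split]
      refine ⟨?_, ?_⟩
      · have e1 : s ++ x :: x' :: (u ++ z :: z' :: t) =
            (s ++ [x]) ++ ((x' :: (u ++ [z])) ++ z' :: t) := by simp
        rw [e1] at h
        have h3 := h.closing
        simpa using h3
      · rw [← List.cons_append, List.isChain_split]
        refine ⟨?_, ?_⟩
        · have h3 := isChain_reverse' G hJ.1
          simpa using h3
        · rw [← List.cons_append, List.isChain_split]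
          refine ⟨?_, h2.1⟩
          have hc := h.1.1
          rw [List.isChain_split] at hc
          have h3 := (List.isChain_cons.1 hc.2).2
          rw [← List.cons_append, List.isChain_split] at h3
          exact h3.1
  · have hp : (A₁.reverse ++ x :: ((s.reverse ++ t.reverse) ++ z' :: (J.reverse ++
        x' :: (u ++ z :: A₂)))).Perm ((s ++ x :: x' :: (u ++ z :: z' :: t)) ++
          (J ++ (A₁ ++ A₂))) := by
      rw [← Multiset.coe_eq_coe]
      simp only [← Multiset.coe_add, ← Multiset.cons_coe, Multiset.coe_reverse,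
        ← Multiset.singleton_add]
      abel
    rw [hp.nodup_iff, List.nodup_append']
    refine ⟨h.1.2, ?_, ?_⟩
    · rw [List.nodup_append', List.nodup_append']
      refine ⟨(List.nodup_append'.1 (List.nodup_cons.1 hJ.2).2).1,
        ⟨(List.nodup_cons.1 h1.2).2, (List.nodup_cons.1 h2.2).2, fun v hv hv' => h12 v hv hv'⟩,
        ?_⟩
      intro v hv hv'
      rcases List.mem_append.1 hv' with h3 | h3
      · exact hJ1 v h3 hv
      · exact hJ2 v h3 hv
    · intro v hv hv'
      rcases List.mem_append.1 hv' with h3 | h3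
      · exact hd v h3 hv
      · rcases List.mem_append.1 h3 with h3 | h3
        · exact hd1 v h3 hv
        · exact hd2 v h3 hv
  · simp only [List.length_append, List.length_cons, List.length_reverse]
    omega

/-- A path which covers a cycle, with two more pieces at its ends. -/
theorem IsC.open' {G : SimpleGraph V} {s t A₁ A₂ : List V} {x x' : V}
    (h : IsC G (s ++ x :: x' :: t)) (h1 : IsP G (x :: A₁)) (h2 : IsP G (x' :: A₂))
    (hd1 : ∀ v ∈ A₁, v ∉ s ++ x :: x' :: t) (hd2 : ∀ v ∈ A₂, v ∉ s ++ x :: x' :: t)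
    (h12 : ∀ v ∈ A₁, v ∉ A₂) :
    ∃ l, IsP G l ∧ l.length = (s ++ x :: x' :: t).length + A₁.length + A₂.length := by
  refine ⟨A₁.reverse ++ x :: ((s.reverse ++ t.reverse) ++ x' :: A₂), ⟨?_, ?_⟩, ?_⟩
  · rw [List.isChain_split]
    refine ⟨?_, ?_⟩
    · have h3 := isChain_reverse' G h1.1
      simpa using h3
    · rw [← List.cons_append, List.isChain_split]
      refine ⟨?_, h2.1⟩
      have e1 : s ++ x :: x' :: t = (s ++ [x]) ++ ([] ++ x' :: t) := by simp
      rw [e1] at h
      have h3 := h.closing
      simpa using h3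
  · have hp : (A₁.reverse ++ x :: ((s.reverse ++ t.reverse) ++ x' :: A₂)).Perm
        ((s ++ x :: x' :: t) ++ (A₁ ++ A₂)) := by
      rw [← Multiset.coe_eq_coe]
      simp only [← Multiset.coe_add, ← Multiset.cons_coe, Multiset.coe_reverse,
        ← Multiset.singleton_add]
      abel
    rw [hp.nodup_iff, List.nodup_append']
    refine ⟨h.1.2, ?_, ?_⟩
    · rw [List.nodup_append']
      exact ⟨(List.nodup_cons.1 h1.2).2, (List.nodup_cons.1 h2.2).2,
        fun v hv hv' => h12 v hv hv'⟩
    · intro v hv hv'
      rcases List.mem_append.1 hv' with h3 | h3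
      · exact hd1 v h3 hv
      · exact hd2 v h3 hv
  · simp only [List.length_append, List.length_cons, List.length_reverse]
    omega

/-- Two pieces which meet give a path between their starts. -/
theorem join_pieces {G : SimpleGraph V} {x x' : V} {J₁ J₂ : List V} (hne : x ≠ x')
    (h1 : IsP G (x :: J₁)) (h2 : IsP G (x' :: J₂)) (hx : x ∉ J₂) (hx' : x' ∉ J₁)
    (hm : ∃ v ∈ J₁, v ∈ J₂) :
    ∃ J : List V, J ≠ [] ∧ IsP G (x :: (J ++ [x'])) ∧ ∀ v ∈ J, v ∈ J₁ ∨ v ∈ J₂ := by
  obtain ⟨A, v, B, rfl, hv, hA⟩ := exists_first (p := fun v => v ∈ J₂) (l := J₁) hm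
  obtain ⟨C, D, rfl⟩ := List.append_of_mem hv
  have n1 := List.nodup_cons.1 h1.2
  have n2 := List.nodup_cons.1 h2.2
  have n1' := List.nodup_append'.1 n1.2
  have n2' := List.nodup_append'.1 n2.2
  refine ⟨A ++ v :: C.reverse, by simp, ⟨?_, ?_⟩, ?_⟩
  · have e1 : x :: ((A ++ v :: C.reverse) ++ [x']) = (x :: A) ++ v :: (C.reverse ++ [x']) := by
      simp
    rw [e1, List.isChain_split]
    refine ⟨?_, ?_⟩
    · have h3 := h1.1
      rw [← List.cons_append, List.isChain_split] at h3
      exact h3.1
    · have h3 := h2.1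
      rw [← List.cons_append, List.isChain_split] at h3
      have h4 := isChain_reverse' G h3.1
      simpa using h4
  · simp only [List.mem_append, List.mem_cons, not_or] at hx hx' hA n1 n2
    rw [List.nodup_cons]
    refine ⟨?_, ?_⟩
    · simp only [List.mem_append, List.mem_cons, List.mem_reverse, List.not_mem_nil, or_false,
        not_or]
      exact ⟨⟨n1.1.1, n1.1.2.1, hx.1⟩, hne⟩
    · rw [List.nodup_append', List.nodup_append']
      refine ⟨⟨n1'.1, ?_, ?_⟩, List.nodup_singleton _, ?_⟩
      · rw [List.nodup_cons]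
        refine ⟨?_, List.nodup_reverse.2 n2'.1⟩
        intro h3
        exact n2'.2.2 (List.mem_reverse.1 h3) List.mem_cons_self
      · intro w hw hw'
        rcases List.mem_cons.1 hw' with h3 | h3
        · rw [h3] at hw
          exact n1'.2.2 hw List.mem_cons_self
        · exact (hA w hw).1 (List.mem_reverse.1 h3)
      · intro w hw hw'
        rw [List.mem_singleton.1 hw'] at hw
        simp only [List.mem_append, List.mem_cons, List.mem_reverse] at hw
        rcases hw with h3 | h3 | h3
        · exact hx'.1 h3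
        · exact hx'.2.1 h3
        · exact n2.1.1 h3
  · intro w hw
    simp only [List.mem_append, List.mem_cons, List.mem_reverse] at hw ⊢
    tauto

/-- Ramsey's theorem for two colours. -/
theorem ramsey {α : Type} [DecidableEq α] (r : α → α → Prop) (hr : ∀ x y, r x y → r y x) :
    ∀ (n s t : ℕ) (F : Finset α), s + t = n → 2 ^ n ≤ F.card →
      (∃ T ⊆ F, T.card = s ∧ ∀ x ∈ T, ∀ y ∈ T, x ≠ y → r x y) ∨
      (∃ T ⊆ F, T.card = t ∧ ∀ x ∈ T, ∀ y ∈ T, x ≠ y → ¬ r x y) := by
  classical
  intro n
  induction n with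
  | zero =>
      intro s t F hst _
      left
      refine ⟨∅, Finset.empty_subset _, by rw [Finset.card_empty]; omega, ?_⟩
      intro x hx
      exact absurd hx (Finset.notMem_empty x)
  | succ n ih =>
      intro s t F hst hF
      rcases Nat.eq_zero_or_pos s with hs | hs
      · left
        refine ⟨∅, Finset.empty_subset _, by rw [Finset.card_empty]; omega, ?_⟩
        intro x hx
        exact absurd hx (Finset.notMem_empty x)
      rcases Nat.eq_zero_or_pos t with ht | ht
      · right
        refine ⟨∅, Finset.empty_subset _, by rw [Finset.card_empty]; omega, ?_⟩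
        intro x hx
        exact absurd hx (Finset.notMem_empty x)
      have hpos : 0 < F.card := lt_of_lt_of_le (by positivity) hF
      obtain ⟨v, hv⟩ := Finset.card_pos.1 hpos
      have hsum := Finset.card_filter_add_card_filter_not (s := F.erase v) (fun w => r v w)
      rw [Finset.card_erase_of_mem hv] at hsum
      have h2 : 2 ^ (n + 1) = 2 ^ n + 2 ^ n := by ring
      have hcase : 2 ^ n ≤ ((F.erase v).filter fun w => r v w).card ∨
          2 ^ n ≤ ((F.erase v).filter fun w => ¬ r v w).card := by
        omega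
      rcases hcase with h | h
      · rcases ih (s - 1) t _ (by omega) h with ⟨T, hT, hTc, hTr⟩ | ⟨T, hT, hTc, hTr⟩
        · left
          have hvT : v ∉ T := fun hvT =>
            absurd rfl (Finset.mem_erase.1 (Finset.mem_filter.1 (hT hvT)).1).1
          refine ⟨insert v T, ?_, ?_, ?_⟩
          · intro x hx
            rcases Finset.mem_insert.1 hx with h3 | h3
            · rw [h3]; exact hv
            · exact (Finset.mem_erase.1 (Finset.mem_filter.1 (hT h3)).1).2
          · rw [Finset.card_insert_of_notMem hvT, hTc]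
            omega
          · intro x hx y hy hxy
            rcases Finset.mem_insert.1 hx with h3 | h3 <;>
              rcases Finset.mem_insert.1 hy with h4 | h4
            · exact absurd (h3.trans h4.symm) hxy
            · rw [h3]; exact (Finset.mem_filter.1 (hT h4)).2
            · rw [h4]; exact hr _ _ (Finset.mem_filter.1 (hT h3)).2
            · exact hTr x h3 y h4 hxy
        · right
          refine ⟨T, ?_, hTc, hTr⟩
          intro x hx
          exact (Finset.mem_erase.1 (Finset.mem_filter.1 (hT hx)).1).2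
      · rcases ih s (t - 1) _ (by omega) h with ⟨T, hT, hTc, hTr⟩ | ⟨T, hT, hTc, hTr⟩
        · left
          refine ⟨T, ?_, hTc, hTr⟩
          intro x hx
          exact (Finset.mem_erase.1 (Finset.mem_filter.1 (hT hx)).1).2
        · right
          have hvT : v ∉ T := fun hvT =>
            absurd rfl (Finset.mem_erase.1 (Finset.mem_filter.1 (hT hvT)).1).1
          refine ⟨insert v T, ?_, ?_, ?_⟩
          · intro x hx
            rcases Finset.mem_insert.1 hx with h3 | h3
            · rw [h3]; exact hv
            · exact (Finset.mem_erase.1 (Finset.mem_filter.1 (hT h3)).1).2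
          · rw [Finset.card_insert_of_notMem hvT, hTc]
            omega
          · intro x hx y hy hxy
            rcases Finset.mem_insert.1 hx with h3 | h3 <;>
              rcases Finset.mem_insert.1 hy with h4 | h4
            · exact absurd (h3.trans h4.symm) hxy
            · rw [h3]; exact (Finset.mem_filter.1 (hT h4)).2
            · rw [h4]; exact fun h5 => (Finset.mem_filter.1 (hT h3)).2 (hr _ _ h5)
            · exact hTr x h3 y h4 hxy

end Pool.Agent.Helper41.PP
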