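import Pool.Agent.Helper41.PP.Core

/-!
# The asymptotic path partition theorem, in terms of walks
-/

namespace Pool.Agent.Helper41.PP

variable {V : Type}

/-- From paths as walks to paths as lists. -/
theorem list_of_walk {G : SimpleGraph V} {t : ℕ}
    (h : ∀ (u v : V) (q : G.Walk u v), q.IsPath → q.support.length ≤ t) :
    ∀ l, IsP G l → l.length ≤ t := by
  intro l hl
  by_cases h0 : l = []
  · rw [h0]; exact Nat.zero_le _
  · have h1 := h _ _ (SimpleGraph.Walk.ofSupport l h0 hl.1) (by
      rw [SimpleGraph.Walk.isPath_def, SimpleGraph.Walk.support_ofSupport]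
      exact hl.2)
    rwa [SimpleGraph.Walk.support_ofSupport] at h1

/-- From a path of an induced subgraph to a path as a list. -/
theorem list_of_induce {G : SimpleGraph V} {S : Set V} {u v : ↥S} (q : (G.induce S).Walk u v)
    (hq : q.IsPath) : IsP G (q.support.map Subtype.val) ∧
      (∀ w ∈ q.support.map Subtype.val, w ∈ S) ∧
      (q.support.map Subtype.val).length = q.support.length := by
  refine ⟨⟨?_, ?_⟩, ?_, List.length_map _⟩
  · rw [List.isChain_map]
    exact q.isChain_adj_support.imp fun a b hab => hab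
  · exact (List.nodup_map_iff Subtype.val_injective).2 hq.support_nodup
  · intro w hw
    obtain ⟨w', _, rfl⟩ := List.mem_map.1 hw
    exact w'.2

/-- The asymptotic path partition theorem. -/
theorem partition [Fintype V] (G : SimpleGraph V) (a b n : ℕ)
    (h : ∀ (u v : V) (q : G.Walk u v), q.IsPath → q.support.length ≤ a + b)
    (hn : a + b ≤ n ^ 3) :
    ∃ S : Set V,
      (∀ (u v : ↥S) (q : (G.induce S).Walk u v), q.IsPath →
        q.support.length ≤ a + 6 * n ^ 2) ∧
      (∀ (u v : ↥Sᶜ) (q : (G.induce Sᶜ).Walk u v), q.IsPath → q.support.length ≤ b) := by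
  classical
  have ht := list_of_walk h
  rcases Nat.lt_or_ge n 2 with h2 | h2
  · refine ⟨Set.univ, ?_, ?_⟩
    · intro u v q hq
      obtain ⟨h3, _, h4⟩ := list_of_induce q hq
      have h5 := ht _ h3
      rw [← h4]
      interval_cases n <;> omega
    · intro u v q hq
      exact absurd (Set.mem_univ u.1) u.2
  · obtain ⟨X, hX⟩ := exists_minHit G b
    refine ⟨↑X, ?_, ?_⟩
    · intro u v q hq
      obtain ⟨h3, h5, h4⟩ := list_of_induce q hq
      rw [← h4]
      exact core h2 hn ht hX _ h3 (fun w hw => Finset.mem_coe.1 (h5 w hw))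
    · intro u v q hq
      obtain ⟨h3, h5, h4⟩ := list_of_induce q hq
      rw [← h4]
      by_contra hcon
      obtain ⟨w, hw, hwX⟩ := hX.1 _ ⟨h3, not_le.1 hcon⟩
      exact h5 w hw (Finset.mem_coe.2 hwX)

end Pool.Agent.Helper41.PP
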