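import Pool.Agent.Helper41.PP.Final
import Pool.Agent.Helper41.PP.Core2
import Pool.Agent.Helper41.PP.Exact

/-!
# Path partition theorems in terms of walks and of maximum sets
-/

namespace Pool.Agent.Helper41.PP

variable {V : Type}

/-- The graph induced on `S` has no path with more than `t` vertices. -/
def Tau (G : SimpleGraph V) (S : Set V) (t : ℕ) : Prop :=
  ∀ (u v : ↥S) (q : (G.induce S).Walk u v), q.IsPath → q.support.length ≤ t

theorem tau_iff {G : SimpleGraph V} {S : Set V} {t : ℕ} :
    Tau G S t ↔ ∀ l, IsP G l → (∀ v ∈ l, v ∈ S) → l.length ≤ t := by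
  constructor
  · intro h l hl hS
    by_cases h0 : l = []
    · rw [h0]; exact Nat.zero_le _
    · have hl' : IsP (G.induce S) (l.pmap (fun v hv => (⟨v, hv⟩ : ↥S)) hS) := by
        refine ⟨?_, ?_⟩
        · exact List.isChain_pmap_of_isChain (R := G.Adj) (S := (G.induce S).Adj)
            (p := fun v => v ∈ S) (f := fun v hv => (⟨v, hv⟩ : ↥S))
            (fun a b ha hb hab => hab) hl.1 hS
        · exact hl.2.pmap (fun a ha b hb hab => congrArg Subtype.val hab)
      have h0' : l.pmap (fun v hv => (⟨v, hv⟩ : ↥S)) hS ≠ [] := by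
        intro h1
        apply h0
        have h2 := congrArg List.length h1
        rw [List.length_pmap, List.length_nil] at h2
        exact List.length_eq_zero_iff.1 h2
      have h1 := h _ _ (SimpleGraph.Walk.ofSupport _ h0' hl'.1) (by
        rw [SimpleGraph.Walk.isPath_def, SimpleGraph.Walk.support_ofSupport]
        exact hl'.2)
      rwa [SimpleGraph.Walk.support_ofSupport, List.length_pmap] at h1
  · intro h u v q hq
    obtain ⟨h1, h2, h3⟩ := list_of_induce q hq
    rw [← h3]
    exact h _ h1 h2

/-- The complement of a maximum set without long paths. -/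
theorem minHit_compl [Fintype V] [DecidableEq V] {G : SimpleGraph V} {b : ℕ} {M : Finset V}
    (hM : Tau G (M : Set V) b) (hmax : ∀ M' : Finset V, Tau G (M' : Set V) b → M'.card ≤ M.card) :
    MinHit G b (Finset.univ \ M) := by
  have hit : ∀ Y : Finset V, Hit G b Y ↔ Tau G ((Finset.univ \ Y : Finset V) : Set V) b := by
    intro Y
    rw [tau_iff]
    constructor
    · intro h l hl hY
      by_contra hcon
      obtain ⟨v, hv, hvY⟩ := h l ⟨hl, not_le.1 hcon⟩
      have := hY v hv
      rw [Finset.mem_coe, Finset.mem_sdiff] at this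
      exact this.2 hvY
    · intro h l hl
      by_contra hcon
      push Not at hcon
      have h1 := h l hl.1 (fun v hv => by
        rw [Finset.mem_coe, Finset.mem_sdiff]
        exact ⟨Finset.mem_univ v, hcon v hv⟩)
      exact absurd hl.2 (not_lt.2 h1)
  have hMM : (Finset.univ \ (Finset.univ \ M) : Finset V) = M := by
    rw [Finset.sdiff_sdiff_eq_self (Finset.subset_univ M)]
  refine ⟨?_, ?_⟩
  · rw [hit, hMM]
    exact hM
  · intro Y hY
    have h1 := hmax _ ((hit Y).1 hY)
    have h2 := Finset.card_sdiff_add_card_eq_card (Finset.subset_univ Y)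
    have h3 := Finset.card_sdiff_add_card_eq_card (Finset.subset_univ M)
    omega

/-- The two theorems for maximum sets without long paths. -/
theorem maximum_sets [Fintype V] (G : SimpleGraph V) (a b : ℕ)
    (h : ∀ (u v : V) (q : G.Walk u v), q.IsPath → q.support.length ≤ a + b)
    (M : Finset V) (hM : Tau G (M : Set V) b)
    (hmax : ∀ M' : Finset V, Tau G (M' : Set V) b → M'.card ≤ M.card) :
    (2 * (b - 1) * 8 ^ b ≤ a + 1 → Tau G (M : Set V)ᶜ a) ∧
      ∀ n : ℕ, b < n ^ 3 → Tau G (M : Set V)ᶜ (a + 5 * n ^ 2) := by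
  classical
  have ht := list_of_walk h
  have hX := minHit_compl hM hmax
  have hc : ∀ l : List V, (∀ v ∈ l, v ∈ (M : Set V)ᶜ) → ∀ v ∈ l, v ∈ Finset.univ \ M := by
    intro l hl v hv
    rw [Finset.mem_sdiff]
    exact ⟨Finset.mem_univ v, fun h1 => hl v hv (Finset.mem_coe.2 h1)⟩
  refine ⟨?_, ?_⟩
  · intro hab
    rw [tau_iff]
    intro l hl hlM
    exact exact_list hab ht hX l hl (hc l hlM)
  · intro n hn
    rw [tau_iff]
    intro l hl hlM
    rcases Nat.lt_or_ge n 2 with h2 | h2
    · have h3 := ht l hl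
      interval_cases n <;> omega
    · exact core2 h2 hn ht hX l hl (hc l hlM)

theorem exists_maximum [Fintype V] (G : SimpleGraph V) (b : ℕ) :
    ∃ M : Finset V, Tau G (M : Set V) b ∧
      ∀ M' : Finset V, Tau G (M' : Set V) b → M'.card ≤ M.card := by
  classical
  have h0 : (Finset.univ.filter fun M : Finset V => Tau G (M : Set V) b).Nonempty := by
    refine ⟨∅, Finset.mem_filter.2 ⟨Finset.mem_univ _, ?_⟩⟩
    intro u
    exact absurd u.2 (by simp)
  obtain ⟨M, hM, hmax⟩ := Finset.exists_max_image _ Finset.card h0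
  exact ⟨M, (Finset.mem_filter.1 hM).2, fun M' hM' =>
    hmax M' (Finset.mem_filter.2 ⟨Finset.mem_univ _, hM'⟩)⟩

end Pool.Agent.Helper41.PP
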