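import Pool.Agent.Helper41.PP.Base
import Pool.Agent.Helper41.PP.Count

/-!
# The exact path partition theorem in a polynomial range
-/

namespace Pool.Agent.Helper41.PP

variable {V : Type}

theorem four_mul_le (x y : ℕ) : 4 * (x * y) ≤ (x + y) ^ 2 := by
  zify
  nlinarith [sq_nonneg ((x : ℤ) - y)]

theorem numeric {a b c t N : ℕ} (hab : (b - 1) ^ 4 + 16 * b ^ 2 ≤ 32 * (a + 1))
    (ht : 0 < t) (hct : c + t ≤ b) (hN : a + 1 + c ≤ N) :
    c * ((c - 1) * (t * (t - 1)) + 4 * t) < 2 * N := by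
  rcases Nat.eq_zero_or_pos c with h0 | h0
  · rw [h0, zero_mul]
    omega
  obtain ⟨c, rfl⟩ : ∃ c', c = c' + 1 := ⟨c - 1, by omega⟩
  obtain ⟨t, rfl⟩ : ∃ t', t = t' + 1 := ⟨t - 1, by omega⟩
  obtain ⟨b, rfl⟩ : ∃ b', b = b' + 1 := ⟨b - 1, by omega⟩
  simp only [Nat.add_sub_cancel] at hab ⊢
  have h1 : c + t + 1 ≤ b := by omega
  -- the two products
  have h2 : 4 * ((c + 1) * t) ≤ b ^ 2 := by
    have h3 : ((c + 1) + t) ^ 2 ≤ b ^ 2 := Nat.pow_le_pow_left (by omega) 2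
    exact le_trans (four_mul_le (c + 1) t) h3
  have h4 : 4 * (c * (t + 1)) ≤ b ^ 2 := by
    have h3 : (c + (t + 1)) ^ 2 ≤ b ^ 2 := Nat.pow_le_pow_left (by omega) 2
    exact le_trans (four_mul_le c (t + 1)) h3
  have h5 : 4 * ((c + 1) * (t + 1)) ≤ (b + 1) ^ 2 := by
    have h3 : ((c + 1) + (t + 1)) ^ 2 ≤ (b + 1) ^ 2 := Nat.pow_le_pow_left (by omega) 2
    exact le_trans (four_mul_le (c + 1) (t + 1)) h3
  have h6 : (4 * ((c + 1) * t)) * (4 * (c * (t + 1))) ≤ b ^ 2 * b ^ 2 := Nat.mul_le_mul h2 h4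
  have e1 : 16 * ((c + 1) * (c * ((t + 1) * t) + 4 * (t + 1))) =
      (4 * ((c + 1) * t)) * (4 * (c * (t + 1))) + 16 * (4 * ((c + 1) * (t + 1))) := by ring
  have e2 : b ^ 2 * b ^ 2 = b ^ 4 := by ring
  omega

theorem poly_list {G : SimpleGraph V} {a b : ℕ}
    (hab : (b - 1) ^ 4 + 16 * b ^ 2 ≤ 32 * (a + 1))
    (ht : ∀ l, IsP G l → l.length ≤ a + b) {X : Finset V} (hX : MinHit G b X)
    (R : List V) (hR : IsP G R) (hRX : ∀ v ∈ R, v ∈ X) : R.length ≤ a := by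
  classical
  by_contra hcon
  obtain ⟨f, N, D, β, c, hB, hE, hN, hβ⟩ := exists_big ht hX R hR hRX (by omega)
  have hc := numeric (t := β + 1) hab (Nat.succ_pos β) (by omega) hN
  obtain ⟨y, x, k, hy0, hs, hinj⟩ := count_chain
    (att := fun k i => Att G D k (f i)) (High := Hi G D f β) (Nat.succ_pos β)
    (fun k i h1 h2 => hB.cons h1 h2)
    (fun I hI hlow hind => hB.indep hE hI hlow hind)
    (fun I hI => hB.high hE hI)
    (fun k I hI => hB.class hE k hI) hc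
  have := hB.chain y x k hy0 hs hinj
  omega

end Pool.Agent.Helper41.PP
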