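import Pool.Agent.Helper41.PP.Final2
import Pool.Agent.Helper41.PP.Poly

/-!
# The polynomial range in terms of maximum sets
-/

namespace Pool.Agent.Helper41.PP

variable {V : Type}

theorem poly_sets [Fintype V] (G : SimpleGraph V) (a b : ℕ)
    (h : ∀ (u v : V) (q : G.Walk u v), q.IsPath → q.support.length ≤ a + b)
    (hab : (b - 1) ^ 4 + 16 * b ^ 2 ≤ 32 * (a + 1))
    (M : Finset V) (hM : Tau G (M : Set V) b)
    (hmax : ∀ M' : Finset V, Tau G (M' : Set V) b → M'.card ≤ M.card) :
    Tau G (M : Set V)ᶜ a := by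
  classical
  have ht := list_of_walk h
  have hX := minHit_compl hM hmax
  rw [tau_iff]
  intro l hl hlM
  refine poly_list hab ht hX l hl ?_
  intro v hv
  rw [Finset.mem_sdiff]
  exact ⟨Finset.mem_univ v, fun h1 => hlM v hv (Finset.mem_coe.2 h1)⟩

end Pool.Agent.Helper41.PP
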