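import Mathlib

/-!
# Two edge-disjoint graphs whose alternating 4-cycles are convex
-/

namespace Pool.Agent.Helper41.PP

open Classical in
/-- Some vertex has small degree. -/
theorem small_deg {H₁ H₂ : ℕ → ℕ → Prop} {r : ℕ → ℕ → ℕ} {q : ℕ} {S : Finset ℕ}
    (s1 : ∀ x y, H₁ x y → H₁ y x) (s2 : ∀ x y, H₂ x y → H₂ y x)
    (hr : ∀ v ∈ S, ∀ x ∈ S, ∀ y ∈ S, v ≠ x → v ≠ y → r v x = r v y → x = y)
    (irr : ∀ x, ¬ H₁ x x) (irr2 : ∀ x, ¬ H₂ x x)
    (hK : ∀ v ∈ S, ∀ a ∈ S, ∀ x ∈ S, ∀ b ∈ S, H₁ v a → H₂ a x → H₁ x b → H₂ b v → H₁ v x →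
      (r v a < r v x → r v x < r v b) ∧ (r v x < r v a → r v b < r v x))
    (h2 : ∀ T ⊆ S, (∀ x ∈ T, ∀ y ∈ T, ¬ H₂ x y) → T.card ≤ q) (hS : S.Nonempty) :
    ∃ v ∈ S, (S.filter fun x => H₁ v x).card ≤ 2 * q := by
  by_contra hcon
  push Not at hcon
  set A : ℕ → Finset ℕ := fun v => S.filter fun x => H₁ v x with hA
  set AL : ℕ → Finset ℕ := fun v => (A v).filter fun x => ∀ a ∈ A v, r v a < r v x → ¬ H₂ a x
    with hAL
  set AR : ℕ → Finset ℕ := fun v => (A v).filter fun x => ∀ a ∈ A v, r v x < r v a → ¬ H₂ a x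
    with hAR
  set I : ℕ → Finset ℕ := fun v => (A v).filter fun x => ∀ a ∈ A v, ¬ H₂ a x with hI
  have hAS : ∀ v, ∀ x ∈ A v, x ∈ S ∧ H₁ v x := fun v x hx => by
    rw [hA] at hx
    exact Finset.mem_filter.1 hx
  have hne : ∀ v, ∀ x ∈ A v, v ≠ x := by
    rintro v x hx rfl
    exact irr v (hAS v v hx).2
  have hALc : ∀ v ∈ S, (AL v).card ≤ q := by
    intro v hv
    refine h2 (AL v) (fun x hx => (hAS v x (Finset.mem_filter.1 hx).1).1) ?_
    intro x hx y hy hxy
    obtain ⟨hx1, hx2⟩ := Finset.mem_filter.1 hx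
    obtain ⟨hy1, hy2⟩ := Finset.mem_filter.1 hy
    rcases lt_trichotomy (r v x) (r v y) with h3 | h3 | h3
    · exact hy2 x hx1 h3 hxy
    · have h4 := hr v hv x (hAS v x hx1).1 y (hAS v y hy1).1 (hne v x hx1) (hne v y hy1) h3
      rw [h4] at hxy
      exact irr2 y hxy
    · exact hx2 y hy1 h3 (s2 _ _ hxy)
  have hARc : ∀ v ∈ S, (AR v).card ≤ q := by
    intro v hv
    refine h2 (AR v) (fun x hx => (hAS v x (Finset.mem_filter.1 hx).1).1) ?_
    intro x hx y hy hxy
    obtain ⟨hx1, hx2⟩ := Finset.mem_filter.1 hx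
    obtain ⟨hy1, hy2⟩ := Finset.mem_filter.1 hy
    rcases lt_trichotomy (r v x) (r v y) with h3 | h3 | h3
    · exact hx2 y hy1 h3 (s2 _ _ hxy)
    · have h4 := hr v hv x (hAS v x hx1).1 y (hAS v y hy1).1 (hne v x hx1) (hne v y hy1) h3
      rw [h4] at hxy
      exact irr2 y hxy
    · exact hy2 x hx1 h3 hxy
  -- the inner neighbours
  set In : ℕ → Finset ℕ := fun v => A v \ (AL v ∪ AR v) with hIn
  have hcnt : ∀ v ∈ S, (A v).card + (I v).card ≤ (In v).card + 2 * q := by
    intro v hv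
    have hsub : AL v ∪ AR v ⊆ A v := by
      intro x hx
      rcases Finset.mem_union.1 hx with h3 | h3
      · exact (Finset.mem_filter.1 h3).1
      · exact (Finset.mem_filter.1 h3).1
    have h3 := Finset.card_sdiff_add_card_eq_card hsub
    have h4 := Finset.card_union_add_card_inter (AL v) (AR v)
    have h5 : I v ⊆ AL v ∩ AR v := by
      intro x hx
      obtain ⟨hx1, hx2⟩ := Finset.mem_filter.1 hx
      exact Finset.mem_inter.2 ⟨Finset.mem_filter.2 ⟨hx1, fun a ha _ => hx2 a ha⟩,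
        Finset.mem_filter.2 ⟨hx1, fun a ha _ => hx2 a ha⟩⟩
    have h6 := Finset.card_le_card h5
    have h7 := hALc v hv
    have h8 := hARc v hv
    have h9 : (In v).card = (A v \ (AL v ∪ AR v)).card := rfl
    omega
  have hkey : ∀ v ∈ S, ∀ x ∈ In v, v ∈ I x := by
    intro v hv x hx
    obtain ⟨hx1, hx2⟩ := Finset.mem_sdiff.1 hx
    rw [Finset.mem_union, not_or] at hx2
    obtain ⟨hxS, hvx⟩ := hAS v x hx1
    have hL : ∃ a ∈ A v, r v a < r v x ∧ H₂ a x := by
      by_contra h3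
      push Not at h3
      exact hx2.1 (Finset.mem_filter.2 ⟨hx1, h3⟩)
    have hR : ∃ a ∈ A v, r v x < r v a ∧ H₂ a x := by
      by_contra h3
      push Not at h3
      exact hx2.2 (Finset.mem_filter.2 ⟨hx1, h3⟩)
    obtain ⟨a₁, ha₁, hr₁, h₁⟩ := hL
    obtain ⟨a₂, ha₂, hr₂, h₂⟩ := hR
    refine Finset.mem_filter.2 ⟨Finset.mem_filter.2 ⟨hv, s1 _ _ hvx⟩, ?_⟩
    intro b hb hbv
    obtain ⟨hbS, hxb⟩ := hAS x b hb
    obtain ⟨ha₁S, hva₁⟩ := hAS v a₁ ha₁
    obtain ⟨ha₂S, hva₂⟩ := hAS v a₂ ha₂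
    have h5 := (hK v hv a₁ ha₁S x hxS b hbS hva₁ h₁ hxb hbv hvx).1 hr₁
    have h6 := (hK v hv a₂ ha₂S x hxS b hbS hva₂ h₂ hxb hbv hvx).2 hr₂
    omega
  have hdc : ∑ v ∈ S, (In v).card ≤ ∑ x ∈ S, (I x).card := by
    have e1 : ∑ v ∈ S, (In v).card = ∑ v ∈ S, (S.filter fun x => x ∈ In v).card := by
      apply Finset.sum_congr rfl
      intro v _
      congr 1
      ext x
      rw [Finset.mem_filter]
      constructor
      · intro hx
        exact ⟨(hAS v x (Finset.mem_sdiff.1 hx).1).1, hx⟩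
      · intro hx
        exact hx.2
    have e2 := Finset.sum_card_bipartiteAbove_eq_sum_card_bipartiteBelow
      (fun v x => x ∈ In v) (s := S) (t := S)
    unfold Finset.bipartiteAbove Finset.bipartiteBelow at e2
    rw [e1, e2]
    apply Finset.sum_le_sum
    intro x hx
    apply Finset.card_le_card
    intro v hv
    obtain ⟨hv1, hv2⟩ := Finset.mem_filter.1 hv
    exact hkey v hv1 x hv2
  have hsum : ∑ v ∈ S, ((A v).card + (I v).card) ≤ ∑ v ∈ S, ((In v).card + 2 * q) :=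
    Finset.sum_le_sum hcnt
  rw [Finset.sum_add_distrib, Finset.sum_add_distrib, Finset.sum_const, smul_eq_mul] at hsum
  have hbig : ∑ v ∈ S, (2 * q + 1) ≤ ∑ v ∈ S, (A v).card := by
    apply Finset.sum_le_sum
    intro v hv
    exact hcon v hv
  rw [Finset.sum_const, smul_eq_mul] at hbig
  have hpos : 0 < S.card := Finset.card_pos.2 hS
  have h9 : S.card * (2 * q + 1) = S.card * (2 * q) + S.card := by ring
  omega

/-- A large independent set. -/
theorem quad_bound {H₁ H₂ : ℕ → ℕ → Prop} {r : ℕ → ℕ → ℕ} {q : ℕ}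
    (s1 : ∀ x y, H₁ x y → H₁ y x) (s2 : ∀ x y, H₂ x y → H₂ y x)
    (irr : ∀ x, ¬ H₁ x x) (irr2 : ∀ x, ¬ H₂ x x) :
    ∀ (n : ℕ) (S : Finset ℕ), S.card = n →
    (∀ v ∈ S, ∀ x ∈ S, ∀ y ∈ S, v ≠ x → v ≠ y → r v x = r v y → x = y) →
    (∀ v ∈ S, ∀ a ∈ S, ∀ x ∈ S, ∀ b ∈ S, H₁ v a → H₂ a x → H₁ x b → H₂ b v → H₁ v x →
      (r v a < r v x → r v x < r v b) ∧ (r v x < r v a → r v b < r v x)) →
    (∀ T ⊆ S, (∀ x ∈ T, ∀ y ∈ T, ¬ H₂ x y) → T.card ≤ q) →
    ∃ T ⊆ S, (∀ x ∈ T, ∀ y ∈ T, ¬ H₁ x y) ∧ S.card ≤ (2 * q + 1) * T.card := by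
  classical
  intro n
  induction n using Nat.strong_induction_on with
  | _ n ih =>
      intro S hSn hr hK h2
      rcases S.eq_empty_or_nonempty with h0 | h0
      · refine ⟨∅, Finset.empty_subset _, ?_, by rw [h0]; simp⟩
        intro x hx
        exact absurd hx (Finset.notMem_empty x)
      · obtain ⟨v, hv, hdeg⟩ := small_deg s1 s2 hr irr irr2 hK h2 h0
        set F : Finset ℕ := insert v (S.filter fun x => H₁ v x) with hF
        set S' := S \ F with hS'
        have hsub : S' ⊆ S := Finset.sdiff_subset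
        have hvS' : v ∉ S' := fun h3 => (Finset.mem_sdiff.1 h3).2 (Finset.mem_insert_self _ _)
        have hlt : S'.card < S.card :=
          Finset.card_lt_card ⟨hsub, fun h3 => hvS' (h3 hv)⟩
        obtain ⟨T, hT, hT1, hT2⟩ := ih S'.card (by omega) S' rfl
          (fun v hv x hx y hy => hr v (hsub hv) x (hsub hx) y (hsub hy))
          (fun v hv a ha x hx b hb => hK v (hsub hv) a (hsub ha) x (hsub hx) b (hsub hb))
          (fun T hT => h2 T (hT.trans hsub))
        have hvT : v ∉ T := fun h3 => hvS' (hT h3)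
        have hnot : ∀ x ∈ T, ¬ H₁ v x := by
          intro x hx h3
          have h4 := Finset.mem_sdiff.1 (hT hx)
          exact h4.2 (Finset.mem_insert_of_mem (Finset.mem_filter.2 ⟨h4.1, h3⟩))
        refine ⟨insert v T, ?_, ?_, ?_⟩
        · intro x hx
          rcases Finset.mem_insert.1 hx with h3 | h3
          · rw [h3]; exact hv
          · exact hsub (hT h3)
        · intro x hx y hy hxy
          rcases Finset.mem_insert.1 hx with h3 | h3
          · rcases Finset.mem_insert.1 hy with h4 | h4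
            · rw [h3, h4] at hxy
              exact irr v hxy
            · rw [h3] at hxy
              exact hnot y h4 hxy
          · rcases Finset.mem_insert.1 hy with h4 | h4
            · rw [h4] at hxy
              exact hnot x h3 (s1 _ _ hxy)
            · exact hT1 x h3 y h4 hxy
        · rw [Finset.card_insert_of_notMem hvT]
          have h3 : S.card ≤ S'.card + F.card := Finset.card_le_card_sdiff_add_card
          have h4 : F.card ≤ 2 * q + 1 := by
            rw [hF]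
            refine le_trans (Finset.card_insert_le _ _) ?_
            exact Nat.succ_le_succ hdeg
          calc S.card ≤ (2 * q + 1) * T.card + (2 * q + 1) := by omega
            _ = (2 * q + 1) * (T.card + 1) := by ring

end Pool.Agent.Helper41.PP
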