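import Pool.Agent.Helper41.PP.Four
import Pool.Agent.Helper41.PP.Quad
import Pool.Agent.Helper41.PP.Poly

/-!
# The exact path partition theorem in a quadratic range
-/

namespace Pool.Agent.Helper41.PP

variable {V : Type} {G : SimpleGraph V} {f : ℕ → V} {N : ℕ} {D : V → Prop} {β : ℕ}

/-- The place of `x` on the cycle, seen from `v`. -/
def pos (N v x : ℕ) : ℕ := if v < x then x else x + N

theorem pos_lt {N v x : ℕ} (hv : v < N) (hx : x < N) (hne : v ≠ x) :
    v < pos N v x ∧ pos N v x < v + N := by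
  unfold pos
  split_ifs with h
  · omega
  · omega

theorem pos_inj {N v x y : ℕ} (hx : x < N) (hy : y < N)
    (h : pos N v x = pos N v y) : x = y := by
  unfold pos at h
  split_ifs at h <;> omega

theorem Big.lk_pos (h : Big G f N D β) (i v x : ℕ) :
    (Lk G D f i (pos N v x) ↔ Lk G D f i x) ∧
      (Lk G D f i (pos N v x + 1) ↔ Lk G D f i (x + 1)) := by
  unfold pos
  split_ifs
  · exact ⟨Iff.rfl, Iff.rfl⟩
  · exact ⟨h.congr i x, h.congr' i x⟩

theorem Big.lk_pos2 (h : Big G f N D β) (v x y : ℕ) :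
    (Lk G D f (pos N v x) (pos N v y) ↔ Lk G D f x y) ∧
      (Lk G D f (pos N v x + 1) (pos N v y + 1) ↔ Lk G D f (x + 1) (y + 1)) := by
  refine ⟨?_, ?_⟩
  · rw [(h.lk_pos _ v y).1]
    constructor
    · intro h1
      exact (((h.lk_pos _ v x).1).1 h1.symm).symm
    · intro h1
      exact (((h.lk_pos _ v x).1).2 h1.symm).symm
  · rw [(h.lk_pos _ v y).2]
    constructor
    · intro h1
      exact (((h.lk_pos _ v x).2).1 h1.symm).symm
    · intro h1
      exact (((h.lk_pos _ v x).2).2 h1.symm).symm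

/-- Alternating 4-cycles are convex. -/
theorem Big.convex (h : Big G f N D β) {v a x b : ℕ} (hv : v < N) (ha : a < N) (hx : x < N)
    (hb : b < N) (nva : v ≠ a) (nax : a ≠ x) (nxb : x ≠ b) (nbv : b ≠ v) (nvx : v ≠ x)
    (nab : a ≠ b) (l1 : Lk G D f v a) (l2 : Lk G D f (a + 1) (x + 1)) (l3 : Lk G D f x b)
    (l4 : Lk G D f (b + 1) (v + 1)) :
    (pos N v a < pos N v x → pos N v x < pos N v b) ∧
      (pos N v x < pos N v a → pos N v b < pos N v x) := by
  obtain ⟨ha1, ha2⟩ := pos_lt hv ha nva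
  obtain ⟨hx1, hx2⟩ := pos_lt hv hx nvx
  obtain ⟨hb1, hb2⟩ := pos_lt hv hb nbv.symm
  have hax : pos N v a ≠ pos N v x := fun h1 => nax (pos_inj ha hx h1)
  have hxb : pos N v x ≠ pos N v b := fun h1 => nxb (pos_inj hx hb h1)
  have hab : pos N v a ≠ pos N v b := fun h1 => nab (pos_inj ha hb h1)
  have l1' : Lk G D f v (pos N v a) := ((h.lk_pos v v a).1).2 l1
  have l2' : Lk G D f (pos N v a + 1) (pos N v x + 1) := ((h.lk_pos2 v a x).2).2 l2
  have l3' : Lk G D f (pos N v x) (pos N v b) := ((h.lk_pos2 v x b).1).2 l3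
  have l4' : Lk G D f (v + 1) (pos N v b + 1) := ((h.lk_pos (v + 1) v b).2).2 l4.symm
  refine ⟨fun h1 => ?_, fun h1 => ?_⟩
  · by_contra h2
    have h3 : pos N v b < pos N v x := by omega
    rcases lt_or_gt_of_ne hab with h4 | h4
    · -- v < a < b < x
      exact h.four ha1 h4 h3 hx2 l1' l3'.symm l4' l2'
    · -- v < b < a < x
      exact h.four' hb1 h4 h1 hx2 l1' l3'.symm l4' l2'
  · by_contra h2
    have h3 : pos N v x < pos N v b := by omega
    rcases lt_or_gt_of_ne hab with h4 | h4
    · -- v < x < a < b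
      exact h.four''' hx1 h1 h4 hb2 l1' l3' l2'.symm l4'
    · -- v < x < b < a
      exact h.four'' hx1 h3 h4 ha2 l1' l3' l4' l2'.symm

/-- The length of the cycle. -/
theorem Big.length_le (h : Big G f N D β) {c : ℕ} (hE : Exc G f N D β c) :
    N ≤ 2 * c ^ 2 + 3 * c := by
  classical
  have hN : 0 < N := lt_of_lt_of_le (by norm_num) h.per.two
  set S : Finset ℕ := (Finset.range N).filter fun i => ¬ Hi G D f β i ∧ ¬ Hi G D f β (i + 1)
    with hS
  have hSN : ∀ i ∈ S, i < N := fun i hi => Finset.mem_range.1 (Finset.mem_filter.1 hi).1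
  -- few vertices are missing
  have hmiss : N ≤ S.card + 2 * c := by
    have h1 := Finset.card_filter_add_card_filter_not (s := Finset.range N)
      (fun i => ¬ Hi G D f β i ∧ ¬ Hi G D f β (i + 1))
    rw [Finset.card_range] at h1
    have h2 : (Finset.range N).filter (fun i => ¬ (¬ Hi G D f β i ∧ ¬ Hi G D f β (i + 1))) ⊆
        ((Finset.range N).filter fun i => Hi G D f β i) ∪
          ((Finset.range N).filter fun i => Hi G D f β (i + 1)) := by
      intro i hi
      obtain ⟨hi1, hi2⟩ := Finset.mem_filter.1 hi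
      rw [Finset.mem_union, Finset.mem_filter, Finset.mem_filter]
      by_cases h3 : Hi G D f β i
      · exact Or.inl ⟨hi1, h3⟩
      · right
        refine ⟨hi1, ?_⟩
        by_contra h4
        exact hi2 ⟨h3, h4⟩
    have h3 := Finset.card_le_card h2
    have h4 := Finset.card_union_le ((Finset.range N).filter fun i => Hi G D f β i)
      ((Finset.range N).filter fun i => Hi G D f β (i + 1))
    have h5 : ((Finset.range N).filter fun i => Hi G D f β i).card ≤ c :=
      h.high hE (fun i hi => ⟨Finset.mem_range.1 (Finset.mem_filter.1 hi).1,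
        (Finset.mem_filter.1 hi).2⟩)
    have h6 : ((Finset.range N).filter fun i => Hi G D f β (i + 1)).card ≤ c := by
      rw [← card_succ (N := N) (fun i hi => Finset.mem_range.1 (Finset.mem_filter.1 hi).1)]
      refine h.high hE ?_
      intro i hi
      obtain ⟨j, hj, rfl⟩ := Finset.mem_image.1 hi
      refine ⟨Nat.mod_lt _ hN, ?_⟩
      unfold Hi
      rw [h.per.succ]
      exact (Finset.mem_filter.1 hj).2
    have h7 : S.card = ((Finset.range N).filter fun i =>
      ¬ Hi G D f β i ∧ ¬ Hi G D f β (i + 1)).card := by rw [hS]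
    omega
  have tw : ∀ x y, x < N → y < N → x ≠ y → Lk G D f x y → Lk G D f (x + 1) (y + 1) → False := by
    intro x y hx hy hxy h1 h2
    rcases lt_or_gt_of_ne hxy with h3 | h3
    · exact h.two h3 (by omega) h1 h2
    · exact h.two h3 (by omega) h1.symm h2.symm
  obtain ⟨T, hTS, hT1, hT2⟩ := quad_bound
    (H₁ := fun x y => x ≠ y ∧ Lk G D f x y) (H₂ := fun x y => x ≠ y ∧ Lk G D f (x + 1) (y + 1))
    (r := pos N) (q := c)
    (fun x y hxy => ⟨hxy.1.symm, hxy.2.symm⟩) (fun x y hxy => ⟨hxy.1.symm, hxy.2.symm⟩)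
    (fun x hx => hx.1 rfl) (fun x hx => hx.1 rfl) S.card S rfl
    (fun v _ x hx y hy _ _ hxy => pos_inj (hSN x hx) (hSN y hy) hxy)
    (by
      intro v hv a ha x hx b hb h1 h2 h3 h4 h5
      refine h.convex (hSN v hv) (hSN a ha) (hSN x hx) (hSN b hb) h1.1 h2.1 h3.1 h4.1 h5.1 ?_
        h1.2 h2.2 h3.2 h4.2
      rintro rfl
      exact tw v a (hSN v hv) (hSN a ha) h1.1 h1.2 h4.2.symm)
    (by
      intro T hT hT1
      rw [← card_succ (N := N) (fun i hi => hSN i (hT hi))]
      refine h.indep hE ?_ ?_ ?_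
      · intro i hi
        obtain ⟨j, _, rfl⟩ := Finset.mem_image.1 hi
        exact Nat.mod_lt _ hN
      · intro i hi
        obtain ⟨j, hj, rfl⟩ := Finset.mem_image.1 hi
        unfold Hi
        rw [h.per.succ]
        exact (Finset.mem_filter.1 (hT hj)).2.2
      · intro i hi j hj hij h1
        obtain ⟨i', hi', rfl⟩ := Finset.mem_image.1 hi
        obtain ⟨j', hj', rfl⟩ := Finset.mem_image.1 hj
        unfold Lk at h1
        rw [h.per.succ, h.per.succ] at h1
        refine hT1 i' hi' j' hj' ⟨?_, h1⟩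
        rintro rfl
        exact hij rfl)
  have hTc : T.card ≤ c := by
    refine h.indep hE (fun i hi => hSN i (hTS hi))
      (fun i hi => (Finset.mem_filter.1 (hTS hi)).2.1) ?_
    intro i hi j hj hij h1
    exact hT1 i hi j hj ⟨hij, h1⟩
  have h8 : (2 * c + 1) * T.card ≤ (2 * c + 1) * c := Nat.mul_le_mul_left _ hTc
  have h9 : (2 * c + 1) * c = 2 * c ^ 2 + c := by ring
  omega

/-- The length of the cycle if hardly anything can be appended to it. -/
theorem Big.length_small (h : Big G f N D β) {c : ℕ} (hE : Exc G f N D β c) (hβ : β ≤ 1) :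
    N ≤ 2 * c := by
  classical
  have h1 := Finset.card_filter_add_card_filter_not (s := Finset.range N)
    (fun i => Hi G D f β i)
  rw [Finset.card_range] at h1
  have h2 : ((Finset.range N).filter fun i => Hi G D f β i).card ≤ c :=
    h.high hE (fun i hi => ⟨Finset.mem_range.1 (Finset.mem_filter.1 hi).1,
      (Finset.mem_filter.1 hi).2⟩)
  have h3 : ((Finset.range N).filter fun i => ¬ Hi G D f β i).card ≤ c := by
    refine h.indep hE (fun i hi => Finset.mem_range.1 (Finset.mem_filter.1 hi).1)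
      (fun i hi => (Finset.mem_filter.1 hi).2) ?_
    rintro i hi j _ _ ⟨K, ⟨u, hu, _, hadj⟩, _⟩
    refine (Finset.mem_filter.1 hi).2 ⟨[u], ⟨?_, ?_⟩, ?_, ?_⟩
    · rw [List.isChain_cons_cons]
      exact ⟨hadj, List.isChain_singleton _⟩
    · rw [List.nodup_cons]
      refine ⟨?_, List.nodup_singleton _⟩
      rw [List.mem_singleton]
      exact hadj.ne
    · intro v hv
      rw [List.mem_singleton.1 hv]
      exact hu
    · rw [List.length_singleton]
      omega
  omega

theorem quad_list {V : Type} {G : SimpleGraph V} {a b : ℕ} (hab : 2 * (b - 2) * (b - 3) ≤ a)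
    (hab2 : b ≤ a + 1) (ht : ∀ l, IsP G l → l.length ≤ a + b) {X : Finset V} (hX : MinHit G b X)
    (R : List V) (hR : IsP G R) (hRX : ∀ v ∈ R, v ∈ X) : R.length ≤ a := by
  classical
  by_contra hcon
  obtain ⟨f, N, D, β, c, hB, hE, hN, hβ⟩ := exists_big ht hX R hR hRX (by omega)
  rcases Nat.lt_or_ge 1 β with h0 | h0
  · have h1 := hB.length_le hE
    have h3 : 2 * (c + 1) * c ≤ 2 * (b - 2) * (b - 3) := Nat.mul_le_mul (by omega) (by omega)
    have h4 : 2 * (c + 1) * c = 2 * c ^ 2 + 2 * c := by ring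
    omega
  · have h1 := hB.length_small hE h0
    omega

end Pool.Agent.Helper41.PP
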