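import Pool.Agent.Helper41.PP.Base

/-!
# Exchanges with four links
-/

namespace Pool.Agent.Helper41.PP

variable {V : Type} {G : SimpleGraph V} {f : ℕ → V} {N : ℕ} {D : V → Prop} {β : ℕ}

/-- A walk with given ends, as a list. -/
def Pth (G : SimpleGraph V) (l : List V) (x y : V) : Prop :=
  l.IsChain G.Adj ∧ l.head? = some x ∧ l.getLast? = some y

theorem Pth.reverse {l : List V} {x y : V} (h : Pth G l x y) : Pth G l.reverse y x := by
  refine ⟨isChain_reverse' G h.1, ?_, ?_⟩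
  · rw [List.head?_reverse]; exact h.2.2
  · rw [List.getLast?_reverse]; exact h.2.1

theorem Pth.join {l₁ l₂ J : List V} {x y z w : V} (h1 : Pth G l₁ x y)
    (hJ : (y :: (J ++ [z])).IsChain G.Adj) (h2 : Pth G l₂ z w) : Pth G (l₁ ++ (J ++ l₂)) x w := by
  obtain ⟨t, rfl⟩ : ∃ t, l₂ = z :: t := by
    cases l₂ with
    | nil => exact absurd h2.2.1 (by simp)
    | cons a t =>
        have h3 := h2.2.1
        rw [List.head?_cons] at h3
        exact ⟨t, by rw [Option.some.inj h3]⟩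
  obtain ⟨s, rfl⟩ : ∃ s, l₁ = s ++ [y] := by
    rcases List.eq_nil_or_concat l₁ with h3 | ⟨s, a, h3⟩
    · rw [h3] at h1
      exact absurd h1.2.1 (by simp)
    · rw [List.concat_eq_append] at h3
      subst h3
      have h4 := h1.2.2
      rw [List.getLast?_append_of_ne_nil _ (by simp)] at h4
      have h5 : a = y := by simpa using h4
      exact ⟨s, by rw [h5]⟩
  refine ⟨?_, ?_, ?_⟩
  · have e1 : (s ++ [y]) ++ (J ++ z :: t) = s ++ y :: (J ++ z :: t) := by simp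
    rw [e1, List.isChain_split]
    refine ⟨h1.1, ?_⟩
    rw [← List.cons_append, List.isChain_split]
    exact ⟨by simpa using hJ, h2.1⟩
  · rw [List.head?_append_of_ne_nil _ (by simp)]
    exact h1.2.1
  · have e1 : (s ++ [y]) ++ (J ++ z :: t) = ((s ++ [y]) ++ J) ++ (z :: t) := by simp
    rw [e1, List.getLast?_append_of_ne_nil _ (by simp)]
    exact h2.2.2

theorem Pth.close {l J : List V} {x y : V} (h : Pth G l x y)
    (hJ : (y :: (J ++ [x])).IsChain G.Adj) :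
    (l ++ J).IsChain G.Adj ∧ ∀ u ∈ (l ++ J).getLast?, ∀ v ∈ (l ++ J).head?, G.Adj u v := by
  have hx : Pth G [x] x x := ⟨List.isChain_singleton _, rfl, rfl⟩
  have h1 := h.join hJ hx
  rw [← List.append_assoc] at h1
  have h2 := h1.1
  rw [List.isChain_append] at h2
  refine ⟨h2.1, ?_⟩
  intro u hu v hv
  have hl : l ≠ [] := by
    intro h0
    rw [h0] at h
    exact absurd h.2.1 (by simp)
  rw [List.head?_append_of_ne_nil _ hl, h.2.1] at hv
  have hv' : x = v := by simpa using hv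
  rw [← hv']
  exact h2.2.2 u hu x (by simp)

/-- A part of the cycle. -/
theorem Per.seg (h : Per G f N) {i j : ℕ} (hij : i < j) (hji : j ≤ i + N) :
    Pth G (arc f (i + 1) (j - i)) (f (i + 1)) (f j) := by
  obtain ⟨m, rfl⟩ : ∃ m, j = i + (m + 1) := ⟨j - i - 1, by omega⟩
  have e1 : i + (m + 1) - i = m + 1 := by omega
  rw [e1]
  refine ⟨(h.arcP _ _ (by omega)).1, ?_, ?_⟩
  · rw [arc_succ]; rfl
  · rw [arc_succ', List.getLast?_append_of_ne_nil _ (by simp)]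
    have e2 : i + 1 + m = i + (m + 1) := by omega
    rw [e2]; rfl

theorem Big.contra (h : Big G f N D β) {L E : List V} {i : ℕ} (hp : L.Perm (arc f i N ++ E))
    (hE : E.Nodup) (hED : ∀ v ∈ E, D v) (hE0 : E ≠ [])
    (hc : L.IsChain G.Adj ∧ ∀ u ∈ L.getLast?, ∀ v ∈ L.head?, G.Adj u v) : False := by
  have h1 : IsC G L := by
    refine ⟨⟨hc.1, ?_⟩, hc.2⟩
    rw [hp.nodup_iff, List.nodup_append']
    refine ⟨(h.per.arcP i N le_rfl).2, hE, ?_⟩
    intro v hv hv'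
    exact h.not_arc hED i N v hv' hv
  have h2 := h.max L h1 (fun k => hp.mem_iff.2 (List.mem_append_left _ (h.per.all_mem i k)))
  have h3 := hp.length_eq
  rw [List.length_append, arc_length] at h3
  have h4 : 0 < E.length := List.length_pos_iff.2 hE0
  omega

theorem link_path (h : Big G f N D β) {K : (HD G D).ConnectedComponent} {i j : ℕ}
    (hi : Att G D K (f i)) (hj : Att G D K (f j)) (hne : f i ≠ f j) :
    ∃ J : List V, J ≠ [] ∧ J.Nodup ∧ (f i :: (J ++ [f j])).IsChain G.Adj ∧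
      (f j :: (J.reverse ++ [f i])).IsChain G.Adj ∧
      ∀ v ∈ J, D v ∧ (HD G D).connectedComponentMk v = K := by
  obtain ⟨J, h1, h2, h3⟩ := att_path hi hj hne (h.out _) (h.out _)
  refine ⟨J, h1, (List.nodup_append'.1 (List.nodup_cons.1 h2.2).2).1, h2.1, ?_, h3⟩
  have h4 := h2.reverse.1
  simpa using h4

theorem disj_of_comp {K K' : (HD G D).ConnectedComponent} {J J' : List V}
    (h1 : ∀ v ∈ J, D v ∧ (HD G D).connectedComponentMk v = K)
    (h2 : ∀ v ∈ J', D v ∧ (HD G D).connectedComponentMk v = K') (hne : K ≠ K') :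
    List.Disjoint J J' := by
  intro v hv hv'
  exact hne ((h1 v hv).2.symm.trans (h2 v hv').2)

/-- The cycle in four parts. -/
theorem arc_four {p₁ p₂ p₃ p₄ : ℕ} (h12 : p₁ < p₂) (h23 : p₂ < p₃) (h34 : p₃ < p₄)
    (h41 : p₄ < p₁ + N) : arc f (p₁ + 1) N = arc f (p₁ + 1) (p₂ - p₁) ++
      (arc f (p₂ + 1) (p₃ - p₂) ++ (arc f (p₃ + 1) (p₄ - p₃) ++ arc f (p₄ + 1) (p₁ + N - p₄))) := by
  have e1 : N = (p₂ - p₁) + ((p₃ - p₂) + ((p₄ - p₃) + (p₁ + N - p₄))) := by omega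
  conv_lhs => rw [e1]
  rw [arc_add, arc_add, arc_add]
  have e2 : p₁ + 1 + (p₂ - p₁) = p₂ + 1 := by omega
  have e3 : p₂ + 1 + (p₃ - p₂) = p₃ + 1 := by omega
  have e4 : p₃ + 1 + (p₄ - p₃) = p₄ + 1 := by omega
  rw [e2, e3, e4]

/-- Four links, first pattern. -/
theorem Big.four (h : Big G f N D β) {p₁ p₂ p₃ p₄ : ℕ} (h12 : p₁ < p₂) (h23 : p₂ < p₃)
    (h34 : p₃ < p₄) (h41 : p₄ < p₁ + N) (l12 : Lk G D f p₁ p₂) (l34 : Lk G D f p₃ p₄)
    (m13 : Lk G D f (p₁ + 1) (p₃ + 1)) (m24 : Lk G D f (p₂ + 1) (p₄ + 1)) : False := by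
  have tw : ∀ {i j : ℕ}, i < j → j < i + N → Lk G D f i j → Lk G D f (i + 1) (j + 1) → False :=
    fun h1 h2 h3 h4 => h.two h1 h2 h3 h4
  obtain ⟨K₁, a1, a2⟩ := l12
  obtain ⟨K₃, a3, a4⟩ := l34
  obtain ⟨K₂, b1, b3⟩ := m13
  obtain ⟨K₄, b2, b4⟩ := m24
  have n12 : K₁ ≠ K₂ := by rintro rfl; exact h.cons a1 b1
  have n14 : K₁ ≠ K₄ := by rintro rfl; exact h.cons a2 b2
  have n32 : K₃ ≠ K₂ := by rintro rfl; exact h.cons a3 b3
  have n34 : K₃ ≠ K₄ := by rintro rfl; exact h.cons a4 b4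
  have n13 : K₁ ≠ K₃ := by
    rintro rfl
    exact tw (by omega) (by omega) ⟨K₁, a1, a3⟩ ⟨K₂, b1, b3⟩
  have n24 : K₂ ≠ K₄ := by
    rintro rfl
    exact tw (by omega) (by omega) ⟨K₁, a1, a2⟩ ⟨K₂, b1, b2⟩
  obtain ⟨J₁, e1, nd1, c1, c1', d1⟩ := link_path h a1 a2 (h.per.ne (by omega) (by omega))
  obtain ⟨J₃, _, nd3, c3, c3', d3⟩ := link_path h a3 a4 (h.per.ne (by omega) (by omega))
  obtain ⟨J₂, _, nd2, c2, c2', d2⟩ := link_path h b1 b3 (h.per.ne (by omega) (by omega))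
  obtain ⟨J₄, _, nd4, c4, c4', d4⟩ := link_path h b2 b4 (h.per.ne (by omega) (by omega))
  have s1 := h.per.seg h12 (by omega)
  have s2 := h.per.seg h23 (by omega)
  have s3 := h.per.seg h34 (by omega)
  have s4 := h.per.seg h41 (by omega)
  rw [h.per.per] at s4
  -- S1, p2 -> p1, S4 reversed, p4+ -> p2+, S2, p3 -> p4, S3 reversed, p3+ -> p1+
  have q1 := s1.join c1' s4.reverse
  have q2 := q1.join c4' s2
  have q3 := q2.join c3 s3.reverse
  have q4 := q3.close c2'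
  refine h.contra (i := p₁ + 1) (E := J₁ ++ (J₂ ++ (J₃ ++ J₄))) ?_ ?_ ?_ ?_ q4
  · rw [arc_four h12 h23 h34 h41, ← Multiset.coe_eq_coe]
    simp only [← Multiset.coe_add, Multiset.coe_reverse]
    abel
  · rw [List.nodup_append', List.nodup_append', List.nodup_append']
    refine ⟨nd1, ⟨nd2, ⟨nd3, nd4, disj_of_comp d3 d4 n34⟩, ?_⟩, ?_⟩
    · rw [List.disjoint_append_right]
      exact ⟨disj_of_comp d2 d3 (Ne.symm n32), disj_of_comp d2 d4 n24⟩
    · rw [List.disjoint_append_right, List.disjoint_append_right]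
      exact ⟨disj_of_comp d1 d2 n12, disj_of_comp d1 d3 n13, disj_of_comp d1 d4 n14⟩
  · intro v hv
    simp only [List.mem_append] at hv
    rcases hv with h5 | h5 | h5 | h5
    · exact (d1 v h5).1
    · exact (d2 v h5).1
    · exact (d3 v h5).1
    · exact (d4 v h5).1
  · simp [e1]

/-- Four links, second pattern. -/
theorem Big.four' (h : Big G f N D β) {p₁ p₂ p₃ p₄ : ℕ} (h12 : p₁ < p₂) (h23 : p₂ < p₃)
    (h34 : p₃ < p₄) (h41 : p₄ < p₁ + N) (l13 : Lk G D f p₁ p₃) (l24 : Lk G D f p₂ p₄)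
    (m12 : Lk G D f (p₁ + 1) (p₂ + 1)) (m34 : Lk G D f (p₃ + 1) (p₄ + 1)) : False := by
  have tw : ∀ {i j : ℕ}, i < j → j < i + N → Lk G D f i j → Lk G D f (i + 1) (j + 1) → False :=
    fun h1 h2 h3 h4 => h.two h1 h2 h3 h4
  obtain ⟨K₁, a1, a3⟩ := l13
  obtain ⟨K₃, a2, a4⟩ := l24
  obtain ⟨K₂, b1, b2⟩ := m12
  obtain ⟨K₄, b3, b4⟩ := m34
  have n12 : K₁ ≠ K₂ := by rintro rfl; exact h.cons a1 b1
  have n14 : K₁ ≠ K₄ := by rintro rfl; exact h.cons a3 b3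
  have n32 : K₃ ≠ K₂ := by rintro rfl; exact h.cons a2 b2
  have n34 : K₃ ≠ K₄ := by rintro rfl; exact h.cons a4 b4
  have n13 : K₁ ≠ K₃ := by
    rintro rfl
    exact tw (by omega) (by omega) ⟨K₁, a1, a2⟩ ⟨K₂, b1, b2⟩
  have n24 : K₂ ≠ K₄ := by
    rintro rfl
    exact tw (by omega) (by omega) ⟨K₁, a1, a3⟩ ⟨K₂, b1, b3⟩
  obtain ⟨J₁, e1, nd1, c1, c1', d1⟩ := link_path h a1 a3 (h.per.ne (by omega) (by omega))
  obtain ⟨J₃, _, nd3, c3, c3', d3⟩ := link_path h a2 a4 (h.per.ne (by omega) (by omega))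
  obtain ⟨J₂, _, nd2, c2, c2', d2⟩ := link_path h b1 b2 (h.per.ne (by omega) (by omega))
  obtain ⟨J₄, _, nd4, c4, c4', d4⟩ := link_path h b3 b4 (h.per.ne (by omega) (by omega))
  have s1 := h.per.seg h12 (by omega)
  have s2 := h.per.seg h23 (by omega)
  have s3 := h.per.seg h34 (by omega)
  have s4 := h.per.seg h41 (by omega)
  rw [h.per.per] at s4
  -- S1, p2 -> p4, S3 reversed, p3+ -> p4+, S4, p1 -> p3, S2 reversed, p2+ -> p1+
  have q1 := s1.join c3 s3.reverse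
  have q2 := q1.join c4 s4
  have q3 := q2.join c1 s2.reverse
  have q4 := q3.close c2'
  refine h.contra (i := p₁ + 1) (E := J₁ ++ (J₂ ++ (J₃ ++ J₄))) ?_ ?_ ?_ ?_ q4
  · rw [arc_four h12 h23 h34 h41, ← Multiset.coe_eq_coe]
    simp only [← Multiset.coe_add, Multiset.coe_reverse]
    abel
  · rw [List.nodup_append', List.nodup_append', List.nodup_append']
    refine ⟨nd1, ⟨nd2, ⟨nd3, nd4, disj_of_comp d3 d4 n34⟩, ?_⟩, ?_⟩
    · rw [List.disjoint_append_right]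
      exact ⟨disj_of_comp d2 d3 (Ne.symm n32), disj_of_comp d2 d4 n24⟩
    · rw [List.disjoint_append_right, List.disjoint_append_right]
      exact ⟨disj_of_comp d1 d2 n12, disj_of_comp d1 d3 n13, disj_of_comp d1 d4 n14⟩
  · intro v hv
    simp only [List.mem_append] at hv
    rcases hv with h5 | h5 | h5 | h5
    · exact (d1 v h5).1
    · exact (d2 v h5).1
    · exact (d3 v h5).1
    · exact (d4 v h5).1
  · simp [e1]

theorem Big.congr' (h : Big G f N D β) (i j : ℕ) : Lk G D f i (j + N + 1) ↔ Lk G D f i (j + 1) := by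
  have e1 : j + N + 1 = (j + 1) + N := by ring
  rw [e1, h.congr]

/-- Four links, third pattern: low `14, 23`, high `13, 24`. -/
theorem Big.four'' (h : Big G f N D β) {p₁ p₂ p₃ p₄ : ℕ} (h12 : p₁ < p₂) (h23 : p₂ < p₃)
    (h34 : p₃ < p₄) (h41 : p₄ < p₁ + N) (l14 : Lk G D f p₁ p₄) (l23 : Lk G D f p₂ p₃)
    (m13 : Lk G D f (p₁ + 1) (p₃ + 1)) (m24 : Lk G D f (p₂ + 1) (p₄ + 1)) : False :=
  h.four h23 h34 h41 (by omega) l23 ((h.congr _ _).2 l14.symm) m24 ((h.congr' _ _).2 m13.symm)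

/-- Four links, fourth pattern: low `13, 24`, high `23, 14`. -/
theorem Big.four''' (h : Big G f N D β) {p₁ p₂ p₃ p₄ : ℕ} (h12 : p₁ < p₂) (h23 : p₂ < p₃)
    (h34 : p₃ < p₄) (h41 : p₄ < p₁ + N) (l13 : Lk G D f p₁ p₃) (l24 : Lk G D f p₂ p₄)
    (m23 : Lk G D f (p₂ + 1) (p₃ + 1)) (m14 : Lk G D f (p₁ + 1) (p₄ + 1)) : False :=
  h.four' h23 h34 h41 (by omega) l24 ((h.congr _ _).2 l13.symm) m23 ((h.congr' _ _).2 m14.symm)

end Pool.Agent.Helper41.PP
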