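import Pool.Agent.Helper41.PP.Zig

/-!
# Short bridges, near links, the insertion
-/

namespace Pool.Agent.Helper41.PP

variable {V : Type}

/-- A piece of a path between two of its vertices. -/
theorem seg {G : SimpleGraph V} {l : List V} (hl : l.IsChain G.Adj) {x v : V} (hx : x ∈ l)
    (hv : v ∈ l) : ∃ s : List V, (x :: s).IsChain G.Adj ∧ (∀ w ∈ x :: s, w ∈ l) ∧
      (x :: s).getLast? = some v := by
  have main : ∀ m : List V, (x :: m).IsChain G.Adj → (∀ w ∈ x :: m, w ∈ l) → v ∈ x :: m →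
      ∃ s : List V, (x :: s).IsChain G.Adj ∧ (∀ w ∈ x :: s, w ∈ l) ∧
      (x :: s).getLast? = some v := by
    intro m hm hml hvm
    rcases List.mem_cons.1 hvm with h | h
    · refine ⟨[], List.isChain_singleton _, ?_, by rw [h]; rfl⟩
      intro w hw
      rw [List.mem_singleton.1 hw]
      exact hx
    · obtain ⟨s, t, rfl⟩ := List.append_of_mem h
      refine ⟨s ++ [v], ?_, ?_, ?_⟩
      · rw [← List.cons_append]
        rw [← List.cons_append] at hm
        exact (List.isChain_split.1 hm).1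
      · intro w hw
        apply hml
        simp only [List.mem_cons, List.mem_append, List.not_mem_nil, or_false] at hw ⊢
        tauto
      · rw [← List.cons_append, List.getLast?_append]
        simp
  obtain ⟨p, q, rfl⟩ := List.append_of_mem hx
  have h1 := List.isChain_split.1 hl
  by_cases hvq : v ∈ x :: q
  · exact main q h1.2 (fun w hw => List.mem_append_right _ hw) hvq
  · have hvp : v ∈ p := by
      rcases List.mem_append.1 hv with h | h
      · exact h
      · exact absurd h hvq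
    refine main p.reverse ?_ ?_ ?_
    · have h2 := isChain_reverse' G h1.1
      simpa using h2
    · intro w hw
      simp only [List.mem_cons, List.mem_append, List.mem_reverse] at hw ⊢
      tauto
    · exact List.mem_cons_of_mem _ (List.mem_reverse.2 hvp)

/-- Two paths which meet. -/
theorem join {G : SimpleGraph V} {P Q : List V} (hP : P.IsChain G.Adj) (hQ : Q.IsChain G.Adj)
    {x y v : V} (hx : x ∈ P) (hvP : v ∈ P) (hvQ : v ∈ Q) (hy : y ∈ Q) :
    ∃ s : List V, (x :: s).IsChain G.Adj ∧ y ∈ x :: s ∧ ∀ w ∈ x :: s, w ∈ P ∨ w ∈ Q := by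
  obtain ⟨s, hs1, hs2, hs3⟩ := seg hP hx hvP
  obtain ⟨t, ht1, ht2, ht3⟩ := seg hQ hvQ hy
  refine ⟨s ++ t, ?_, ?_, ?_⟩
  · rw [← List.cons_append, List.isChain_append]
    refine ⟨hs1, (List.isChain_cons.1 ht1).2, ?_⟩
    intro a ha b hb
    rw [hs3] at ha
    have h1 : v = a := Option.some.inj ha
    rw [← h1]
    exact (List.isChain_cons.1 ht1).1 b hb
  · have h1 : y ∈ v :: t := List.mem_of_getLast? ht3
    rcases List.mem_cons.1 h1 with h2 | h2
    · rw [h2, ← List.cons_append]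
      exact List.mem_append_left _ (List.mem_of_getLast? hs3)
    · rw [← List.cons_append]
      exact List.mem_append_right _ h2
  · intro w hw
    rw [← List.cons_append] at hw
    rcases List.mem_append.1 hw with h | h
    · exact Or.inl (hs2 w h)
    · exact Or.inr (ht2 w (List.mem_cons_of_mem _ h))

/-- Among `n ^ 2` disjoint bridges between two disjoint paths there is a short one. -/
theorem short {G : SimpleGraph V} {L₁ L₂ : List V} {W : Set V} {n t : ℕ} (h1 : IsP G L₁)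
    (h2 : IsP G L₂) (h12 : ∀ v ∈ L₁, v ∉ L₂) (hW1 : ∀ v ∈ L₁, v ∉ W) (hW2 : ∀ v ∈ L₂, v ∉ W)
    (hn : 1 ≤ n) (hlen : L₁.length = n ^ 2) (mid : V → List V) (e : V → V)
    (hb : ∀ a ∈ L₁, IsP G (a :: (mid a ++ [e a])) ∧ e a ∈ L₂ ∧ (∀ v ∈ mid a, v ∈ W) ∧
      ∀ a' ∈ L₁, a ≠ a' → e a ≠ e a' ∧ ∀ v ∈ mid a, v ∉ mid a')
    (hlong : ∀ l, IsP G l → l.length ≤ t) (ht : t < n * (n ^ 2 + 1)) :
    ∃ a ∈ L₁, (mid a).length + 2 ≤ n ^ 2 := by
  classical
  by_contra hcon
  push Not at hcon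
  have h3 : (n - 1) * (n - 1) < L₁.length := by
    rw [hlen]
    obtain ⟨k, rfl⟩ : ∃ k, n = k + 1 := ⟨n - 1, by omega⟩
    simp only [Nat.add_sub_cancel]
    nlinarith
  have hinj : ∀ x ∈ L₁, ∀ y ∈ L₁, L₂.idxOf (e x) = L₂.idxOf (e y) → x = y := by
    intro x hx y hy hxy
    by_contra hne
    exact ((hb x hx).2.2.2 y hy hne).1 ((List.idxOf_inj (hb x hx).2.1).1 hxy)
  have hn1 : n - 1 + 1 = n := by omega
  -- the conclusion from a monotone family of bridges
  have fin : ∀ (l B : List V), IsP G B → (∀ v ∈ L₁, v ∉ B) → (∀ v ∈ B, v ∉ W) → l.Sublist L₁ →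
      l.length = n → (l.map e).Sublist B → False := by
    intro l B hB hAB hBW hl hln hle
    have hlm : ∀ a ∈ l, a ∈ L₁ := fun a ha => hl.subset ha
    have hZ : ZZ G (n ^ 2 + 1) n W L₁ B := by
      refine ZZ.of_sublist n (l.map fun a => (a, mid a, e a)) W L₁ B (by simpa using hln) ?_ ?_
        ?_ ?_
      · rw [List.map_map]
        have h4 : ((fun p : V × List V × V => p.1) ∘ fun a => (a, mid a, e a)) = id := rfl
        rw [h4, List.map_id]
        exact hl
      · rw [List.map_map]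
        exact hle
      · intro p hp
        obtain ⟨a, ha, rfl⟩ := List.mem_map.1 hp
        have h5 := hb a (hlm a ha)
        refine ⟨h5.1.1, ?_, ?_, h5.2.2.1⟩
        · exact (List.nodup_append'.1 (List.nodup_cons.1 h5.1.2).2).1
        · have := hcon a (hlm a ha)
          show n ^ 2 + 1 ≤ (mid a).length + 2
          omega
      · rw [List.pairwise_map]
        refine List.Pairwise.imp_of_mem ?_ (hl.nodup h1.2)
        intro a b ha hb' hab
        exact ((hb a (hlm a ha)).2.2.2 b (hlm b hb') hab).2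
    obtain ⟨Z, hZ1, _, hZ3, _⟩ := ZZ.path n W L₁ B h1 hB hAB hW1 hBW hZ
    have := hlong Z hZ1
    omega
  rcases es (fun x => L₂.idxOf (e x)) (n - 1) (n - 1) L₁ h1.2 hinj h3 with
    ⟨l, hl1, hl2, hl3⟩ | ⟨l, hl1, hl2, hl3⟩
  · refine fin l L₂ h2 h12 hW2 hl1 (by omega) ?_
    refine sublist_of_idx L₂ _ ?_ ?_
    · intro x hx
      obtain ⟨a, ha, rfl⟩ := List.mem_map.1 hx
      exact (hb a (hl1.subset ha)).2.1
    · rw [List.pairwise_map]
      exact hl3
  · refine fin l L₂.reverse h2.reverse (fun v hv hv' => h12 v hv (List.mem_reverse.1 hv'))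
      (fun v hv => hW2 v (List.mem_reverse.1 hv)) hl1 (by omega) ?_
    refine sublist_of_idx_rev L₂ _ ?_ ?_
    · intro x hx
      obtain ⟨a, ha, rfl⟩ := List.mem_map.1 hx
      exact (hb a (hl1.subset ha)).2.1
    · rw [List.pairwise_map]
      exact hl3

/-- Two elements in their order. -/
theorem split_two [DecidableEq V] {P : List V} {z z' : V} (hz : z ∈ P)
    (hz' : z' ∈ P) (h : P.idxOf z < P.idxOf z') : ∃ P₁ M P₂ : List V,
      P = P₁ ++ z :: (M ++ z' :: P₂) ∧ M.length + 1 + P.idxOf z = P.idxOf z' := by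
  obtain ⟨P₁, x, Q, hP, hx, hP₁⟩ := exists_first (p := fun v => v = z) (l := P) ⟨z, hz, rfl⟩
  subst hx
  subst hP
  have hx1 : x ∉ P₁ := fun h1 => hP₁ x h1 rfl
  have hi : (P₁ ++ x :: Q).idxOf x = P₁.length := by
    rw [List.idxOf_append_of_notMem hx1, List.idxOf_cons_self, Nat.add_zero]
  have hz1 : z' ∉ P₁ := by
    intro h1
    rw [hi, List.idxOf_append_of_mem h1] at h
    have := List.idxOf_lt_length_iff.2 h1
    omega
  have hne : z' ≠ x := by
    intro h1
    rw [h1] at h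
    exact absurd h (lt_irrefl _)
  have hzQ : z' ∈ Q := by
    rcases List.mem_append.1 hz' with h1 | h1
    · exact absurd h1 hz1
    · rcases List.mem_cons.1 h1 with h2 | h2
      · exact absurd h2 hne
      · exact h2
  obtain ⟨M, y, P₂, hQ, hy, hM⟩ := exists_first (p := fun v => v = z') (l := Q) ⟨z', hzQ, rfl⟩
  subst hy
  subst hQ
  have hyM : y ∉ M := fun h1 => hM y h1 rfl
  refine ⟨P₁, M, P₂, rfl, ?_⟩
  rw [hi, List.idxOf_append_of_notMem hz1, List.idxOf_cons_ne _ hne.symm,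
    List.idxOf_append_of_notMem hyM, List.idxOf_cons_self]
  omega

/-- Among `n ^ 2 + 1` vertices of a path with at most `n ^ 3` vertices two are near. -/
theorem gap [DecidableEq V] {P : List V} {T : Finset V} {n : ℕ} (hn : 1 ≤ n)
    (hT : ∀ v ∈ T, v ∈ P) (hc : n ^ 2 < T.card) (hlen : P.length ≤ n ^ 3) :
    ∃ z ∈ T, ∃ z' ∈ T, z ≠ z' ∧ ∃ P₁ M P₂ : List V, P = P₁ ++ z :: (M ++ z' :: P₂) ∧
      M.length + 2 ≤ n := by
  obtain ⟨x, hx, y, hy, hne, hxy⟩ := Finset.exists_ne_map_eq_of_card_lt_of_maps_to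
    (s := T) (t := Finset.range (n ^ 2)) (by rw [Finset.card_range]; exact hc)
    (f := fun v => P.idxOf v / n) (by
      intro v hv
      have h1 := List.idxOf_lt_length_iff.2 (hT v hv)
      rw [Finset.mem_coe, Finset.mem_range, Nat.div_lt_iff_lt_mul (by omega)]
      calc P.idxOf v < P.length := h1
        _ ≤ n ^ 3 := hlen
        _ = n ^ 2 * n := by ring)
  have key : ∀ a b : ℕ, a / n = b / n → a < b → b < a + n := by
    intro a b hab _
    have h1 := Nat.div_add_mod a n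
    have h2 := Nat.div_add_mod b n
    have h3 := Nat.mod_lt b (show 0 < n by omega)
    rw [hab] at h1
    omega
  rcases lt_trichotomy (P.idxOf x) (P.idxOf y) with h | h | h
  · obtain ⟨P₁, M, P₂, h1, h2⟩ := split_two (hT x hx) (hT y hy) h
    have h3 := key _ _ hxy h
    exact ⟨x, hx, y, hy, hne, P₁, M, P₂, h1, by omega⟩
  · exact absurd ((List.idxOf_inj (hT x hx)).1 h) hne
  · obtain ⟨P₁, M, P₂, h1, h2⟩ := split_two (hT y hy) (hT x hx) h
    have h3 := key _ _ hxy.symm h
    exact ⟨y, hy, x, hx, hne.symm, P₁, M, P₂, h1, by omega⟩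

/-- The insertion. -/
theorem insertion {G : SimpleGraph V} {P₁ M P₂ C₁ C₂ R₀ A₁ A₂ A₃ D₁ D₂ m₁ m₂ sm : List V}
    {z z' y y' α ω : V} (hP : IsP G (P₁ ++ z :: (M ++ z' :: P₂)))
    (hR : IsP G (C₁ ++ α :: (C₂ ++ (R₀ ++ (A₁ ++ y :: (A₂ ++ y' :: (A₃ ++ (D₁ ++ ω :: D₂))))))))
    (hPR : ∀ v ∈ P₁ ++ z :: (M ++ z' :: P₂),
      v ∉ α :: (C₂ ++ (R₀ ++ (A₁ ++ y :: (A₂ ++ y' :: (A₃ ++ (D₁ ++ ω :: D₂)))))))
    (hm₁ : IsP G (y :: (m₁ ++ [z]))) (hm₂ : IsP G (y' :: (m₂ ++ [z'])))
    (hs : IsP G (α :: (sm ++ [ω])))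
    (h1 : ∀ v ∈ m₁, v ∉ P₁ ++ z :: (M ++ z' :: P₂) ∧
      v ∉ α :: (C₂ ++ (R₀ ++ (A₁ ++ y :: (A₂ ++ y' :: (A₃ ++ (D₁ ++ ω :: D₂)))))) ∧ v ∉ sm ∧
        v ∉ m₂)
    (h2 : ∀ v ∈ m₂, v ∉ P₁ ++ z :: (M ++ z' :: P₂) ∧
      v ∉ α :: (C₂ ++ (R₀ ++ (A₁ ++ y :: (A₂ ++ y' :: (A₃ ++ (D₁ ++ ω :: D₂)))))) ∧ v ∉ sm)
    (h3 : ∀ v ∈ sm, v ∉ P₁ ++ z :: (M ++ z' :: P₂) ∧
      v ∉ α :: (C₂ ++ (R₀ ++ (A₁ ++ y :: (A₂ ++ y' :: (A₃ ++ (D₁ ++ ω :: D₂))))))) :
    ∃ l, IsP G l ∧ P₁.length + P₂.length + R₀.length + 6 ≤ l.length := by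
  refine ⟨P₁ ++ z :: (m₁.reverse ++ y :: ((A₁.reverse ++ (R₀.reverse ++ C₂.reverse)) ++
    α :: (sm ++ ω :: ((D₁.reverse ++ A₃.reverse) ++ y' :: (m₂ ++ z' :: P₂))))), ⟨?_, ?_⟩, ?_⟩
  · have cP := hP.1
    have cR := hR.1
    rw [List.isChain_split]
    refine ⟨(List.isChain_split.1 cP).1, ?_⟩
    rw [← List.cons_append, List.isChain_split]
    refine ⟨?_, ?_⟩
    · have h4 := isChain_reverse' G hm₁.1
      simpa using h4
    rw [← List.cons_append, List.isChain_split]
    refine ⟨?_, ?_⟩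
    · have h4 : (α :: (C₂ ++ (R₀ ++ (A₁ ++ [y])))).IsChain G.Adj := by
        have h5 := (List.isChain_split.1 cR).2
        have h6 : α :: (C₂ ++ (R₀ ++ (A₁ ++ y :: (A₂ ++ y' :: (A₃ ++ (D₁ ++ ω :: D₂)))))) =
          (α :: (C₂ ++ (R₀ ++ A₁))) ++ y :: (A₂ ++ y' :: (A₃ ++ (D₁ ++ ω :: D₂))) := by simp
        rw [h6, List.isChain_split] at h5
        simpa using h5.1
      have h5 := isChain_reverse' G h4
      simpa using h5
    rw [← List.cons_append, List.isChain_split]
    refine ⟨by simpa using hs.1, ?_⟩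
    rw [← List.cons_append, List.isChain_split]
    refine ⟨?_, ?_⟩
    · have h4 : (y' :: (A₃ ++ (D₁ ++ [ω]))).IsChain G.Adj := by
        have h5 := (List.isChain_split.1 cR).2
        have h6 : α :: (C₂ ++ (R₀ ++ (A₁ ++ y :: (A₂ ++ y' :: (A₃ ++ (D₁ ++ ω :: D₂)))))) =
          (α :: (C₂ ++ (R₀ ++ (A₁ ++ y :: A₂)))) ++ y' :: ((A₃ ++ D₁) ++ ω :: D₂) := by simp
        rw [h6, List.isChain_split] at h5
        have h7 := h5.2
        rw [← List.cons_append, List.isChain_split] at h7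
        simpa using h7.1
      have h5 := isChain_reverse' G h4
      simpa using h5
    rw [← List.cons_append, List.isChain_split]
    refine ⟨by simpa using hm₂.1, ?_⟩
    have h5 := (List.isChain_split.1 cP).2
    rw [← List.cons_append, List.isChain_split] at h5
    exact h5.2
  · have hperm : (P₁ ++ z :: (m₁.reverse ++ y :: ((A₁.reverse ++ (R₀.reverse ++ C₂.reverse)) ++
        α :: (sm ++ ω :: ((D₁.reverse ++ A₃.reverse) ++ y' :: (m₂ ++ z' :: P₂)))))).Perm
        ((P₁ ++ z :: z' :: P₂) ++ ((α :: (C₂ ++ (R₀ ++ (A₁ ++ y :: y' :: (A₃ ++ (D₁ ++ [ω])))))) ++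
          (sm ++ (m₁ ++ m₂)))) := by
      rw [← Multiset.coe_eq_coe]
      simp only [← Multiset.coe_add, ← Multiset.cons_coe, Multiset.coe_reverse,
        ← Multiset.singleton_add, Multiset.coe_nil]
      abel
    rw [hperm.nodup_iff]
    have subP : (P₁ ++ z :: z' :: P₂).Sublist (P₁ ++ z :: (M ++ z' :: P₂)) :=
      (List.Sublist.refl P₁).append (List.Sublist.cons_cons z (List.sublist_append_right M _))
    have subR : (α :: (C₂ ++ (R₀ ++ (A₁ ++ y :: y' :: (A₃ ++ (D₁ ++ [ω])))))).Sublist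
        (α :: (C₂ ++ (R₀ ++ (A₁ ++ y :: (A₂ ++ y' :: (A₃ ++ (D₁ ++ ω :: D₂))))))) := by
      refine List.Sublist.cons_cons _ ((List.Sublist.refl C₂).append
        ((List.Sublist.refl R₀).append ((List.Sublist.refl A₁).append
        (List.Sublist.cons_cons _ (List.Sublist.trans (List.Sublist.cons_cons _
        ((List.Sublist.refl A₃).append ((List.Sublist.refl D₁).append
        (List.Sublist.cons_cons _ (List.nil_sublist _)))))
        (List.sublist_append_right A₂ _))))))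
    rw [List.nodup_append']
    refine ⟨subP.nodup hP.2, ?_, ?_⟩
    · rw [List.nodup_append']
      refine ⟨subR.nodup (List.nodup_append'.1 hR.2).2.1, ?_, ?_⟩
      · rw [List.nodup_append']
        refine ⟨(List.nodup_append'.1 (List.nodup_cons.1 hs.2).2).1, ?_, ?_⟩
        · rw [List.nodup_append']
          refine ⟨(List.nodup_append'.1 (List.nodup_cons.1 hm₁.2).2).1,
            (List.nodup_append'.1 (List.nodup_cons.1 hm₂.2).2).1, ?_⟩
          intro v hv hv'
          exact (h1 v hv).2.2.2 hv'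
        · intro v hv hv'
          rcases List.mem_append.1 hv' with h | h
          · exact (h1 v h).2.2.1 hv
          · exact (h2 v h).2.2 hv
      · intro v hv hv'
        have hv2 := subR.subset hv
        rcases List.mem_append.1 hv' with h | h
        · exact (h3 v h).2 hv2
        · rcases List.mem_append.1 h with h | h
          · exact (h1 v h).2.1 hv2
          · exact (h2 v h).2.1 hv2
    · intro v hv hv'
      have hv2 := subP.subset hv
      rcases List.mem_append.1 hv' with h | h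
      · exact hPR v hv2 (subR.subset h)
      · rcases List.mem_append.1 h with h | h
        · exact (h3 v h).1 hv2
        · rcases List.mem_append.1 h with h | h
          · exact (h1 v h).1 hv2
          · exact (h2 v h).1 hv2
  · simp only [List.length_append, List.length_cons, List.length_reverse]
    omega

end Pool.Agent.Helper41.PP
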