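import Pool.Agent.Helper41.PP.Per

/-!
# Components outside a cycle, and their attachments
-/

namespace Pool.Agent.Helper41.PP

variable {V : Type}

/-- The edges between vertices of `D`. -/
def HD (G : SimpleGraph V) (D : V → Prop) : SimpleGraph V where
  Adj u v := G.Adj u v ∧ D u ∧ D v
  symm := ⟨fun _ _ h => ⟨h.1.symm, h.2.2, h.2.1⟩⟩
  loopless := ⟨fun _ h => G.irrefl h.1⟩

/-- The component `K` has a neighbour of `x`. -/
def Att (G : SimpleGraph V) (D : V → Prop) (K : (HD G D).ConnectedComponent) (x : V) : Prop :=
  ∃ u, D u ∧ (HD G D).connectedComponentMk u = K ∧ G.Adj x u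

theorem chain_reach {G : SimpleGraph V} {D : V → Prop} :
    ∀ (J : List V) (u : V), (u :: J).IsChain G.Adj → (∀ v ∈ u :: J, D v) →
      ∀ v ∈ u :: J, (HD G D).Reachable u v := by
  intro J
  induction J with
  | nil =>
      intro u _ _ v hv
      rw [List.mem_singleton.1 hv]
  | cons w J ih =>
      intro u hc hD v hv
      rw [List.isChain_cons_cons] at hc
      rcases List.mem_cons.1 hv with h1 | h1
      · rw [h1]
      · have h2 := ih w hc.2 (fun v hv => hD v (List.mem_cons_of_mem _ hv)) v h1
        have h3 : (HD G D).Adj u w := ⟨hc.1, hD u List.mem_cons_self,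
          hD w (List.mem_cons_of_mem _ List.mem_cons_self)⟩
        exact h3.reachable.trans h2

/-- A piece at `x` lies in a component which is attached to `x`. -/
theorem piece_comp {G : SimpleGraph V} {D : V → Prop} {x : V} {J : List V}
    (hJ : IsP G (x :: J)) (h0 : J ≠ []) (hD : ∀ v ∈ J, D v) :
    ∃ K, Att G D K x ∧ ∀ v ∈ J, (HD G D).connectedComponentMk v = K := by
  obtain ⟨u, J', rfl⟩ := List.exists_cons_of_ne_nil h0
  have hc := List.isChain_cons_cons.1 hJ.1
  refine ⟨(HD G D).connectedComponentMk u, ⟨u, hD u List.mem_cons_self, rfl, hc.1⟩, ?_⟩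
  intro v hv
  exact (SimpleGraph.ConnectedComponent.sound (chain_reach J' u hc.2 hD v hv)).symm

theorem walk_D {G : SimpleGraph V} {D : V → Prop} {u w : V} (p : (HD G D).Walk u w) (hu : D u) :
    ∀ v ∈ p.support, D v ∧ (HD G D).Reachable u v := by
  induction p with
  | nil =>
      intro v hv
      rw [SimpleGraph.Walk.support_nil, List.mem_singleton] at hv
      rw [hv]
      exact ⟨hu, SimpleGraph.Reachable.refl _⟩
  | cons h p ih =>
      intro v hv
      rw [SimpleGraph.Walk.support_cons] at hv
      rcases List.mem_cons.1 hv with h1 | h1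
      · rw [h1]
        exact ⟨hu, SimpleGraph.Reachable.refl _⟩
      · obtain ⟨h2, h3⟩ := ih h.2.2 v h1
        exact ⟨h2, h.reachable.trans h3⟩

/-- Two attachments of a component are the ends of a path through the component. -/
theorem att_path {G : SimpleGraph V} {D : V → Prop} {K : (HD G D).ConnectedComponent} {x y : V}
    (hx : Att G D K x) (hy : Att G D K y) (hne : x ≠ y) (hxD : ¬ D x) (hyD : ¬ D y) :
    ∃ J : List V, J ≠ [] ∧ IsP G (x :: (J ++ [y])) ∧
      ∀ v ∈ J, D v ∧ (HD G D).connectedComponentMk v = K := by
  classical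
  obtain ⟨u, hu, huK, hxu⟩ := hx
  obtain ⟨w, hw, hwK, hyw⟩ := hy
  have h1 : (HD G D).Reachable u w :=
    SimpleGraph.ConnectedComponent.exact (huK.trans hwK.symm)
  obtain ⟨p0⟩ := h1
  set p := p0.toPath.1 with hp
  have hpp : p.IsPath := p0.toPath.2
  have hsup := walk_D p hu
  have hch : p.support.IsChain G.Adj := p.isChain_adj_support.imp fun a b hab => hab.1
  refine ⟨p.support, SimpleGraph.Walk.support_ne_nil p, ⟨?_, ?_⟩, ?_⟩
  · have e1 : x :: (p.support ++ [y]) = [x] ++ (p.support ++ [y]) := rfl
    rw [e1, List.isChain_append]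
    refine ⟨List.isChain_singleton _, ?_, ?_⟩
    · rw [List.isChain_append]
      refine ⟨hch, List.isChain_singleton _, ?_⟩
      intro a ha b hb
      have hb' : b = y := by simpa using hb.symm
      have ha' : a = w := by
        rw [List.getLast?_eq_some_getLast (SimpleGraph.Walk.support_ne_nil p),
          SimpleGraph.Walk.getLast_support] at ha
        simpa using ha.symm
      rw [ha', hb']
      exact hyw.symm
    · intro a ha b hb
      have ha' : a = x := by simpa using ha.symm
      have hb' : b = u := by
        rw [List.head?_append_of_ne_nil _ (SimpleGraph.Walk.support_ne_nil p),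
          List.head?_eq_some_head (SimpleGraph.Walk.support_ne_nil p),
          SimpleGraph.Walk.head_support] at hb
        simpa using hb.symm
      rw [ha', hb']
      exact hxu
  · rw [List.nodup_cons, List.nodup_append']
    refine ⟨?_, hpp.support_nodup, List.nodup_singleton _, ?_⟩
    · intro h2
      rcases List.mem_append.1 h2 with h3 | h3
      · exact hxD (hsup x h3).1
      · exact hne (List.mem_singleton.1 h3)
    · intro v hv hv2
      rw [List.mem_singleton.1 hv2] at hv
      exact hyD (hsup y hv).1
  · intro v hv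
    refine ⟨(hsup v hv).1, ?_⟩
    rw [← huK]
    exact (SimpleGraph.ConnectedComponent.sound (hsup v hv).2).symm

end Pool.Agent.Helper41.PP
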