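import Pool.Agent.Helper41.PP.Blk

/-!
# Cycles as periodic sequences
-/

namespace Pool.Agent.Helper41.PP

variable {V : Type}

/-- The `m` vertices which start at `i`. -/
def arc (f : ℕ → V) (i m : ℕ) : List V := (List.range m).map fun k => f (i + k)

theorem arc_length (f : ℕ → V) (i m : ℕ) : (arc f i m).length = m := by
  simp [arc]

theorem arc_add (f : ℕ → V) (i m m' : ℕ) : arc f i (m + m') = arc f i m ++ arc f (i + m) m' := by
  unfold arc
  rw [List.range_add, List.map_append, List.map_map]
  congr 1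
  apply List.map_congr_left
  intro k _
  simp only [Function.comp_apply]
  rw [add_assoc]

theorem arc_zero (f : ℕ → V) (i : ℕ) : arc f i 0 = [] := rfl

theorem arc_one (f : ℕ → V) (i : ℕ) : arc f i 1 = [f i] := by
  simp [arc, List.range_succ]

theorem arc_succ (f : ℕ → V) (i m : ℕ) : arc f i (m + 1) = f i :: arc f (i + 1) m := by
  rw [add_comm m 1, arc_add, arc_one]
  rfl

theorem arc_succ' (f : ℕ → V) (i m : ℕ) : arc f i (m + 1) = arc f i m ++ [f (i + m)] := by
  rw [arc_add, arc_one]

theorem mem_arc {f : ℕ → V} {i m : ℕ} {v : V} : v ∈ arc f i m ↔ ∃ k, k < m ∧ f (i + k) = v := by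
  simp [arc]

/-- A cycle of a graph as a periodic sequence. -/
structure Per (G : SimpleGraph V) (f : ℕ → V) (N : ℕ) : Prop where
  two : 2 ≤ N
  per : ∀ i, f (i + N) = f i
  inj : ∀ i j, i < N → j < N → f i = f j → i = j
  adj : ∀ i, G.Adj (f i) (f (i + 1))

theorem Per.mul {G : SimpleGraph V} {f : ℕ → V} {N : ℕ} (h : Per G f N) (i k : ℕ) :
    f (i + k * N) = f i := by
  induction k with
  | zero => simp
  | succ k ih => rw [add_mul, one_mul, ← add_assoc, h.per, ih]

theorem Per.mod {G : SimpleGraph V} {f : ℕ → V} {N : ℕ} (h : Per G f N) (i : ℕ) :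
    f (i % N) = f i := by
  conv_rhs => rw [← Nat.mod_add_div i N, mul_comm]
  rw [h.mul]

theorem Per.ne {G : SimpleGraph V} {f : ℕ → V} {N : ℕ} (h : Per G f N) {i j : ℕ} (h1 : i < j)
    (h2 : j < i + N) : f i ≠ f j := by
  intro h3
  have hN : 0 < N := lt_of_lt_of_le (by norm_num) h.two
  rw [← h.mod i, ← h.mod j] at h3
  have h4 := h.inj _ _ (Nat.mod_lt _ hN) (Nat.mod_lt _ hN) h3
  have h5 : N ∣ j - i := (Nat.modEq_iff_dvd' h1.le).1 h4
  have h6 := Nat.le_of_dvd (by omega) h5
  omega

theorem Per.arcP {G : SimpleGraph V} {f : ℕ → V} {N : ℕ} (h : Per G f N) (i m : ℕ)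
    (hm : m ≤ N) : IsP G (arc f i m) := by
  induction m generalizing i with
  | zero => exact ⟨List.isChain_nil, List.nodup_nil⟩
  | succ m ih =>
      have h1 := ih (i + 1) (by omega)
      rw [arc_succ]
      refine ⟨?_, ?_⟩
      · rw [List.isChain_cons]
        refine ⟨?_, h1.1⟩
        intro y hy
        cases m with
        | zero => simp [arc] at hy
        | succ m =>
            rw [arc_succ] at hy
            have h2 : y = f (i + 1) := by simpa using hy.symm
            rw [h2]
            exact h.adj i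
      · rw [List.nodup_cons]
        refine ⟨?_, h1.2⟩
        intro h2
        obtain ⟨k, hk, hk2⟩ := mem_arc.1 h2
        exact h.ne (i := i) (j := i + 1 + k) (by omega) (by omega) hk2.symm

theorem Per.isC {G : SimpleGraph V} {f : ℕ → V} {N : ℕ} (h : Per G f N) (i : ℕ) :
    IsC G (arc f i N) := by
  refine ⟨h.arcP i N le_rfl, ?_⟩
  obtain ⟨M, hM⟩ : ∃ M, N = M + 1 := ⟨N - 1, by have := h.two; omega⟩
  intro x hx y hy
  rw [hM, arc_succ'] at hx
  rw [hM, arc_succ] at hy
  have h1 : x = f (i + M) := by simpa using hx.symm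
  have h2 : y = f i := by simpa using hy.symm
  rw [h1, h2]
  have h3 := h.adj (i + M)
  have h4 := h.per i
  rw [hM, ← add_assoc] at h4
  rwa [h4] at h3

/-- From lists to periodic sequences. -/
theorem exists_per {G : SimpleGraph V} {C : List V} (hC : IsC G C) (h0 : C ≠ []) :
    ∃ f : ℕ → V, Per G f C.length ∧ ∀ v, v ∈ C ↔ ∃ i < C.length, f i = v := by
  have hpos : 0 < C.length := List.length_pos_iff.2 h0
  have hlast : G.Adj (C[C.length - 1]'(by omega)) (C[0]'hpos) := by
    refine hC.2 _ ?_ _ ?_
    · rw [List.getLast?_eq_getElem?, List.getElem?_eq_getElem (by omega)]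
      rfl
    · rw [List.head?_eq_getElem?, List.getElem?_eq_getElem hpos]
      rfl
  have h2 : 2 ≤ C.length := by
    by_contra h
    have h3 : C.length = 1 := by omega
    have h4 : (C[C.length - 1]'(by omega)) = (C[0]'hpos) := by
      congr 1
      omega
    rw [h4] at hlast
    exact G.irrefl hlast
  refine ⟨fun i => C[i % C.length]'(Nat.mod_lt _ hpos), ⟨h2, ?_, ?_, ?_⟩, ?_⟩
  · intro i
    simp only [Nat.add_mod_right]
  · intro i j hi hj hij
    simp only [Nat.mod_eq_of_lt hi, Nat.mod_eq_of_lt hj] at hij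
    exact (List.Nodup.getElem_inj_iff hC.1.2).1 hij
  · intro i
    have hi : i % C.length < C.length := Nat.mod_lt _ hpos
    by_cases h3 : i % C.length + 1 < C.length
    · have h4 : (i + 1) % C.length = i % C.length + 1 := by
        rw [Nat.add_mod, Nat.mod_eq_of_lt (by omega : 1 < C.length), Nat.mod_eq_of_lt h3]
      simp only [h4]
      exact List.isChain_iff_getElem.1 hC.1.1 _ h3
    · have h5 : i % C.length = C.length - 1 := by omega
      have h4 : (i + 1) % C.length = 0 := by
        rw [Nat.add_mod, Nat.mod_eq_of_lt (by omega : 1 < C.length), h5]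
        rw [Nat.sub_add_cancel (by omega), Nat.mod_self]
      simp only [h4, h5]
      exact hlast
  · intro v
    constructor
    · intro hv
      obtain ⟨i, hi, hi2⟩ := List.mem_iff_getElem.1 hv
      refine ⟨i, hi, ?_⟩
      simp only [Nat.mod_eq_of_lt hi]
      exact hi2
    · rintro ⟨i, hi, rfl⟩
      exact List.getElem_mem _

end Pool.Agent.Helper41.PP
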