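import Pool.Agent.Helper41.PP.Lab

/-!
# Facts about a longest cycle: links, high vertices, attachment sets
-/

namespace Pool.Agent.Helper41.PP

variable {V : Type}

theorem Per.all_mem {G : SimpleGraph V} {f : ℕ → V} {N : ℕ} (h : Per G f N) (i k : ℕ) :
    f k ∈ arc f i N := by
  have hN : 0 < N := lt_of_lt_of_le (by norm_num) h.two
  have h1 : i ≤ k + i * N := le_trans (Nat.le_mul_of_pos_right i hN) (Nat.le_add_left _ _)
  rw [mem_arc]
  refine ⟨(k + i * N - i) % N, Nat.mod_lt _ hN, ?_⟩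
  have h2 : k + i * N = i + (k + i * N - i) % N + (k + i * N - i) / N * N := by
    have h3 := Nat.mod_add_div (k + i * N - i) N
    rw [mul_comm N] at h3
    omega
  rw [← h.mul k i]
  conv_rhs => rw [h2]
  rw [h.mul]

/-- The graph, the cycle, and what is outside. -/
structure Big (G : SimpleGraph V) (f : ℕ → V) (N : ℕ) (D : V → Prop) (β : ℕ) : Prop where
  per : Per G f N
  out : ∀ i, ¬ D (f i)
  max : ∀ C, IsC G C → (∀ i, f i ∈ C) → C.length ≤ N
  top : ∀ l, IsP G l → l.length ≤ N + β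

/-- Two vertices of the cycle are linked. -/
def Lk (G : SimpleGraph V) (D : V → Prop) (f : ℕ → V) (i j : ℕ) : Prop :=
  ∃ K, Att G D K (f i) ∧ Att G D K (f j)

theorem Lk.symm {G : SimpleGraph V} {D : V → Prop} {f : ℕ → V} {i j : ℕ} (h : Lk G D f i j) :
    Lk G D f j i := by
  obtain ⟨K, h1, h2⟩ := h
  exact ⟨K, h2, h1⟩

/-- High vertices of the cycle. -/
def Hi (G : SimpleGraph V) (D : V → Prop) (f : ℕ → V) (β i : ℕ) : Prop :=
  ∃ A, IsP G (f i :: A) ∧ (∀ v ∈ A, D v) ∧ β < 2 * A.length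

variable {G : SimpleGraph V} {f : ℕ → V} {N : ℕ} {D : V → Prop} {β : ℕ}

theorem Big.not_arc (h : Big G f N D β) {J : List V} (hJ : ∀ v ∈ J, D v) (i m : ℕ) :
    ∀ v ∈ J, v ∉ arc f i m := by
  intro v hv hv2
  obtain ⟨k, _, hk⟩ := mem_arc.1 hv2
  rw [← hk] at hv
  exact h.out _ (hJ _ hv)

theorem Big.cons (h : Big G f N D β) {K : (HD G D).ConnectedComponent} {i : ℕ}
    (h1 : Att G D K (f i)) (h2 : Att G D K (f (i + 1))) : False := by
  have hN := h.per.two
  have hne : f i ≠ f (i + 1) := h.per.ne (by omega) (by omega)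
  obtain ⟨J, hJ0, hJ, hJK⟩ := att_path h1 h2 hne (h.out _) (h.out _)
  obtain ⟨M, rfl⟩ : ∃ M, N = M + 2 := ⟨N - 2, by omega⟩
  have hC := h.per.isC i
  have e1 : arc f i (M + 2) = [] ++ f i :: f (i + 1) :: arc f (i + 2) M := by
    rw [arc_succ, arc_succ]; rfl
  have hd := h.not_arc (fun v hv => (hJK v hv).1) i (M + 2)
  rw [e1] at hC hd
  have h3 := h.max _ (hC.detour hJ hd) (by
    intro k
    have h4 := h.per.all_mem i k
    rw [e1] at h4
    simp only [List.nil_append, List.mem_cons, List.mem_append] at h4 ⊢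
    tauto)
  have h5 : 0 < J.length := List.length_pos_iff.2 hJ0
  simp only [List.nil_append, List.length_cons, List.length_append, arc_length] at h3
  omega

theorem Big.cons' (h : Big G f N D β) {i : ℕ} : ¬ Lk G D f i (i + 1) := by
  rintro ⟨K, h1, h2⟩
  exact h.cons h1 h2

theorem Big.congr (h : Big G f N D β) (i j : ℕ) : Lk G D f i (j + N) ↔ Lk G D f i j := by
  unfold Lk
  rw [h.per.per]

/-- Splitting the cycle at two places. -/
theorem Per.split4 (h : Per G f N) {i j : ℕ} (h1 : i + 1 < j) (h2 : j + 1 < i + N) :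
    arc f i N = [] ++ f i :: f (i + 1) :: (arc f (i + 2) (j - i - 2) ++ f j :: f (j + 1) ::
      arc f (j + 2) (i + N - j - 2)) := by
  obtain ⟨m, rfl⟩ : ∃ m, j = i + 2 + m := ⟨j - i - 2, by omega⟩
  obtain ⟨m', rfl⟩ : ∃ m', N = m + m' + 4 := ⟨N - m - 4, by omega⟩
  have e1 : m + m' + 4 = 1 + (1 + (m + (1 + (1 + m')))) := by ring
  have e2 : i + 2 + m - i - 2 = m := by omega
  have e3 : i + (m + m' + 4) - (i + 2 + m) - 2 = m' := by omega
  rw [e2, e3, e1, arc_add, arc_one, arc_add, arc_one, arc_add, arc_add, arc_one, arc_add, arc_one]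
  rfl

/-- Two parallel links are impossible. -/
theorem Big.two (h : Big G f N D β) {i j : ℕ} (hij : i < j) (hji : j < i + N)
    (h1 : Lk G D f i j) (h2 : Lk G D f (i + 1) (j + 1)) : False := by
  have hj1 : i + 1 ≠ j := by
    rintro rfl
    exact h.cons' h1
  have hj2 : j + 1 ≠ i + N := by
    intro h3
    have h4 := h1.symm
    rw [← h.congr, ← h3] at h4
    exact h.cons' h4
  obtain ⟨K, hK1, hK2⟩ := h1
  obtain ⟨K', hK1', hK2'⟩ := h2
  have hne : f i ≠ f j := h.per.ne hij hji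
  have hne' : f (i + 1) ≠ f (j + 1) := h.per.ne (by omega) (by omega)
  obtain ⟨J, hJ0, hJ, hJK⟩ := att_path hK1 hK2 hne (h.out _) (h.out _)
  obtain ⟨J', hJ0', hJ', hJK'⟩ := att_path hK1' hK2' hne' (h.out _) (h.out _)
  have e1 := h.per.split4 (i := i) (j := j) (by omega) (by omega)
  have hC := h.per.isC i
  have hd := h.not_arc (fun v hv => (hJK v hv).1) i N
  have hd' := h.not_arc (fun v hv => (hJK' v hv).1) i N
  have hlen := arc_length f i N
  rw [e1] at hC hd hd' hlen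
  have h3 := h.max _ (hC.double hJ hJ' hd hd' (by
    intro v hv hv'
    have h4 := (hJK v hv).2.symm.trans (hJK' v hv').2
    rw [h4] at hK1
    exact h.cons hK1 hK1')) (by
    intro k
    have h4 := h.per.all_mem i k
    rw [e1] at h4
    simp only [List.nil_append, List.mem_cons, List.mem_append, List.mem_reverse] at h4 ⊢
    tauto)
  have h5 : 0 < J.length := List.length_pos_iff.2 hJ0
  simp only [List.nil_append, List.length_cons, List.length_append, List.length_reverse] at h3 hlen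
  omega

/-- Pieces at the two ends of an edge of the cycle. -/
theorem Big.open (h : Big G f N D β) {i : ℕ} {A₁ A₂ : List V} (h1 : IsP G (f i :: A₁))
    (h2 : IsP G (f (i + 1) :: A₂)) (hD1 : ∀ v ∈ A₁, D v) (hD2 : ∀ v ∈ A₂, D v) :
    A₁.length + A₂.length ≤ β := by
  have hN := h.per.two
  have hC := h.per.isC i
  obtain ⟨M, hM⟩ : ∃ M, N = M + 2 := ⟨N - 2, by omega⟩
  have e1 : arc f i N = [] ++ f i :: f (i + 1) :: arc f (i + 2) M := by
    rw [hM, arc_succ, arc_succ]; rfl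
  have hd1 := h.not_arc hD1 i N
  have hd2 := h.not_arc hD2 i N
  have hlen := arc_length f i N
  rw [e1] at hC hd1 hd2 hlen
  obtain ⟨l, hl, hll⟩ := hC.open' h1 h2 hd1 hd2 (by
    intro v hv hv'
    obtain ⟨K, hK, hK2⟩ := piece_comp h1 (List.ne_nil_of_mem hv) hD1
    obtain ⟨K', hK', hK2'⟩ := piece_comp h2 (List.ne_nil_of_mem hv') hD2
    have h4 := (hK2 v hv).symm.trans (hK2' v hv')
    rw [h4] at hK
    exact h.cons hK hK')
  have h5 := h.top l hl
  omega

theorem Big.hi_next (h : Big G f N D β) {i : ℕ} (h1 : Hi G D f β i) :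
    ¬ Hi G D f β (i + 1) := by
  rintro ⟨A₂, hA₂, hD₂, hl₂⟩
  obtain ⟨A₁, hA₁, hD₁, hl₁⟩ := h1
  have := h.open hA₁ hA₂ hD₁ hD₂
  omega

/-- High vertices whose successors are linked. -/
theorem Big.hi_two (h : Big G f N D β) {i j : ℕ} (hij : i < j) (hji : j < i + N)
    (h1 : Hi G D f β i) (h2 : Hi G D f β j) (h3 : Lk G D f (i + 1) (j + 1)) : False := by
  have hj1 : i + 1 ≠ j := by
    rintro rfl
    exact h.cons' h3
  have hj2 : j + 1 ≠ i + N := by
    intro h4
    have h5 := h3.symm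
    rw [h4] at h5
    have h6 := h5.symm
    rw [h.congr] at h6
    exact h.cons' h6.symm
  obtain ⟨A₁, hA₁, hD₁, hl₁⟩ := h1
  obtain ⟨A₂, hA₂, hD₂, hl₂⟩ := h2
  obtain ⟨K, hK1, hK2⟩ := h3
  have hne : f (i + 1) ≠ f (j + 1) := h.per.ne (by omega) (by omega)
  obtain ⟨J, hJ0, hJ, hJK⟩ := att_path hK1 hK2 hne (h.out _) (h.out _)
  have e1 := h.per.split4 (i := i) (j := j) (by omega) (by omega)
  have hC := h.per.isC i
  have hd := h.not_arc (fun v hv => (hJK v hv).1) i N
  have hd1 := h.not_arc hD₁ i N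
  have hd2 := h.not_arc hD₂ i N
  have hlen := arc_length f i N
  rw [e1] at hC hd hd1 hd2 hlen
  obtain ⟨l, hl, hll⟩ := hC.through hJ hA₁ hA₂ hd hd1 hd2 (by
    intro v hv hv'
    obtain ⟨K', hK', hK2'⟩ := piece_comp hA₁ (List.ne_nil_of_mem hv) hD₁
    have h4 := (hK2' v hv).symm.trans (hJK v hv').2
    rw [h4] at hK'
    exact h.cons hK' hK1) (by
    intro v hv hv'
    obtain ⟨K', hK', hK2'⟩ := piece_comp hA₂ (List.ne_nil_of_mem hv) hD₂
    have h4 := (hK2' v hv).symm.trans (hJK v hv').2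
    rw [h4] at hK'
    exact h.cons hK' hK2) (by
    intro v hv hv'
    obtain ⟨K₁, hK₁, hK₁'⟩ := piece_comp hA₁ (List.ne_nil_of_mem hv) hD₁
    obtain ⟨K₂, hK₂, hK₂'⟩ := piece_comp hA₂ (List.ne_nil_of_mem hv') hD₂
    have h4 := (hK₁' v hv).symm.trans (hK₂' v hv')
    rw [h4] at hK₁
    exact h.two hij hji ⟨K₂, hK₁, hK₂⟩ ⟨K, hK1, hK2⟩)
  have h5 := h.top l hl
  have h6 : 0 < J.length := List.length_pos_iff.2 hJ0
  omega

/-- Linked vertices whose successors are high. -/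
theorem Big.hi_two' (h : Big G f N D β) {i j : ℕ} (hij : i < j) (hji : j < i + N)
    (h1 : Hi G D f β (i + 1)) (h2 : Hi G D f β (j + 1)) (h3 : Lk G D f i j) : False := by
  have hj1 : i + 1 ≠ j := by
    rintro rfl
    exact h.cons' h3
  have hj2 : j + 1 ≠ i + N := by
    intro h4
    have h5 := h3.symm
    rw [← h.congr, ← h4] at h5
    exact h.cons' h5
  obtain ⟨A₁, hA₁, hD₁, hl₁⟩ := h1
  obtain ⟨A₂, hA₂, hD₂, hl₂⟩ := h2
  obtain ⟨K, hK1, hK2⟩ := h3
  have hne : f i ≠ f j := h.per.ne hij hji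
  obtain ⟨J, hJ0, hJ, hJK⟩ := att_path hK1 hK2 hne (h.out _) (h.out _)
  have e1 := h.per.split4 (i := i) (j := j) (by omega) (by omega)
  have hC := (h.per.isC i).reverse
  have hd := h.not_arc (fun v hv => (hJK v hv).1) i N
  have hd1 := h.not_arc hD₁ i N
  have hd2 := h.not_arc hD₂ i N
  have hlen := arc_length f i N
  have e2 : (arc f i N).reverse = (arc f (j + 2) (i + N - j - 2)).reverse ++ f (j + 1) :: f j ::
      ((arc f (i + 2) (j - i - 2)).reverse ++ f (i + 1) :: f i :: []) := by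
    rw [e1]; simp
  rw [← List.length_reverse] at hlen
  have hmem : ∀ v, v ∈ (arc f i N).reverse → v ∈ arc f i N := fun v => List.mem_reverse.1
  rw [e2] at hC hmem hlen
  have hJ' : IsP G (f j :: (J.reverse ++ [f i])) := by simpa using hJ.reverse
  obtain ⟨l, hl, hll⟩ := hC.through hJ' hA₂ hA₁
    (fun v hv hv2 => hd v (List.mem_reverse.1 hv) (hmem v hv2))
    (fun v hv hv2 => hd2 v hv (hmem v hv2)) (fun v hv hv2 => hd1 v hv (hmem v hv2)) (by
    intro v hv hv'
    obtain ⟨K', hK', hK2'⟩ := piece_comp hA₂ (List.ne_nil_of_mem hv) hD₂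
    have h4 := (hK2' v hv).symm.trans (hJK v (List.mem_reverse.1 hv')).2
    rw [h4] at hK'
    exact h.cons hK2 hK') (by
    intro v hv hv'
    obtain ⟨K', hK', hK2'⟩ := piece_comp hA₁ (List.ne_nil_of_mem hv) hD₁
    have h4 := (hK2' v hv).symm.trans (hJK v (List.mem_reverse.1 hv')).2
    rw [h4] at hK'
    exact h.cons hK1 hK') (by
    intro v hv hv'
    obtain ⟨K₁, hK₁, hK₁'⟩ := piece_comp hA₁ (List.ne_nil_of_mem hv') hD₁
    obtain ⟨K₂, hK₂, hK₂'⟩ := piece_comp hA₂ (List.ne_nil_of_mem hv) hD₂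
    have h4 := (hK₁' v hv').symm.trans (hK₂' v hv)
    rw [h4] at hK₁
    exact h.two hij hji ⟨K, hK1, hK2⟩ ⟨K₂, hK₁, hK₂⟩)
  have h5 := h.top l hl
  have h6 : 0 < J.reverse.length := by
    rw [List.length_reverse]; exact List.length_pos_iff.2 hJ0
  omega

end Pool.Agent.Helper41.PP
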