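import Pool.Agent.Helper41.PP.Rot

/-!
# Independent sets, high vertices and attachment sets; chains of rotations
-/

namespace Pool.Agent.Helper41.PP

variable {V : Type} {G : SimpleGraph V} {f : ℕ → V} {N : ℕ} {D : V → Prop} {β : ℕ}

/-- The exchange property of the cycle. -/
def Exc (G : SimpleGraph V) (f : ℕ → V) (N : ℕ) (D : V → Prop) (β c : ℕ) : Prop :=
  ∀ I : Finset ℕ, (∀ i ∈ I, i < N) → I.card = c + 1 →
    ∃ P : List V, IsP G P ∧ β + c + 2 ≤ P.length ∧ (∀ v ∈ P, (∃ i ∈ I, f i = v) ∨ D v) ∧
      ∃ v ∈ P, ∃ i ∈ I, f i = v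

theorem Big.indep (h : Big G f N D β) {c : ℕ} (hE : Exc G f N D β c) {I : Finset ℕ}
    (hI : ∀ i ∈ I, i < N) (hlow : ∀ i ∈ I, ¬ Hi G D f β i)
    (hind : ∀ i ∈ I, ∀ j ∈ I, i ≠ j → ¬ Lk G D f i j) : I.card ≤ c := by
  classical
  by_contra hcon
  obtain ⟨I', hI', hc⟩ := Finset.exists_subset_card_eq (s := I) (n := c + 1) (by omega)
  obtain ⟨P, hP, hlen, hPm, v, hv, i, hi, hiv⟩ := hE I' (fun i hi => hI i (hI' hi)) hc
  set Z : Finset V := I'.image f with hZ
  have hZc : Z.card ≤ c + 1 := by rw [← hc]; exact Finset.card_image_le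
  have hPD : ∀ v ∈ P, v ∉ Z → D v := by
    intro v hv hvZ
    rcases hPm v hv with ⟨i, hi, hi2⟩ | h1
    · exact absurd (Finset.mem_image.2 ⟨i, hi, hi2⟩) hvZ
    · exact h1
  rcases pieces (P := P) (S := Z) ⟨v, hv, Finset.mem_image.2 ⟨i, hi, hiv⟩⟩ with
    ⟨A₀, x, A₁, rfl, hx, hA₀, hA₁⟩ | ⟨A₀, x, M, z, A₁, rfl, hx, hz, hA₀, hA₁⟩
  · obtain ⟨j, hj, rfl⟩ := Finset.mem_image.1 hx
    obtain ⟨A, hA, hAl, hAm⟩ := longer_piece (b := β + c + 1) hP (by omega)
    refine hlow j (hI' hj) ⟨A, hA, ?_, by omega⟩
    intro v hv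
    rcases hAm v hv with h1 | h1
    · exact hPD v (List.mem_append_left _ h1) (hA₀ v h1)
    · exact hPD v (List.mem_append_right _ (List.mem_cons_of_mem _ h1)) (hA₁ v h1)
  · obtain ⟨jx, hjx, hjx'⟩ := Finset.mem_image.1 hx
    obtain ⟨jz, hjz, hjz'⟩ := Finset.mem_image.1 hz
    by_cases hM : ∃ v ∈ M, v ∉ Z
    · obtain ⟨y, w, J, hy, hw, hyw, hJ0, hJ, hJm⟩ := jump hP hx hz hM
      obtain ⟨jy, hjy, rfl⟩ := Finset.mem_image.1 hy
      obtain ⟨jw, hjw, rfl⟩ := Finset.mem_image.1 hw
      have hJD : ∀ v ∈ J, D v := fun v hv => hPD v (hJm v hv).1 (hJm v hv).2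
      have e1 : f jy :: (J ++ [f jw]) = [] ++ ((f jy :: J) ++ [f jw]) := by simp
      have hJ1 : IsP G (f jy :: J) := by
        rw [e1] at hJ
        exact hJ.inner
      have hJr : IsP G (f jw :: J.reverse) := by
        have h1 := hJ.reverse
        have e2 : (f jy :: (J ++ [f jw])).reverse = [] ++ ((f jw :: J.reverse) ++ [f jy]) := by
          simp
        rw [e2] at h1
        exact h1.inner
      obtain ⟨K, hK, hK'⟩ := piece_comp hJ1 hJ0 hJD
      obtain ⟨K₂, hK₂, hK₂'⟩ := piece_comp hJr (by simpa using hJ0)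
        (fun v hv => hJD v (List.mem_reverse.1 hv))
      obtain ⟨u, hu⟩ := List.exists_mem_of_ne_nil J hJ0
      have h4 := (hK' u hu).symm.trans (hK₂' u (List.mem_reverse.2 hu))
      rw [← h4] at hK₂
      refine hind jy (hI' hjy) jw (hI' hjw) ?_ ⟨K, hK, hK₂⟩
      intro h5
      rw [h5] at hyw
      exact hyw rfl
    · push Not at hM
      have hnd : (x :: (M ++ [z])).Nodup := by
        have e1 : A₀ ++ x :: (M ++ z :: A₁) = A₀ ++ ((x :: (M ++ [z])) ++ A₁) := by simp
        rw [e1] at hP
        exact hP.inner.2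
      have hsub : (x :: (M ++ [z])).toFinset ⊆ Z := by
        intro u hu
        rw [List.mem_toFinset] at hu
        simp only [List.mem_cons, List.mem_append, List.not_mem_nil, or_false] at hu
        rcases hu with h1 | h1 | h1
        · rw [h1]; exact hx
        · exact hM u h1
        · rw [h1]; exact hz
      have hcard := Finset.card_le_card hsub
      rw [List.toFinset_card_of_nodup hnd] at hcard
      simp only [List.length_cons, List.length_append, List.length_nil] at hcard hlen
      by_cases hA : A₁.length ≤ A₀.length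
      · refine hlow jx (hI' hjx) ⟨A₀.reverse, ?_, ?_, ?_⟩
        · have e1 : A₀ ++ x :: (M ++ z :: A₁) = [] ++ ((A₀ ++ [x]) ++ (M ++ z :: A₁)) := by simp
          rw [e1] at hP
          have h1 := hP.inner.reverse
          rw [List.reverse_append] at h1
          rw [hjx']
          exact h1
        · intro v hv
          have hv' := List.mem_reverse.1 hv
          exact hPD v (List.mem_append_left _ hv') (hA₀ v hv')
        · rw [List.length_reverse]; omega
      · refine hlow jz (hI' hjz) ⟨A₁, ?_, ?_, ?_⟩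
        · have e1 : A₀ ++ x :: (M ++ z :: A₁) = (A₀ ++ x :: M) ++ ((z :: A₁) ++ []) := by simp
          rw [e1] at hP
          rw [hjz']
          exact hP.inner
        · intro v hv
          refine hPD v ?_ (hA₁ v hv)
          simp only [List.mem_append, List.mem_cons]
          tauto
        · omega

theorem succ_inj {N i j : ℕ} (hi : i < N) (hj : j < N) (h : (i + 1) % N = (j + 1) % N) :
    i = j := by
  have h1 : i ≡ j [MOD N] := Nat.ModEq.add_right_cancel' 1 h
  exact Nat.ModEq.eq_of_lt_of_lt h1 hi hj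

theorem Per.succ (h : Per G f N) (i : ℕ) : f ((i + 1) % N) = f (i + 1) := h.mod (i + 1)

/-- Successor sets. -/
theorem card_succ {I : Finset ℕ} {N : ℕ} (hI : ∀ i ∈ I, i < N) :
    (I.image fun i => (i + 1) % N).card = I.card := by
  refine Finset.card_image_of_injOn ?_
  intro i hi j hj hij
  exact succ_inj (hI i hi) (hI j hj) hij

theorem Big.high (h : Big G f N D β) {c : ℕ} (hE : Exc G f N D β c) {I : Finset ℕ}
    (hI : ∀ i ∈ I, i < N ∧ Hi G D f β i) : I.card ≤ c := by
  classical
  have hN : 0 < N := lt_of_lt_of_le (by norm_num) h.per.two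
  rw [← card_succ (fun i hi => (hI i hi).1)]
  refine h.indep hE ?_ ?_ ?_
  · intro i hi
    obtain ⟨j, _, rfl⟩ := Finset.mem_image.1 hi
    exact Nat.mod_lt _ hN
  · intro i hi
    obtain ⟨j, hj, rfl⟩ := Finset.mem_image.1 hi
    intro h1
    unfold Hi at h1
    rw [h.per.succ] at h1
    exact h.hi_next (hI j hj).2 h1
  · intro i hi j hj hij h1
    obtain ⟨i', hi', rfl⟩ := Finset.mem_image.1 hi
    obtain ⟨j', hj', rfl⟩ := Finset.mem_image.1 hj
    unfold Lk at h1
    rw [h.per.succ, h.per.succ] at h1
    have h2 := (hI i' hi').1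
    have h3 := (hI j' hj').1
    rcases lt_trichotomy i' j' with h4 | h4 | h4
    · exact h.hi_two h4 (by omega) (hI i' hi').2 (hI j' hj').2 h1
    · rw [h4] at hij
      exact hij rfl
    · exact h.hi_two h4 (by omega) (hI j' hj').2 (hI i' hi').2 (Lk.symm h1)

theorem Big.class (h : Big G f N D β) {c : ℕ} (hE : Exc G f N D β c)
    (K : (HD G D).ConnectedComponent) {I : Finset ℕ}
    (hI : ∀ i ∈ I, i < N ∧ Att G D K (f i)) : I.card ≤ c + 1 := by
  classical
  have hN : 0 < N := lt_of_lt_of_le (by norm_num) h.per.two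
  rw [← card_succ (fun i hi => (hI i hi).1)]
  set S : Finset ℕ := I.image fun i => (i + 1) % N with hS
  have hSN : ∀ i ∈ S, i < N := by
    intro i hi
    obtain ⟨j, _, rfl⟩ := Finset.mem_image.1 hi
    exact Nat.mod_lt _ hN
  have hind : ∀ i ∈ S, ∀ j ∈ S, i ≠ j → ¬ Lk G D f i j := by
    intro i hi j hj hij h1
    obtain ⟨i', hi', rfl⟩ := Finset.mem_image.1 hi
    obtain ⟨j', hj', rfl⟩ := Finset.mem_image.1 hj
    unfold Lk at h1
    rw [h.per.succ, h.per.succ] at h1
    have h2 := (hI i' hi').1
    have h3 := (hI j' hj').1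
    rcases lt_trichotomy i' j' with h4 | h4 | h4
    · exact h.two h4 (by omega) ⟨K, (hI i' hi').2, (hI j' hj').2⟩ h1
    · rw [h4] at hij
      exact hij rfl
    · exact h.two h4 (by omega) ⟨K, (hI j' hj').2, (hI i' hi').2⟩ (Lk.symm h1)
  have hone : ∀ i ∈ S, ∀ j ∈ S, Hi G D f β i → Hi G D f β j → i = j := by
    intro i hi j hj h5 h6
    by_contra hij
    obtain ⟨i', hi', rfl⟩ := Finset.mem_image.1 hi
    obtain ⟨j', hj', rfl⟩ := Finset.mem_image.1 hj
    unfold Hi at h5 h6
    rw [h.per.succ] at h5 h6
    have h2 := (hI i' hi').1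
    have h3 := (hI j' hj').1
    rcases lt_trichotomy i' j' with h4 | h4 | h4
    · exact h.hi_two' h4 (by omega) h5 h6 ⟨K, (hI i' hi').2, (hI j' hj').2⟩
    · rw [h4] at hij
      exact hij rfl
    · exact h.hi_two' h4 (by omega) h6 h5 ⟨K, (hI j' hj').2, (hI i' hi').2⟩
  by_cases hex : ∃ p ∈ S, Hi G D f β p
  · obtain ⟨p, hp, hp2⟩ := hex
    have h1 : (S.erase p).card ≤ c := by
      refine h.indep hE (fun i hi => hSN i (Finset.mem_of_mem_erase hi)) ?_ ?_
      · intro i hi h2
        exact (Finset.mem_erase.1 hi).1 (hone i (Finset.mem_of_mem_erase hi) p hp h2 hp2)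
      · intro i hi j hj
        exact hind i (Finset.mem_of_mem_erase hi) j (Finset.mem_of_mem_erase hj)
    rw [Finset.card_erase_of_mem hp] at h1
    omega
  · push Not at hex
    have h1 : S.card ≤ c := h.indep hE hSN hex hind
    omega

/-- A Posa rotation. -/
theorem rot {A B J : List V} {x y : V} (h : IsP G (A ++ x :: (B ++ [y])))
    (hJ : IsP G (x :: (J ++ [y]))) (hd : ∀ v ∈ J, v ∉ A ++ x :: (B ++ [y])) :
    IsP G (A ++ x :: (J ++ y :: B.reverse)) := by
  have hc := h.1
  refine ⟨?_, ?_⟩
  · rw [List.isChain_split] at hc ⊢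
    refine ⟨hc.1, ?_⟩
    rw [← List.cons_append, List.isChain_split]
    refine ⟨by simpa using hJ.1, ?_⟩
    have h2 := (List.isChain_cons.1 hc.2).2
    have h3 := isChain_reverse' G h2
    simpa using h3
  · have hp : (A ++ x :: (J ++ y :: B.reverse)).Perm ((A ++ x :: (B ++ [y])) ++ J) := by
      rw [← Multiset.coe_eq_coe]
      simp only [← Multiset.coe_add, ← Multiset.cons_coe, Multiset.coe_reverse,
        ← Multiset.singleton_add, Multiset.coe_nil]
      abel
    rw [hp.nodup_iff, List.nodup_append']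
    refine ⟨h.2, (List.nodup_append'.1 (List.nodup_cons.1 hJ.2).2).1, ?_⟩
    intro v hv hv'
    exact hd v hv' hv

/-- A chain of rotations through different components. -/
theorem Big.chain (h : Big G f N D β) {t : ℕ} (y x : ℕ → ℕ)
    (k : ℕ → (HD G D).ConnectedComponent) (hy0 : y 0 < N)
    (hs : ∀ i < t, x i < y i ∧ y (i + 1) = x i + 1 ∧ Att G D (k i) (f (y i)) ∧
      Att G D (k i) (f (x i))) (hinj : ∀ i < t, ∀ j < t, k i = k j → i = j) : t ≤ β := by
  have hyN : ∀ s ≤ t, y s < N := by
    intro s
    induction s with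
    | zero => intro _; exact hy0
    | succ s ih =>
        intro hst
        have h1 := ih (by omega)
        obtain ⟨h2, h3, _⟩ := hs s (by omega)
        omega
  have key : ∀ s ≤ t, ∃ w : List V,
      IsP G (arc f (y 0 + 1) (N - 1 - y 0) ++ (arc f 0 (y s) ++ (w ++ [f (y s)]))) ∧
      N + s ≤ (arc f (y 0 + 1) (N - 1 - y 0) ++ (arc f 0 (y s) ++ (w ++ [f (y s)]))).length ∧
      ∀ v ∈ w, (∃ i, f i = v) ∨ (D v ∧ ∃ i < s, (HD G D).connectedComponentMk v = k i) := by
    intro s
    induction s with
    | zero =>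
        intro _
        refine ⟨[], ?_, ?_, ?_⟩
        · have e1 : arc f 0 (y 0) ++ ([] ++ [f (y 0)]) = arc f (0 + N) (y 0 + 1) := by
            rw [arc_succ', zero_add, List.nil_append]
            congr 1
            · unfold arc
              apply List.map_congr_left
              intro j _
              rw [zero_add, add_comm N j, h.per.per]
            · rw [add_comm N, h.per.per]
          rw [e1]
          have e2 : 0 + N = (y 0 + 1) + (N - 1 - y 0) := by omega
          rw [e2, ← arc_add]
          refine h.per.arcP _ _ (by omega)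
        · simp only [List.length_append, arc_length, List.length_cons, List.length_nil]
          omega
        · intro v hv
          exact absurd hv (List.not_mem_nil)
    | succ s ih =>
        intro hst
        obtain ⟨w, hw1, hw2, hw3⟩ := ih (by omega)
        obtain ⟨h1, h2, h3, h4⟩ := hs s (by omega)
        have hyNs := hyN s (by omega)
        have hne1 : x s + 1 ≠ y s := by
          intro h5
          rw [← h5] at h3
          exact h.cons h4 h3
        have hne : f (x s) ≠ f (y s) := h.per.ne h1 (by omega)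
        obtain ⟨J, hJ0, hJ, hJK⟩ := att_path h4 h3 hne (h.out _) (h.out _)
        have e1 : arc f 0 (y s) = arc f 0 (x s) ++ f (x s) :: f (x s + 1) ::
            arc f (x s + 2) (y s - x s - 2) := by
          have e2 : y s = x s + (1 + (1 + (y s - x s - 2))) := by omega
          conv_lhs => rw [e2]
          rw [arc_add, arc_add, arc_one, arc_add, arc_one]
          simp only [zero_add]
          rfl
        set pre := arc f (y 0 + 1) (N - 1 - y 0) with hpre
        have e3 : pre ++ (arc f 0 (y s) ++ (w ++ [f (y s)])) =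
            (pre ++ arc f 0 (x s)) ++ f (x s) :: (((f (x s + 1) ::
              arc f (x s + 2) (y s - x s - 2)) ++ w) ++ [f (y s)]) := by
          rw [e1]; simp
        rw [e3] at hw1 hw2
        have hd : ∀ v ∈ J, v ∉ (pre ++ arc f 0 (x s)) ++ f (x s) :: (((f (x s + 1) ::
              arc f (x s + 2) (y s - x s - 2)) ++ w) ++ [f (y s)]) := by
          intro v hv hv2
          have hvD := (hJK v hv).1
          have hnf : ∀ i, f i ≠ v := by
            intro i hi
            rw [← hi] at hvD
            exact h.out _ hvD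
          have hna : ∀ i m, v ∉ arc f i m := by
            intro i m hm
            obtain ⟨j, _, hj⟩ := mem_arc.1 hm
            exact hnf _ hj
          simp only [List.mem_append, List.mem_cons, List.not_mem_nil, or_false] at hv2
          rcases hv2 with (h5 | h5) | h5 | ((h5 | h5) | h5) | h5
          · exact hna _ _ h5
          · exact hna _ _ h5
          · exact hnf _ h5.symm
          · exact hnf _ h5.symm
          · exact hna _ _ h5
          · rcases hw3 v h5 with ⟨i, hi⟩ | ⟨_, i, hi, hik⟩
            · exact hnf i hi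
            · have h6 := hik.symm.trans (hJK v hv).2
              have h7 := hinj i (by omega) s (by omega) h6
              omega
          · exact hnf _ h5.symm
        have hr := rot hw1 hJ hd
        refine ⟨J ++ f (y s) :: (w.reverse ++ (arc f (x s + 2) (y s - x s - 2)).reverse), ?_,
          ?_, ?_⟩
        · have e4 : pre ++ (arc f 0 (y (s + 1)) ++ ((J ++ f (y s) :: (w.reverse ++
              (arc f (x s + 2) (y s - x s - 2)).reverse)) ++ [f (y (s + 1))])) =
              (pre ++ arc f 0 (x s)) ++ f (x s) :: (J ++ f (y s) :: ((f (x s + 1) ::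
              arc f (x s + 2) (y s - x s - 2)) ++ w).reverse) := by
            rw [h2, arc_succ']
            simp
          rw [e4]
          exact hr
        · have h5 : 0 < J.length := List.length_pos_iff.2 hJ0
          rw [h2, arc_succ']
          simp only [List.length_append, List.length_cons, List.length_nil, List.length_reverse]
            at hw2 ⊢
          omega
        · intro v hv
          simp only [List.mem_append, List.mem_cons, List.mem_reverse] at hv
          rcases hv with h5 | h5 | h5 | h5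
          · exact Or.inr ⟨(hJK v h5).1, s, by omega, (hJK v h5).2⟩
          · exact Or.inl ⟨_, h5.symm⟩
          · rcases hw3 v h5 with h6 | ⟨h6, i, hi, hik⟩
            · exact Or.inl h6
            · exact Or.inr ⟨h6, i, by omega, hik⟩
          · obtain ⟨j, _, hj⟩ := mem_arc.1 h5
            exact Or.inl ⟨_, hj⟩
  obtain ⟨w, hw1, hw2, _⟩ := key t le_rfl
  have h1 := h.top _ hw1
  omega

end Pool.Agent.Helper41.PP
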