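import Pool.Agent.Helper41.PP.Basic

/-!
# Zigzag paths and the Erdos-Szekeres lemma
-/

namespace Pool.Agent.Helper41.PP

variable {V : Type}

/-- A zigzag structure with `m` links between the lists `A` and `B`, inner vertices in `W`. -/
def ZZ (G : SimpleGraph V) (s : ℕ) : ℕ → Set V → List V → List V → Prop
  | 0, _, _, _ => True
  | m + 1, W, A, B => ∃ (A₀ : List V) (a : V) (A' B₀ : List V) (b : V) (B' mid : List V),
      A = A₀ ++ a :: A' ∧ B = B₀ ++ b :: B' ∧ (a :: (mid ++ [b])).IsChain G.Adj ∧ mid.Nodup ∧
      s ≤ mid.length + 2 ∧ (∀ v ∈ mid, v ∈ W) ∧ ZZ G s m (W \ {v | v ∈ mid}) B' A'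

theorem ZZ.path {G : SimpleGraph V} {s : ℕ} : ∀ (m : ℕ) (W : Set V) (A B : List V),
    IsP G A → IsP G B → (∀ v ∈ A, v ∉ B) → (∀ v ∈ A, v ∉ W) → (∀ v ∈ B, v ∉ W) →
    ZZ G s m W A B → ∃ Z : List V, IsP G Z ∧ (∀ z ∈ Z.head?, z ∈ A.head?) ∧ m * s ≤ Z.length ∧
      ∀ v ∈ Z, v ∈ A ∨ v ∈ B ∨ v ∈ W := by
  intro m
  induction m with
  | zero =>
      intro W A B _ _ _ _ _ _
      refine ⟨[], ⟨List.isChain_nil, List.nodup_nil⟩, ?_, by simp, ?_⟩
      · intro z hz; simp at hz
      · intro v hv; exact absurd hv (List.not_mem_nil)
  | succ m ih =>
      intro W A B hA hB hAB hAW hBW hZ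
      obtain ⟨A₀, a, A', B₀, b, B', mid, rfl, rfl, hch, hnd, hlen, hW, hrest⟩ := hZ
      have hA' : IsP G A' := by
        refine ⟨?_, ?_⟩
        · have h1 := (List.isChain_split.1 hA.1).2
          exact (List.isChain_cons.1 h1).2
        · have h1 := (List.nodup_append'.1 hA.2).2.1
          exact (List.nodup_cons.1 h1).2
      have hB' : IsP G B' := by
        refine ⟨?_, ?_⟩
        · have h1 := (List.isChain_split.1 hB.1).2
          exact (List.isChain_cons.1 h1).2
        · have h1 := (List.nodup_append'.1 hB.2).2.1
          exact (List.nodup_cons.1 h1).2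
      have mA' : ∀ v ∈ A', v ∈ A₀ ++ a :: A' := fun v hv =>
        List.mem_append_right _ (List.mem_cons_of_mem _ hv)
      have mB' : ∀ v ∈ B', v ∈ B₀ ++ b :: B' := fun v hv =>
        List.mem_append_right _ (List.mem_cons_of_mem _ hv)
      have ma : a ∈ A₀ ++ a :: A' := List.mem_append_right _ List.mem_cons_self
      have mb : b ∈ B₀ ++ b :: B' := List.mem_append_right _ List.mem_cons_self
      obtain ⟨Z, hZ1, hZ2, hZ3, hZ4⟩ := ih (W \ {v | v ∈ mid}) B' A' hB' hA'
        (fun v hv hv' => hAB v (mA' v hv') (mB' v hv))
        (fun v hv hv' => hBW v (mB' v hv) hv'.1) (fun v hv hv' => hAW v (mA' v hv) hv'.1) hrest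
      have hcB := hB.1
      have hcA := hA.1
      refine ⟨A₀ ++ a :: (mid ++ b :: Z), ⟨?_, ?_⟩, ?_, ?_, ?_⟩
      · rw [List.isChain_split]
        refine ⟨(List.isChain_split.1 hcA).1, ?_⟩
        rw [← List.cons_append, List.isChain_split]
        refine ⟨by simpa using hch, ?_⟩
        rw [List.isChain_cons]
        refine ⟨?_, hZ1.1⟩
        intro z hz
        have h1 := hZ2 z hz
        exact (List.isChain_cons.1 (List.isChain_split.1 hcB).2).1 z h1
      · rw [List.nodup_append']
        have hA2 := List.nodup_append'.1 hA.2
        have hB2 := List.nodup_append'.1 hB.2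
        refine ⟨hA2.1, ?_, ?_⟩
        · rw [List.nodup_cons, List.nodup_append']
          refine ⟨?_, hnd, ?_, ?_⟩
          · intro h
            simp only [List.mem_append, List.mem_cons] at h
            rcases h with h | h | h
            · exact hAW a ma (hW a h)
            · exact hAB a ma (h ▸ mb)
            · rcases hZ4 a h with h1 | h1 | h1
              · exact hAB a ma (mB' a h1)
              · exact (List.nodup_cons.1 hA2.2.1).1 h1
              · exact hAW a ma h1.1
          · rw [List.nodup_cons]
            refine ⟨?_, hZ1.2⟩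
            intro h
            rcases hZ4 b h with h1 | h1 | h1
            · exact (List.nodup_cons.1 hB2.2.1).1 h1
            · exact hAB b (mA' b h1) mb
            · exact hBW b mb h1.1
          · intro v hv hv2
            rcases List.mem_cons.1 hv2 with h | h
            · exact hBW b mb (h ▸ hW v hv)
            · rcases hZ4 v h with h1 | h1 | h1
              · exact hBW v (mB' v h1) (hW v hv)
              · exact hAW v (mA' v h1) (hW v hv)
              · exact h1.2 hv
        · intro v hv hv2
          have mv : v ∈ A₀ ++ a :: A' := List.mem_append_left _ hv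
          simp only [List.mem_append, List.mem_cons] at hv2
          rcases hv2 with h | h | h | h
          · exact hA2.2.2 hv (h ▸ List.mem_cons_self)
          · exact hAW v mv (hW v h)
          · exact hAB v mv (h ▸ mb)
          · rcases hZ4 v h with h1 | h1 | h1
            · exact hAB v mv (mB' v h1)
            · exact hA2.2.2 hv (List.mem_cons_of_mem _ h1)
            · exact hAW v mv h1.1
      · intro z hz
        cases A₀ with
        | nil => simpa using hz
        | cons c A₀ => simpa using hz
      · simp only [List.length_append, List.length_cons]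
        have : (m + 1) * s = m * s + s := by ring
        omega
      · intro v hv
        simp only [List.mem_append, List.mem_cons] at hv ⊢
        rcases hv with h | h | h | h | h
        · left; left; exact h
        · left; right; left; exact h
        · right; right; exact hW v h
        · right; left; right; left; exact h
        · rcases hZ4 v h with h1 | h1 | h1
          · right; left; right; right; exact h1
          · left; right; right; exact h1
          · right; right; exact h1.1

/-- A zigzag structure from links with ends in the same order. -/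
theorem ZZ.of_sublist {G : SimpleGraph V} {s : ℕ} : ∀ (n : ℕ) (ls : List (V × List V × V))
    (W : Set V) (A B : List V), ls.length = n →
    (ls.map fun p => p.1).Sublist A → (ls.map fun p => p.2.2).Sublist B →
    (∀ p ∈ ls, (p.1 :: (p.2.1 ++ [p.2.2])).IsChain G.Adj ∧ p.2.1.Nodup ∧
      s ≤ p.2.1.length + 2 ∧ ∀ v ∈ p.2.1, v ∈ W) →
    (ls.Pairwise fun p q => ∀ v ∈ p.2.1, v ∉ q.2.1) → ZZ G s n W A B := by
  intro n
  induction n with
  | zero => intro ls W A B _ _ _ _ _; trivial
  | succ n ih =>
      intro ls W A B hn hA hB hls hpw
      cases ls with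
      | nil => simp at hn
      | cons p ls =>
          rw [List.map_cons, List.cons_sublist_iff] at hA hB
          obtain ⟨r₁, r₂, rfl, hr, hA2⟩ := hA
          obtain ⟨u₁, u₂, rfl, hu, hB2⟩ := hB
          obtain ⟨A₀, A₁, rfl⟩ := List.append_of_mem hr
          obtain ⟨B₀, B₁, rfl⟩ := List.append_of_mem hu
          have hp := hls p List.mem_cons_self
          rw [List.pairwise_cons] at hpw
          refine ⟨A₀, p.1, A₁ ++ r₂, B₀, p.2.2, B₁ ++ u₂, p.2.1, by simp, by simp, hp.1,
            hp.2.1, hp.2.2.1, hp.2.2.2, ?_⟩
          refine ih (ls.map fun q => (q.2.2, q.2.1.reverse, q.1)) _ _ _ ?_ ?_ ?_ ?_ ?_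
          · rw [List.length_map]
            simpa using hn
          · rw [List.map_map]
            exact hB2.trans (List.sublist_append_right _ _)
          · rw [List.map_map]
            exact hA2.trans (List.sublist_append_right _ _)
          · intro q hq
            obtain ⟨q', hq', rfl⟩ := List.mem_map.1 hq
            have h1 := hls q' (List.mem_cons_of_mem _ hq')
            refine ⟨?_, ?_, ?_, ?_⟩
            · have h2 := isChain_reverse' G h1.1
              simpa using h2
            · exact List.nodup_reverse.2 h1.2.1
            · simpa using h1.2.2.1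
            · intro v hv
              have hv' := List.mem_reverse.1 hv
              exact ⟨h1.2.2.2 v hv', fun h => hpw.1 q' hq' v h hv'⟩
          · rw [List.pairwise_map]
            refine hpw.2.imp ?_
            intro a b hab v hv hv'
            exact hab v (List.mem_reverse.1 hv) (List.mem_reverse.1 hv')

/-- Labels for the lemma of Erdos and Szekeres. -/
theorem es_labels (f : V → ℕ) : ∀ L : List V, L.Nodup → ∃ p q : V → ℕ,
    (∀ x ∈ L, (∃ l, (x :: l).Sublist L ∧ (x :: l).Pairwise (fun y z => f y < f z) ∧
        l.length + 1 = p x) ∧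
      (∃ l, (x :: l).Sublist L ∧ (x :: l).Pairwise (fun y z => f z < f y) ∧
        l.length + 1 = q x)) ∧
    L.Pairwise (fun x y => (f x < f y → p y < p x) ∧ (f y < f x → q y < q x)) := by
  classical
  intro L
  induction L with
  | nil =>
      intro _
      exact ⟨fun _ => 0, fun _ => 0, fun x hx => absurd hx List.not_mem_nil, List.Pairwise.nil⟩
  | cons x L ih =>
      intro hnd
      rw [List.nodup_cons] at hnd
      obtain ⟨p, q, hpq, hpw⟩ := ih hnd.2
      have hone : ∀ (R : V → V → Prop) (p : V → ℕ) (T : Finset V), (∀ y ∈ T, y ∈ L ∧ R x y ∧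
          ∃ l, (y :: l).Sublist L ∧ (y :: l).Pairwise R ∧ l.length + 1 = p y) →
          (∀ y z w, R y z → R z w → R y w) →
          ∃ l, (x :: l).Sublist (x :: L) ∧ (x :: l).Pairwise R ∧ l.length + 1 = T.sup p + 1 := by
        intro R p T hT htr
        rcases T.eq_empty_or_nonempty with h | h
        · refine ⟨[], ?_, List.pairwise_singleton _ _, ?_⟩
          · exact List.Sublist.cons_cons x (List.nil_sublist L)
          · rw [h]; rfl
        · obtain ⟨y, hy, hy2⟩ := Finset.exists_mem_eq_sup T h p
          obtain ⟨_, h2, l, h3, h4, h5⟩ := hT y hy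
          refine ⟨y :: l, List.Sublist.cons_cons x h3, ?_, ?_⟩
          · rw [List.pairwise_cons]
            refine ⟨?_, h4⟩
            intro z hz
            rcases List.mem_cons.1 hz with h6 | h6
            · rw [h6]; exact h2
            · exact htr x y z h2 ((List.pairwise_cons.1 h4).1 z h6)
          · rw [hy2, List.length_cons, h5]
      refine ⟨Function.update p x ((L.toFinset.filter fun y => f x < f y).sup p + 1),
        Function.update q x ((L.toFinset.filter fun y => f y < f x).sup q + 1), ?_, ?_⟩
      · intro y hy
        by_cases hyx : y = x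
        · subst hyx
          rw [Function.update_self, Function.update_self]
          refine ⟨hone (fun y z => f y < f z) p _ ?_ ?_, hone (fun y z => f z < f y) q _ ?_ ?_⟩
          · intro z hz
            rw [Finset.mem_filter, List.mem_toFinset] at hz
            exact ⟨hz.1, hz.2, (hpq z hz.1).1⟩
          · intro _ _ _ h1 h2; exact lt_trans h1 h2
          · intro z hz
            rw [Finset.mem_filter, List.mem_toFinset] at hz
            exact ⟨hz.1, hz.2, (hpq z hz.1).2⟩
          · intro _ _ _ h1 h2; exact lt_trans h2 h1
        · rw [Function.update_of_ne hyx, Function.update_of_ne hyx]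
          have hyL : y ∈ L := by
            rcases List.mem_cons.1 hy with h | h
            · exact absurd h hyx
            · exact h
          obtain ⟨⟨l, h1, h2, h3⟩, ⟨l', h4, h5, h6⟩⟩ := hpq y hyL
          exact ⟨⟨l, List.Sublist.cons x h1, h2, h3⟩, ⟨l', List.Sublist.cons x h4, h5, h6⟩⟩
      · rw [List.pairwise_cons]
        refine ⟨?_, ?_⟩
        · intro y hy
          have hyx : y ≠ x := fun h => hnd.1 (h ▸ hy)
          rw [Function.update_self, Function.update_self, Function.update_of_ne hyx,
            Function.update_of_ne hyx]
          refine ⟨fun h => ?_, fun h => ?_⟩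
          · exact Nat.lt_succ_of_le (Finset.le_sup (f := p)
              (Finset.mem_filter.2 ⟨List.mem_toFinset.2 hy, h⟩))
          · exact Nat.lt_succ_of_le (Finset.le_sup (f := q)
              (Finset.mem_filter.2 ⟨List.mem_toFinset.2 hy, h⟩))
        · refine List.Pairwise.imp_of_mem ?_ hpw
          intro y z hy hz hyz
          have hyx : y ≠ x := fun h => hnd.1 (h ▸ hy)
          have hzx : z ≠ x := fun h => hnd.1 (h ▸ hz)
          rw [Function.update_of_ne hyx, Function.update_of_ne hzx,
            Function.update_of_ne hyx, Function.update_of_ne hzx]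
          exact hyz

/-- The lemma of Erdos and Szekeres, for lists. -/
theorem es (f : V → ℕ) (r s : ℕ) (L : List V) (hL : L.Nodup)
    (hf : ∀ x ∈ L, ∀ y ∈ L, f x = f y → x = y) (hrs : r * s < L.length) :
    (∃ l : List V, l.Sublist L ∧ l.length = r + 1 ∧ l.Pairwise (fun y z => f y < f z)) ∨
      (∃ l : List V, l.Sublist L ∧ l.length = s + 1 ∧ l.Pairwise (fun y z => f z < f y)) := by
  classical
  obtain ⟨p, q, hpq, hpw⟩ := es_labels f L hL
  by_contra hcon
  push Not at hcon
  have hp : ∀ x ∈ L, 1 ≤ p x ∧ p x ≤ r := by
    intro x hx
    obtain ⟨l, h1, h2, h3⟩ := (hpq x hx).1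
    refine ⟨by omega, ?_⟩
    by_contra h4
    refine hcon.1 ((x :: l).take (r + 1)) ((List.take_sublist _ _).trans h1) ?_
      (h2.sublist (List.take_sublist _ _))
    rw [List.length_take, List.length_cons]
    omega
  have hq : ∀ x ∈ L, 1 ≤ q x ∧ q x ≤ s := by
    intro x hx
    obtain ⟨l, h1, h2, h3⟩ := (hpq x hx).2
    refine ⟨by omega, ?_⟩
    by_contra h4
    refine hcon.2 ((x :: l).take (s + 1)) ((List.take_sublist _ _).trans h1) ?_
      (h2.sublist (List.take_sublist _ _))
    rw [List.length_take, List.length_cons]
    omega
  have hcard : L.toFinset.card ≤ (Finset.Icc 1 r ×ˢ Finset.Icc 1 s).card := by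
    refine Finset.card_le_card_of_injOn (fun x => (p x, q x)) ?_ ?_
    · intro x hx
      have hx' : x ∈ L := List.mem_toFinset.1 hx
      have h1 := hp x hx'
      have h2 := hq x hx'
      simp only [Finset.coe_product, Set.mem_prod, Finset.mem_coe, Finset.mem_Icc]
      exact ⟨h1, h2⟩
    · intro x hx y hy hxy
      have hx' : x ∈ L := List.mem_toFinset.1 hx
      have hy' : y ∈ L := List.mem_toFinset.1 hy
      have h1 : p x = p y := congrArg Prod.fst hxy
      have h2 : q x = q y := congrArg Prod.snd hxy
      by_contra hne
      have h3 : L.Pairwise (fun x y => p x = p y → q x = q y → x = y) := by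
        refine List.Pairwise.imp_of_mem ?_ hpw
        intro a b ha hb hab h5 h6
        by_contra h7
        rcases lt_trichotomy (f a) (f b) with h8 | h8 | h8
        · have := hab.1 h8
          omega
        · exact h7 (hf a ha b hb h8)
        · have := hab.2 h8
          omega
      have : Std.Symm (fun x y => p x = p y → q x = q y → x = y) :=
        ⟨fun a b hab h5 h6 => (hab h5.symm h6.symm).symm⟩
      have h4 := h3.forall_of_forall (fun _ _ _ _ => rfl)
      exact hne (h4 hx' hy' h1 h2)
  rw [List.toFinset_card_of_nodup hL, Finset.card_product, Nat.card_Icc, Nat.card_Icc] at hcard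
  simp only [Nat.add_sub_cancel] at hcard
  omega

/-- A list of elements of `B` with increasing positions is a sublist. -/
theorem sublist_of_idx [DecidableEq V] : ∀ (B l : List V), (∀ x ∈ l, x ∈ B) →
    l.Pairwise (fun y z => B.idxOf y < B.idxOf z) → l.Sublist B := by
  intro B
  induction B with
  | nil =>
      intro l hl _
      cases l with
      | nil => exact List.Sublist.slnil
      | cons x l => exact absurd (hl x List.mem_cons_self) List.not_mem_nil
  | cons b B ih =>
      intro l hl hpw
      cases l with
      | nil => exact List.nil_sublist _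
      | cons x l =>
          have tail : ∀ m : List V, (∀ y ∈ m, y ∈ b :: B) → (∀ y ∈ m, y ≠ b) →
              m.Pairwise (fun y z => (b :: B).idxOf y < (b :: B).idxOf z) → m.Sublist B := by
            intro m hm hmb hmp
            refine ih m ?_ ?_
            · intro y hy
              rcases List.mem_cons.1 (hm y hy) with h | h
              · exact absurd h (hmb y hy)
              · exact h
            · refine List.Pairwise.imp_of_mem ?_ hmp
              intro y z hy hz hyz
              rw [List.idxOf_cons_ne B (hmb y hy).symm, List.idxOf_cons_ne B (hmb z hz).symm] at hyz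
              omega
          by_cases hxb : x = b
          · subst hxb
            refine List.Sublist.cons_cons x ?_
            refine tail l (fun y hy => hl y (List.mem_cons_of_mem _ hy)) ?_
              (List.pairwise_cons.1 hpw).2
            intro y hy hyx
            have h1 := (List.pairwise_cons.1 hpw).1 y hy
            rw [hyx] at h1
            exact absurd h1 (lt_irrefl _)
          · refine List.Sublist.cons b ?_
            refine tail (x :: l) hl ?_ hpw
            intro y hy hyb
            rcases List.mem_cons.1 hy with h1 | h1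
            · exact hxb (h1 ▸ hyb)
            · have h2 := (List.pairwise_cons.1 hpw).1 y h1
              rw [hyb, List.idxOf_cons_self] at h2
              omega

/-- A list of elements of `B` with decreasing positions is a sublist of the reverse. -/
theorem sublist_of_idx_rev [DecidableEq V] (B l : List V) (hl : ∀ x ∈ l, x ∈ B)
    (hpw : l.Pairwise (fun y z => B.idxOf z < B.idxOf y)) : l.Sublist B.reverse := by
  have h1 := sublist_of_idx B l.reverse (fun x hx => hl x (List.mem_reverse.1 hx))
    (List.pairwise_reverse.2 hpw)
  have h2 := h1.reverse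
  rwa [List.reverse_reverse] at h2

end Pool.Agent.Helper41.PP
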